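import Pool.Agent.Run7.h74.UC.Iface
import Pool.Agent.Run7.h74.DW.All

set_option autoImplicit false

/-! Project UC (helper74): the weighted mean value. -/

namespace Pool.Agent.Run7.h74.UC

open Filter Topology MeasureTheory Complex
open Pool.Agent.Q97.UM
open Pool.Agent.Run7.h74.DW (wt Adm)

theorem t_WTM : S_WTM := by
  have h := Pool.Agent.Run7.h74.DW.full_H1 1 le_rfl
  filter_upwards [h, eventually_ge_atTop (1 : ℝ)] with T h hT M hM c
  have h1 := (h (T / 2) (3 * T) ⟨le_rfl, by linarith, le_rfl⟩ M hM c).2.2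
  have e : 2 / 3 * (3 * T - T / 2) = 5 / 3 * T := by ring
  rwa [e] at h1

end Pool.Agent.Run7.h74.UC
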