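import Pool.Agent.Q97.UM.Stm14
import Pool.Agent.Run7.h74.DW.Iface

set_option autoImplicit false

/-!
Project UC (helper74): AN UNCERTAINTY PRINCIPLE FOR ZETA: NO DIRICHLET POLYNOMIAL CAN LOCALISE THE LOGARITHM OF ZETA.

THEOREM. For every `η > 0` there is `δ > 0` such that for all large `T`, all shifts `|α| ≤ T/2`, all complex `V` and ALL Dirichlet polynomials `B` of length
`T^δ`: the part of `∫_T^{2T} |B|²` over the `t` with `|log ζ(1/2+i(t+α)) - V| ≤ (loglog T)^η` is at most `(loglog T)^(4η-1) ∫_T^{2T} |B|²`; the same for strips (any real linear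
functional of several shifted values), with the square root. (For `B = 1` the sharp exponent is `-1`; weights `|B|²` can move the value distribution but can never
concentrate it.)

WHY. Random model: the `p^{-it}` are independent uniform `z_p` on the circle, `B` is HOLOMORPHIC in the `z_p`. The form `𝔼 |B|² exp(i Re(w z_p))` is the Toeplitz form of `T_p`
on `ℓ²`, and `‖T_p u‖² ≤ ‖u‖² - (|w|²/4) ‖u restricted to p ∤ n‖² + 4|w|³ ‖u‖²` (commutator of the shift and its adjoint). As `n ≤ N = T^δ` has few prime factors `> (log T)²`, the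
characteristic function of `Re ∑ a_p p^{-1/2-it}` relative to EVERY `B` is at most `C exp(-(1/8) ∑ |a_p|²/p)`. Transfer to the integral: truncated exponentials in blocks.

Every statement is a closed Prop; wanted `theorem t_XXX : J_XXX` (or `S_XXX` if no `J_XXX` is given). All real statements with `∀ᶠ T` are uniform in everything quantified after it.
-/

namespace Pool.Agent.Run7.h74.UC

open Filter Topology MeasureTheory Complex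
open Pool.Agent.Q97.UM
open Pool.Agent.Run7.h74.DW (wt Adm)

noncomputable section

/-! ### sequences -/

/-- finitely supported sequences with `u 0 = 0` -/
def FS (u : ℕ → ℂ) : Prop := u 0 = 0 ∧ (Function.support u).Finite

/-- square of the norm -/
def nn (u : ℕ → ℂ) : ℝ := ∑' n, ‖u n‖ ^ 2

/-- the finite Dirichlet series `∑ u_n n^{-it}` -/
def Fd (u : ℕ → ℂ) (t : ℝ) : ℂ := ∑' n, u n * (n : ℂ) ^ (-(t * I))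

/-- shift: multiplication by `p^{-it}` -/
def Sh (p : ℕ) (u : ℕ → ℂ) (n : ℕ) : ℂ := if p ∣ n then u (n / p) else 0

/-- adjoint shift -/
def Sa (p : ℕ) (u : ℕ → ℂ) (n : ℕ) : ℂ := u (p * n)

/-- the Toeplitz operator of `1 + i Re(w z + v z²) - (Re (w z))²/2`, `z = p^{-it}` -/
def Tp (p : ℕ) (w v : ℂ) (u : ℕ → ℂ) (n : ℕ) : ℂ :=
  u n + I / 2 * (w * Sh p u n + (starRingEnd ℂ) w * Sa p u n) +
    I / 2 * (v * Sh p (Sh p u) n + (starRingEnd ℂ) v * Sa p (Sa p u) n) -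
    1 / 8 * (w ^ 2 * Sh p (Sh p u) n + (starRingEnd ℂ) w ^ 2 * Sa p (Sa p u) n + 2 * (‖w‖ ^ 2 : ℝ) * u n)

/-- product of these operators over a list of primes -/
def TL (w v : ℕ → ℂ) : List ℕ → (ℕ → ℂ) → ℕ → ℂ
  | [], u => u
  | (p :: L), u => Tp p (w p) (v p) (TL w v L u)

/-- the function of which `Tp` is the Toeplitz operator -/
def qp (p : ℕ) (w v : ℂ) (t : ℝ) : ℂ :=
  1 + I * ((w * (p : ℂ) ^ (-(t * I)) + v * ((p : ℂ) ^ (-(t * I))) ^ 2).re : ℝ) - 1 / 2 * (((w * (p : ℂ) ^ (-(t * I))).re ^ 2 : ℝ) : ℂ)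

/-- LIM: mean values. PROOF. Finite sums; `V⁻¹ ∫_V^{2V} (m/n)^{-it} dt → 0` for `m ≠ n` (bounded antiderivative), `= 1` for `m = n`. -/
def S_LIM : Prop := ∀ f g : ℕ → ℂ, FS f → FS g →
  Tendsto (fun V : ℝ => ((V⁻¹ : ℝ) : ℂ) * ∫ t in V..(2 * V), Fd f t * (starRingEnd ℂ) (Fd g t)) atTop
    (𝓝 (∑' n, f n * (starRingEnd ℂ) (g n)))

/-- ALG: the norm of the product of the operators `T_p`. PROOF. (a) `Sh`, `Sa` preserve `FS` (`p ≥ 2`), `Sa Sh u = u`, `Sh Sa u = u` on `p ∣ n` and `0` on `p ∤ n`, `∑ f (Sh g)^- = ∑ (Sa f) g^-` type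
adjointness, `nn (Sh u) = nn u`, `nn (Sa u) ≤ nn u`. (b) One prime: `T = 1 + iA + iA' - C` with `A = (w S + w̄ S*)/2`, `A' = (v S² + v̄ S*²)/2`, `C = (w² S² + w̄² S*² + 2|w|²)/8` self-adjoint and
`A² = 2C - (|w|²/4) P`, `P` = restriction to `p ∤ n`. So `‖T u‖² = ‖u‖² + ‖A u‖² - 2 <C u, u> + (the other terms) ≤ ‖u‖² - (|w|²/4) ‖P u‖² + 4 r³ ‖u‖²`, `r = p^{-1/2}`, since `‖A‖ ≤ r`, `‖A'‖ ≤ r²/2`,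
`‖C‖ ≤ r²/2` and `Re <iA u, u> = Re <iA' u, u> = 0`. With `R u n = (if p ∣ n then 1 else (1 - |w|²/4)^{1/2}) u n`: `‖T u‖² ≤ (1 + 8 r³) ‖R u‖²`. (c) Induction on `L`: `R_p` commutes with `T_q`, `q ≠ p`, so
`‖T_p T_L u‖² ≤ (1 + 8 r_p³) ‖R_p T_L u‖² = (1 + 8 r_p³) ‖T_L (R_p u)‖²`. -/
def S_ALG : Prop := ∀ (L : List ℕ) (w v : ℕ → ℂ), L.Nodup →
  (∀ p ∈ L, p.Prime ∧ ‖w p‖ ≤ (p : ℝ) ^ (-(1 / 2) : ℝ) ∧ ‖v p‖ ≤ 1 / (2 * p)) → ∀ u : ℕ → ℂ, FS u →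
    FS (TL w v L u) ∧ nn (TL w v L u) ≤ (∏ p ∈ L.toFinset, (1 + 8 * (p : ℝ) ^ (-(3 / 2) : ℝ))) *
      ∑' n, (∏ p ∈ L.toFinset, if p ∣ n then (1 : ℝ) else 1 - ‖w p‖ ^ 2 / 4) * ‖u n‖ ^ 2

/-- finite sums of `m^{-it} n^{it}` with `m, n` coprime to the numbers of the list -/
def TR (L : List ℕ) : Submodule ℂ (ℝ → ℂ) := Submodule.span ℂ {f : ℝ → ℂ | ∃ m n : ℕ, 1 ≤ m ∧ 1 ≤ n ∧ (∀ p ∈ L, ¬ p ∣ m ∧ ¬ p ∣ n) ∧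
  f = fun t : ℝ => (m : ℂ) ^ (-(t * I)) * (n : ℂ) ^ (t * I)}

/-- MEA: the Toeplitz operators compute mean values. Prove `S_LIM → S_MEA`. PROOF. Induction on `L`, for all `Φ, f, g` at once; linear in `Φ`. Step: `q_p = ∑ c_{ab} z^a z̄^b`, `z = p^{-it}` (`(Re(w z))² = (w² z² + 2|w|² z z̄ + w̄² z̄²)/4`),
`z^a Fd f = Fd (Sh^a f)`, so by induction the term is the mean of `Φ · Fd (T_L Sh^a f) · conj (Fd (Sh^b g))`, and (LIM applied to `m^{-it} f'` and `n^{-it} g`; `p ∤ mn`: `m k = n p^b l` implies `p^b ∣ k`) this is the mean of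
`Φ · Fd (Sa^b T_L Sh^a f) · conj (Fd g)`; `Sh_p, Sa_p` commute with `T_q`, `q ≠ p`, and `∑ c_{ab} Sa^b Sh^a = T_p`. -/
def S_MEA : Prop := ∀ (L : List ℕ) (w v : ℕ → ℂ), L.Nodup → (∀ p ∈ L, p.Prime) → ∀ Φ ∈ TR L, ∀ f g : ℕ → ℂ, FS f → FS g →
  Tendsto (fun V : ℝ => ((V⁻¹ : ℝ) : ℂ) * (∫ t in V..(2 * V), Φ t * (L.map fun p => qp p (w p) (v p) t).prod * Fd f t * (starRingEnd ℂ) (Fd g t)) -
    ((V⁻¹ : ℝ) : ℂ) * ∫ t in V..(2 * V), Φ t * Fd (TL w v L f) t * (starRingEnd ℂ) (Fd g t)) atTop (𝓝 0)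

def J_MEA : Prop := S_LIM → S_MEA

/-! ### the prime sums -/

/-- the sum of the blocks `≥ j₀` -/
def ES (D : ℝ) (a a2 : ℕ → ℂ) (j₀ : ℕ) (t : ℝ) : ℂ := ∑ l ∈ Finset.Ico j₀ (JB D), zf D a a2 l t

/-- its oscillating exponential `exp(i Re ES)` -/
def Oe (D : ℝ) (a a2 : ℕ → ℂ) (j₀ : ℕ) (t : ℝ) : ℂ := cexp (I * ((ES D a a2 j₀ t).re : ℝ))

/-- the two truncated products `∏ TEx (R_l) (± (i/2) z_l)` -/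
def E1 (D κ : ℝ) (a a2 : ℕ → ℂ) (j₀ : ℕ) (t : ℝ) : ℂ := Ef D κ (fun n => I / 2 * a n) (fun n => I / 2 * a2 n) j₀ t
def E2 (D κ : ℝ) (a a2 : ℕ → ℂ) (j₀ : ℕ) (t : ℝ) : ℂ := Ef D κ (fun n => -(I / 2) * a n) (fun n => -(I / 2) * a2 n) j₀ t

/-- `exp(i Re z) = exp(i z/2) conj(exp(-i z/2))`, truncated -/
def OG (D κ : ℝ) (a a2 : ℕ → ℂ) (j₀ : ℕ) (t : ℝ) : ℂ := E1 D κ a a2 j₀ t * (starRingEnd ℂ) (E2 D κ a a2 j₀ t)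

/-- the large primes of the blocks `≥ j₀` -/
def UP (D : ℝ) (j₀ : ℕ) : Finset ℕ := (Finset.Icc 1 ⌊XB D j₀⌋₊).filter (fun p => p.Prime ∧ D ^ 2 < p)

/-- CHV: the characteristic function relative to every Dirichlet polynomial, in the mean over `V → ∞`. Prove `S_LIM → S_ALG → S_MEA → S_CHV`. PROOF. `zf D a a2 l t = ∑_{p ∈ PB D l} (a p p^{-1/2-it} + a2 p/2 p^{-1-2it})`
(`Pool.Agent.Q14.UM.dp_qb`), so with `w p = a p p^{-1/2}`, `v p = a2 p/(2p)`: `ES = P_s + ∑_{p ∈ U} (w p z_p + v p z_p²)`, `U = UP D j₀` (the blocks `≥ j₀` contain exactly the primes `≤ XB D j₀`), `P_s` the part of the primes `≤ D²`.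
`|exp(i Re(w z + v z²)) - qp| ≤ 4 p^{-3/2}`, so the product over `U` may be replaced by `∏ qp` with error `≤ C ∑_{p > D²} p^{-3/2} ≤ C/D`. `exp(i Re P_s)` is a uniform limit of `Φ_R = ∑_{r ≤ R} (i Re P_s)^r/r! ∈ TR L`, `L` = list of `U`. By MEA
`V⁻¹ ∫ Φ_R ∏ qp |dp N b|²` has the same limit as `V⁻¹ ∫ Φ_R Fd(T_L u) conj(Fd u)`, `u n = b n n^{-1/2}` (`Fd u = dp N b`, `nn u = N2 N b`), at most `(1 + ε) (nn (T_L u) nn u)^{1/2}` in the limit (Cauchy-Schwarz, LIM), and by ALG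
`nn (T_L u) ≤ C max_{n ≤ N} ∏_{p ∈ U, p ∤ n} (1 - |w p|²/4) nn u ≤ C e^{1/4} exp(-(1/4) ∑_{p ∈ U} |w p|²) nn u`, since `∑_{p ∈ U, p ∣ n} 1/p ≤ D^{-2} log n ≤ 1`. -/
def S_CHV : Prop := ∃ C : ℝ, 1 ≤ C ∧ ∀ D : ℝ, 2 ≤ D → ∀ a a2 : ℕ → ℂ, (∀ n, ‖a n‖ ≤ 1) → (∀ n, ‖a2 n‖ ≤ 1) → ∀ (j₀ N : ℕ) (b : ℕ → ℂ), 1 ≤ N →
  Real.log N ≤ D → (∀ n, b n ≠ 0 → 1 ≤ n ∧ n ≤ N) → ∀ᶠ V : ℝ in atTop,
    ‖∫ t in V..(2 * V), Oe D a a2 j₀ t * ((‖dp N b t‖ ^ 2 : ℝ) : ℂ)‖ ≤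
      C * (Real.exp (-(1 / 8) * ∑ p ∈ UP D j₀, ‖a p‖ ^ 2 / p) + 1 / D) * (V * N2 N b)

def J_CHV : Prop := S_LIM → S_ALG → S_MEA → S_CHV

/-- PTW: pointwise inequalities. Prove `S_TEX → S_PTW`. MODEL: Q195/UM/PT1.lean and `Run7/h74/DW/M1.lean` (lemma `det`). PROOF. `e = ∏ exp(i Re z_l)`. Call `l` good if `|z_l| ≤ R_l/20`. Good: by TEX `|TEx R (±i z/2) - e^{±i z/2}| ≤ x |e^{±iz/2}|`,
`x = e^{-R_l/2}`, and `|e^{iz/2}| |e^{-iz/2}| = 1`, so the two factors differ by `≤ 3x` and `|TEx(iz/2) TEx(-iz/2)| ≤ (1+x)²`; always `|TEx(±iz/2)| ≤ e^{|z|/2}`. `∑_{l ≥ j₀} e^{-R_l/2} ≤ C_A e^{-A j₀}` (`R_l ≥ 4 e^{9l/10}`). If all `l` are good: first term. Otherwise let `j` be the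
LARGEST index in `[j₀, J)` which is not good: `20|z_j|/R_j ≥ 1`, the blocks `> j` are good: (1) `|e - E conj E'| ≤ 1 + C exp(∑_{l ≤ j} |z_l|)`, (2) `≤ 1 + |E E'| ≤ 2 (1 + |E E'|²)`, (3) `|E E'|² ≤ C exp(2 ∑_{l ≤ j} |z_l|)`. -/
def S_PTW : Prop := ∀ A : ℝ, 1 ≤ A → ∃ C : ℝ, 1 ≤ C ∧ ∀ κ : ℝ, 4 ≤ κ → ∀ (J j₀ : ℕ) (z : ℕ → ℂ),
  ‖cexp (I * ((∑ l ∈ Finset.Ico j₀ J, z l).re : ℝ)) - (∏ l ∈ Finset.Ico j₀ J, TEx (R9 κ l) (I / 2 * z l)) *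
      (starRingEnd ℂ) (∏ l ∈ Finset.Ico j₀ J, TEx (R9 κ l) (-(I / 2) * z l))‖ ≤
    C * (Real.exp (-(A * j₀)) + ∑ j ∈ Finset.Ico j₀ J, Real.exp (∑ l ∈ Finset.range (j + 1), ‖z l‖) * (20 * ‖z j‖ / R9 κ j) ^ (2 * s7 j)) ∧
  ‖cexp (I * ((∑ l ∈ Finset.Ico j₀ J, z l).re : ℝ)) - (∏ l ∈ Finset.Ico j₀ J, TEx (R9 κ l) (I / 2 * z l)) *
      (starRingEnd ℂ) (∏ l ∈ Finset.Ico j₀ J, TEx (R9 κ l) (-(I / 2) * z l))‖ ≤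
    C * (Real.exp (-(A * j₀)) + ∑ j ∈ Finset.Ico j₀ J, (1 + ‖(∏ l ∈ Finset.Ico j₀ J, TEx (R9 κ l) (I / 2 * z l)) *
      (∏ l ∈ Finset.Ico j₀ J, TEx (R9 κ l) (-(I / 2) * z l))‖ ^ 2) * (20 * ‖z j‖ / R9 κ j) ^ (2 * s7 j)) ∧
  ‖(∏ l ∈ Finset.Ico j₀ J, TEx (R9 κ l) (I / 2 * z l)) * (∏ l ∈ Finset.Ico j₀ J, TEx (R9 κ l) (-(I / 2) * z l))‖ ^ 2 ≤
    C * (1 + ∑ j ∈ Finset.Ico j₀ J, Real.exp (2 * ∑ l ∈ Finset.range (j + 1), ‖z l‖) * (20 * ‖z j‖ / R9 κ j) ^ (2 * s7 j))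

def J_PTW : Prop := S_TEX → S_PTW

/-- STRA: blocks which are not good, with any power of `e^{-j}`. Prove `S_PMT → S_XM → S_MVL → S_STRA`. ADAPT `Pool.Agent.Q176.UM.t_STR` (file Q176/UM/STR.lean, import it; here `m = 1`, no product `Ef`, no JL, no COF: `M = N`, `c = b`; the same proof). The only change:
the last inequality `fin_le` (file Q176/UM/MBx.lean) becomes `exp(K e^{j/2}) (e^{-(1+8j/10)})^{s_j} ≤ C_{K,A} e^{-A j}` (`s_j ≥ e^{7j/10}`). -/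
def S_STRA : Prop := ∀ A : ℝ, 1 ≤ A → ∃ κ₀ : ℝ, 4 ≤ κ₀ ∧ ∀ κ : ℝ, κ₀ ≤ κ → ∃ C : ℝ, 1 ≤ C ∧ ∀ D : ℝ, 1 ≤ D → ∀ a a2 : ℕ → ℂ, (∀ n, ‖a n‖ ≤ 1) → (∀ n, ‖a2 n‖ ≤ 1) →
  ∀ (N : ℕ) (b : ℕ → ℂ), 1 ≤ N → Real.log N ≤ D → (∀ n, b n ≠ 0 → 1 ≤ n ∧ n ≤ N) → ∀ j' j : ℕ,
    MB (fun t => ‖dp N b t‖ ^ 2 * Real.exp (6 * ∑ l ∈ Finset.range (j + 1), ‖zf D a a2 l t‖) *
      (1 + (20 * ‖zf D a a2 j' t‖ / R9 κ j') ^ (2 * s7 j')) * (20 * ‖zf D a a2 j t‖ / R9 κ j) ^ (2 * s7 j))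
      (C * Real.exp (-(A * j)) * N2 N b)

def J_STRA : Prop := S_PMT → S_XM → S_MVL → S_STRA

/-- ERV: the truncation error in the mean `V → ∞`. Prove `S_PTW → S_STRA → S_MVL → S_ERV`. PROOF. `zf` is linear: `E1, E2, ES` are the expressions of PTW with `z_l = zf D a a2 l t` (`TEx R (zf D (c a) (c a2) l t)`, `zf D (c a) (c a2) l t = c zf D a a2 l t`). PTW (1)
with the same `A`, times `|dp N b|²`; STRA with `A + 1` (`j' = j`, `exp(∑) ≤ exp(6∑)`, `1 ≤ 1 + ...`); rules `MB.add, MB.sum, MB.mono` of Q176/UM/MBx.lean; `∑_{j ≥ j₀} e^{-(A+1)j} ≤ 2 e^{-A j₀}`. -/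
def S_ERV : Prop := ∀ A : ℝ, 1 ≤ A → ∃ κ₀ : ℝ, 4 ≤ κ₀ ∧ ∀ κ : ℝ, κ₀ ≤ κ → ∃ C : ℝ, 1 ≤ C ∧ ∀ D : ℝ, 1 ≤ D → ∀ a a2 : ℕ → ℂ, (∀ n, ‖a n‖ ≤ 1) → (∀ n, ‖a2 n‖ ≤ 1) →
  ∀ (N : ℕ) (b : ℕ → ℂ), 1 ≤ N → Real.log N ≤ D → (∀ n, b n ≠ 0 → 1 ≤ n ∧ n ≤ N) → ∀ j₀ : ℕ,
    MB (fun t => ‖Oe D a a2 j₀ t - OG D κ a a2 j₀ t‖ * ‖dp N b t‖ ^ 2) (C * Real.exp (-(A * j₀)) * N2 N b)

def J_ERV : Prop := S_PTW → S_STRA → S_MVL → S_ERV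

/-- ERT: the truncation error for the integral. Prove `S_PTW → S_STRA → S_COF → S_DPM → S_MVL → S_ERT`. PROOF. `D = δ log T`. PTW (2): the terms `|B|² (20|z_j|/R_j)^{2 s_j}` and `|E1 E2 B|² (20|z_j|/R_j)^{2 s_j}` are `|dp M c|²` with `M ≤ T^{1/8}`: `pw D κ a a2 (j+1) t` is
`(20 z_j/R_j)^{s_j}` (`Q176.UM.pw_norm`); COF (third part, `q = j + 1`, `N, b`) for `Ef pw B` (with `j₀ = JB D`, so `Ef = 1`, for the first term, and with `E1` for the second), and then COF (second part) for `E2` and DPM for the product.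
`∫_{T/2}^{3T} |dp M c|² ≤ 10 T N2 M c` (MVL on `[T/2, T]`, `[T, 2T]`, `[2T, 4T]`) and `N2 M c ≤ 2 W` whenever `MB (|dp M c|²) W` (`Q176.UM.N2_le`). So everything is a mean over `V → ∞`: first term by STRA; second term by PTW (3) and STRA (for the pair `j, j'` take the larger of the two as the
last factor): `≤ C e^{-(A+1) max(j, j')}`. Sum over `j, j' ≥ j₀`. -/
def S_ERT : Prop := ∀ A : ℝ, 1 ≤ A → ∃ κ₀ : ℝ, 4 ≤ κ₀ ∧ ∀ κ : ℝ, κ₀ ≤ κ → ∃ C δ₀ : ℝ, 1 ≤ C ∧ 0 < δ₀ ∧ ∀ δ : ℝ, 0 < δ → δ ≤ δ₀ → ∀ᶠ T : ℝ in atTop,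
  ∀ a a2 : ℕ → ℂ, (∀ n, ‖a n‖ ≤ 1) → (∀ n, ‖a2 n‖ ≤ 1) → ∀ (N : ℕ) (b : ℕ → ℂ), 1 ≤ N → (N : ℝ) ≤ T ^ δ → (∀ n, b n ≠ 0 → 1 ≤ n ∧ n ≤ N) → ∀ j₀ : ℕ,
    ∫ t in (T / 2)..(3 * T), ‖Oe (δ * Real.log T) a a2 j₀ t - OG (δ * Real.log T) κ a a2 j₀ t‖ * ‖dp N b t‖ ^ 2 ≤
      C * Real.exp (-(A * j₀)) * (T * N2 N b)

def J_ERT : Prop := S_PTW → S_STRA → S_COF → S_DPM → S_MVL → S_ERT

/-- the weighted mean value with a power saving (third part of `DW.S_H1`) -/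
def S_WTM : Prop := ∀ᶠ T : ℝ in atTop, ∀ M : ℕ, (M : ℝ) ≤ T ^ (1 / 100 : ℝ) → ∀ c : ℕ → ℂ,
  |(∫ t in (T / 2)..(3 * T), wt (T / 2) (3 * T) t * ‖dp M c t‖ ^ 2) - 5 / 3 * T * N2 M c| ≤ T ^ (1 / 4 : ℝ) * N2 M c

/-- DIA: the diagonal. Prove `S_LIM → S_WTM → S_TEX → S_COF → S_DPM → S_XM → S_MVL → S_DIA`. PROOF. `E1 B = dp M c`, `E2 B = dp M c'` with the same `M ≤ e^{26κD} N ≤ T^{1/100}` (COF second part and DPM), so `OG |B|² = dp M c · conj (dp M c')`; `x = ∑ c n conj(c' n)/n`. Second part: LIM for `f n = c n n^{-1/2}`.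
First part: polarisation `f ḡ = (1/4) ∑_{k<4} i^k |f + i^k g|²` and WTM for `c + i^k c'`: the error is `≤ T^{1/4} · 4 (N2 M c + N2 M c')`, and `N2 M c ≤ 2 exp(C √D) N2 N b` by `Q176.UM.N2_le`: `|E1|² ≤ exp(∑_l |z_l|)` (TEX) and XM with `j = JB D` (`Q176.UM.JB_le`). -/
def S_DIA : Prop := ∀ κ : ℝ, 4 ≤ κ → ∃ δ₀ : ℝ, 0 < δ₀ ∧ ∀ δ : ℝ, 0 < δ → δ ≤ δ₀ → ∀ᶠ T : ℝ in atTop,
  ∀ a a2 : ℕ → ℂ, (∀ n, ‖a n‖ ≤ 1) → (∀ n, ‖a2 n‖ ≤ 1) → ∀ (N : ℕ) (b : ℕ → ℂ), 1 ≤ N → (N : ℝ) ≤ T ^ δ → (∀ n, b n ≠ 0 → 1 ≤ n ∧ n ≤ N) → ∀ j₀ : ℕ, ∃ x : ℂ,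
    ‖(∫ t in (T / 2)..(3 * T), (wt (T / 2) (3 * T) t : ℂ) * (OG (δ * Real.log T) κ a a2 j₀ t * ((‖dp N b t‖ ^ 2 : ℝ) : ℂ))) - ((5 / 3 * T : ℝ) : ℂ) * x‖ ≤
      T ^ (1 / 2 : ℝ) * N2 N b ∧
    Tendsto (fun V : ℝ => ((V⁻¹ : ℝ) : ℂ) * ∫ t in V..(2 * V), OG (δ * Real.log T) κ a a2 j₀ t * ((‖dp N b t‖ ^ 2 : ℝ) : ℂ)) atTop (𝓝 x)

def J_DIA : Prop := S_LIM → S_WTM → S_TEX → S_COF → S_DPM → S_XM → S_MVL → S_DIA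

/-- CHT: the characteristic function relative to every Dirichlet polynomial. Prove `S_ERT → S_ERV → S_DIA → S_CHV → S_CHT`. PROOF. `κ` = the larger of the two `κ₀`. `∫ wt Oe |B|² = ∫ wt OG |B|² + (error ERT, 0 ≤ wt ≤ 1 on [T/2, 3T])`, `= (5/3) T x + ...` (DIA), and
`|x| ≤ limsup V⁻¹ |∫ Oe |B|²| + limsup V⁻¹ ∫ |Oe - OG| |B|²` by CHV and ERV (`D = δ log T`). -/
def S_CHT : Prop := ∀ A : ℝ, 1 ≤ A → ∃ C δ₀ : ℝ, 1 ≤ C ∧ 0 < δ₀ ∧ ∀ δ : ℝ, 0 < δ → δ ≤ δ₀ → ∀ᶠ T : ℝ in atTop,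
  ∀ a a2 : ℕ → ℂ, (∀ n, ‖a n‖ ≤ 1) → (∀ n, ‖a2 n‖ ≤ 1) → ∀ (N : ℕ) (b : ℕ → ℂ), 1 ≤ N → (N : ℝ) ≤ T ^ δ → (∀ n, b n ≠ 0 → 1 ≤ n ∧ n ≤ N) → ∀ j₀ : ℕ,
    ‖∫ t in (T / 2)..(3 * T), (wt (T / 2) (3 * T) t : ℂ) * (Oe (δ * Real.log T) a a2 j₀ t * ((‖dp N b t‖ ^ 2 : ℝ) : ℂ))‖ ≤
      C * (Real.exp (-(A * j₀)) + Real.exp (-(1 / 8) * ∑ p ∈ UP (δ * Real.log T) j₀, ‖a p‖ ^ 2 / p) + 1 / (δ * Real.log T)) * (T * N2 N b)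

def J_CHT : Prop := S_ERT → S_ERV → S_DIA → S_CHV → S_CHT

/-- FEJ1: small balls from the characteristic function, one dimension. PROOF. `(sin(x/2)/(x/2))² = ∫_{-1}^{1} (1 - |ξ|) e^{iξx} dξ` is `≥ 0` and `≥ 9/10` for `|x| ≤ 1`; with `x = (Z t - V)/K`:
`(9/10) ∫_{|Z - V| ≤ K} w ≤ ∫_{-1}^{1} (1 - |ξ|) |∫ w e^{iξ Z/K}| dξ ≤ 2 G₁ + G₂ √(π/c)` (Fubini for continuous functions on compact intervals). -/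
def S_FEJ1 : Prop := ∀ (p q K G₁ G₂ c V : ℝ) (w Z : ℝ → ℝ), p ≤ q → 0 < K → 0 ≤ G₁ → 0 ≤ G₂ → 0 < c → Continuous w → Continuous Z → (∀ t ∈ Set.Icc p q, 0 ≤ w t) →
  (∀ ξ : ℝ, |ξ| ≤ 1 → ‖∫ t in p..q, (w t : ℂ) * cexp (I * ((ξ * Z t / K : ℝ) : ℂ))‖ ≤ G₁ + G₂ * Real.exp (-(c * ξ ^ 2))) →
    ∫ t in {t : ℝ | t ∈ Set.Icc p q ∧ |Z t - V| ≤ K}, w t ≤ 8 * (G₁ + G₂ / Real.sqrt c)

/-- FEJ2: the same in two dimensions, product kernel; `|Z - V| ≤ K` implies `|Re|, |Im| ≤ K`. The bound is `(10/9)² (4 G₁ + G₂ π/c)`. -/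
def S_FEJ2 : Prop := ∀ (p q K G₁ G₂ c : ℝ) (V : ℂ) (w : ℝ → ℝ) (Z : ℝ → ℂ), p ≤ q → 0 < K → 0 ≤ G₁ → 0 ≤ G₂ → 0 < c → Continuous w → Continuous Z → (∀ t ∈ Set.Icc p q, 0 ≤ w t) →
  (∀ ξ : ℂ, |ξ.re| ≤ 1 → |ξ.im| ≤ 1 → ‖∫ t in p..q, (w t : ℂ) * cexp (I * ((((starRingEnd ℂ) ξ * Z t).re / K : ℝ) : ℂ))‖ ≤ G₁ + G₂ * Real.exp (-(c * ‖ξ‖ ^ 2))) →
    ∫ t in {t : ℝ | t ∈ Set.Icc p q ∧ ‖Z t - V‖ ≤ K}, w t ≤ 16 * (G₁ + G₂ / c)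

/-- BLM: moments of the blocks of large primes. Prove `S_PMT → S_DPM → S_MVL → S_BLM`. PROOF. `zf^r dp N b = dp M c`, `M ≤ (XB_j²)^r N ≤ T^{(2r+1)δ} ≤ T^{1/8}` (DPM `r` times; as in Q14/UM/EK.lean `dp_te`, or `Pool.Agent.Q86`/`Q198` files behind `t_PMT`), so
`∫_{T/2}^{3T} |zf|^{2r} |dp N b|² ≤ 10 T N2 M c ≤ 20 T W` whenever `MB (|zf|^{2r} |dp N b|²) W` (`Q176.UM.N2_le`), and PMT gives `W = (C (e^j + r + 1))^r · 2 N2 ≤ C_r e^{jr} N2`. -/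
def S_BLM : Prop := ∀ r : ℕ, ∃ C δ₀ : ℝ, 1 ≤ C ∧ 0 < δ₀ ∧ ∀ δ : ℝ, 0 < δ → δ ≤ δ₀ → ∀ᶠ T : ℝ in atTop,
  ∀ a a2 : ℕ → ℂ, (∀ n, ‖a n‖ ≤ 1) → (∀ n, ‖a2 n‖ ≤ 1) → ∀ (N : ℕ) (b : ℕ → ℂ), 1 ≤ N → (N : ℝ) ≤ T ^ δ → (∀ n, b n ≠ 0 → 1 ≤ n ∧ n ≤ N) → ∀ j : ℕ,
    ∫ t in (T / 2)..(3 * T), ‖zf (δ * Real.log T) a a2 j t‖ ^ (2 * r) * ‖dp N b t‖ ^ 2 ≤ C * Real.exp (r * j) * (T * N2 N b)

def J_BLM : Prop := S_PMT → S_DPM → S_MVL → S_BLM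

end

end Pool.Agent.Run7.h74.UC
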