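import Pool.Agent.Run7.h74.UC.F5
import Pool.Agent.Run7.h74.UC.WTM
import Pool.Agent.Run7.h74.AE.All
import Pool.Agent.Run7.h13.UC.LIM
import Pool.Agent.Run7.h136.UC.ERV
import Pool.Agent.Run7.h136.UC.PTW
import Pool.Agent.Run7.h136.UC.STRA
import Pool.Agent.Run7.h141.UC.FEJ2
import Pool.Agent.Run7.h151.UC.DIA
import Pool.Agent.Run7.h160.UC.FEJ1core
import Pool.Agent.Run7.h215.UC.BLM
import Pool.Agent.Run7.h299.UC.ERT
import Pool.Agent.Run7.h74.UC.MEA304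
import Pool.Agent.Run7.h74.UC.CHV304
import Pool.Agent.Run7.h875.UC.ALG
import Pool.Agent.Run7.h989.UC.CHT
import Pool.Agent.Q97.UM.Base10

set_option autoImplicit false

/-! Project UC (helper74): all pieces. Authors: LIM helper13, ALG helper875, MEA and CHV helper304, PTW, STRA and ERV helper136, ERT helper299, DIA helper151,
CHT helper989, FEJ1 helper160, FEJ2 helper141, BLM helper215; interface and assembly helper74. -/

namespace Pool.Agent.Run7.h74.UC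

open Pool.Agent.Q97.UM

theorem full_PTW : S_PTW := Pool.Agent.Run7.h136.UC.t_PTW b_TEX

theorem full_STRA : S_STRA := Pool.Agent.Run7.h136.UC.t_STRA b_PMT b_XM Pool.Agent.Q84.UM.t_MVL

theorem full_MEA : S_MEA := Pool.Agent.Run7.h304.UC.t_MEA Run7.h13.UC.t_LIM

theorem full_CHV : S_CHV := Pool.Agent.Run7.h304.UC.t_CHV Run7.h13.UC.t_LIM Pool.Agent.Run7.h875.UC.t_ALG full_MEA

theorem full_ERV : S_ERV := Pool.Agent.Run7.h136.UC.t_ERV full_PTW full_STRA Pool.Agent.Q84.UM.t_MVL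

theorem full_ERT : S_ERT := Run7.h299.UC.t_ERT full_PTW full_STRA b_COF Pool.Agent.Q84.UM.t_DPM Pool.Agent.Q84.UM.t_MVL

theorem full_DIA : S_DIA := Pool.Agent.Run7.h151.UC.t_DIA Run7.h13.UC.t_LIM t_WTM b_TEX b_COF Pool.Agent.Q84.UM.t_DPM b_XM
  Pool.Agent.Q84.UM.t_MVL

theorem full_CHT : S_CHT := Pool.Agent.Run7.h989.UC.t_CHT full_ERT full_ERV full_DIA full_CHV

theorem full_BLM : S_BLM := Pool.Agent.Run7.h215.UC.t_BLM b_PMT Pool.Agent.Q84.UM.t_DPM Pool.Agent.Q84.UM.t_MVL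

theorem full_FEJ1 : S_FEJ1 := Pool.Agent.Run7.h160.UC.fej1

theorem full_FEJ2 : S_FEJ2 := Pool.Agent.Run7.h141.UC.t_FEJ2

end Pool.Agent.Run7.h74.UC
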