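import Pool.Agent.Run7.h74.UC.Iface
import Pool.Agent.Run7.h74.AE.Fin2

set_option autoImplicit false

/-! Project UC (helper74): small balls for the prime sums, tools. -/

namespace Pool.Agent.Run7.h74.UC

open Filter Topology MeasureTheory Complex
open Pool.Agent.Q97.UM
open Pool.Agent.Run7.h74.DW (wt Adm)
open Pool.Agent.Q14.UM (KB' dp_qb sum_zj)

noncomputable section

lemma dpc (N : ℕ) (b : ℕ → ℂ) : Continuous (dp N b) := (Pool.Agent.Q84.UM.t_DPM.2.2 N b 0).2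

lemma shift_g {g : ℝ → ℝ} {T C : ℝ} {N m : ℕ} {f : ℕ → ℂ} (hT : 0 ≤ T)
    (h : ∀ b : ℕ → ℂ,
      IntervalIntegrable (fun t => |g t| ^ m * ‖dp N b t‖ ^ 2) volume (T / 2) (4 * T) ∧
      ∫ t in (T / 2)..(4 * T), |g t| ^ m * ‖dp N b t‖ ^ 2 ≤ C * T * N2 N b)
    {α : ℝ} (hα : |α| ≤ T / 2) :
    IntervalIntegrable (fun t => |g (t + α)| ^ m * ‖dp N f t‖ ^ 2) volume T (2 * T) ∧
      ∫ t in T..(2 * T), |g (t + α)| ^ m * ‖dp N f t‖ ^ 2 ≤ C * T * N2 N f := by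
  have hD := Pool.Agent.Q84.UM.t_DPM
  set b : ℕ → ℂ := fun n => f n * (n : ℂ) ^ (α * I) with hb
  obtain ⟨h1, h2⟩ := h b
  set Ψ : ℝ → ℝ := fun t => |g t| ^ m * ‖dp N b t‖ ^ 2 with hΨ
  have e1 : (fun t => |g (t + α)| ^ m * ‖dp N f t‖ ^ 2) = fun t => Ψ (t + α) := by
    funext t
    have e2 := (hD.2.1 N f (t + α) α).1
    rw [add_sub_cancel_right] at e2
    simp only [hΨ]
    rw [hb, ← e2]
  obtain ⟨a1, a2⟩ := abs_le.mp hα
  have hsub : Set.uIcc (T + α) (2 * T + α) ⊆ Set.uIcc (T / 2) (4 * T) := by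
    rw [Set.uIcc_of_le (by linarith), Set.uIcc_of_le (by linarith)]
    exact Set.Icc_subset_Icc (by linarith) (by linarith)
  have h3 := (h1.mono_set hsub).comp_add_right α
  rw [add_sub_cancel_right, add_sub_cancel_right] at h3
  rw [e1]
  refine ⟨h3, ?_⟩
  rw [intervalIntegral.integral_comp_add_right Ψ α]
  refine (intervalIntegral.integral_mono_interval (by linarith) (by linarith) (by linarith) ?_ h1).trans ?_
  · exact Eventually.of_forall fun t => by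
      simp only [hΨ, Pi.zero_apply]
      positivity
  · refine h2.trans (le_of_eq ?_)
    rw [hb, (hD.2.1 N f 0 α).2]

lemma cheb {F G : ℝ → ℝ} {T lam E : ℝ} {m : ℕ} (hlam : 0 < lam) (hT : 0 ≤ T) (hF0 : ∀ t, 0 ≤ F t)
    (hFI : IntegrableOn F (Set.Ioc T (2 * T))) (hS : MeasurableSet {t : ℝ | lam < |G t|})
    (hGI : IntervalIntegrable (fun t => |G t| ^ m * F t) volume T (2 * T))
    (hE : ∫ t in T..(2 * T), |G t| ^ m * F t ≤ E) :
    ∫ t in Set.Ioc T (2 * T) ∩ {t : ℝ | lam < |G t|}, F t ≤ E / lam ^ m := by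
  have hle : T ≤ 2 * T := by linarith
  have hGI' : IntegrableOn (fun t => |G t| ^ m * F t) (Set.Ioc T (2 * T)) :=
    (intervalIntegrable_iff_integrableOn_Ioc_of_le hle).1 hGI
  have hSm : MeasurableSet (Set.Ioc T (2 * T) ∩ {t : ℝ | lam < |G t|}) := measurableSet_Ioc.inter hS
  rw [le_div_iff₀ (by positivity), mul_comm, ← integral_const_mul]
  calc ∫ t in Set.Ioc T (2 * T) ∩ {t : ℝ | lam < |G t|}, lam ^ m * F t
      ≤ ∫ t in Set.Ioc T (2 * T) ∩ {t : ℝ | lam < |G t|}, |G t| ^ m * F t := by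
        refine setIntegral_mono_on ((hFI.mono_set Set.inter_subset_left).const_mul _) (hGI'.mono_set Set.inter_subset_left) hSm
          fun t ht => ?_
        have h1 : lam < |G t| := ht.2
        exact mul_le_mul_of_nonneg_right (pow_le_pow_left₀ hlam.le h1.le m) (hF0 t)
    _ ≤ ∫ t in Set.Ioc T (2 * T), |G t| ^ m * F t := by
        refine setIntegral_mono_set hGI' (Eventually.of_forall fun t => ?_) (Eventually.of_forall fun t ht => ht.1)
        simp only [Pi.zero_apply]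
        exact mul_nonneg (by positivity) (hF0 t)
    _ ≤ E := by
        rw [intervalIntegral.integral_of_le hle] at hE
        exact hE

lemma union_bd {ι : Type} (s : Finset ι) {F : ℝ → ℝ} {T : ℝ} (hF0 : ∀ t, 0 ≤ F t)
    (hFI : IntegrableOn F (Set.Ioc T (2 * T))) {S : Set ℝ} (hS : MeasurableSet S) {U : ι → Set ℝ} (hU : ∀ i ∈ s, MeasurableSet (U i))
    (h : ∀ t ∈ Set.Ioc T (2 * T), t ∈ S → ∃ i ∈ s, t ∈ U i) :
    ∫ t in Set.Ioc T (2 * T) ∩ S, F t ≤ ∑ i ∈ s, ∫ t in Set.Ioc T (2 * T) ∩ U i, F t := by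
  have i0 : IntegrableOn (S.indicator F) (Set.Ioc T (2 * T)) := Integrable.indicator hFI hS
  have i2 : ∀ i ∈ s, IntegrableOn ((U i).indicator F) (Set.Ioc T (2 * T)) := fun i hi => Integrable.indicator hFI (hU i hi)
  have i3 : IntegrableOn (fun t => ∑ i ∈ s, (U i).indicator F t) (Set.Ioc T (2 * T)) :=
    integrable_finsetSum _ fun i hi => i2 i hi
  calc ∫ t in Set.Ioc T (2 * T) ∩ S, F t = ∫ t in Set.Ioc T (2 * T), S.indicator F t := by
        rw [setIntegral_indicator hS]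
    _ ≤ ∫ t in Set.Ioc T (2 * T), ∑ i ∈ s, (U i).indicator F t := by
        refine setIntegral_mono_on i0 i3 measurableSet_Ioc fun t ht => ?_
        have hnn : ∀ i ∈ s, 0 ≤ (U i).indicator F t := fun i _ => Set.indicator_nonneg (fun t _ => hF0 t) t
        by_cases hs : t ∈ S
        · obtain ⟨i, hi, hi2⟩ := h t ht hs
          rw [Set.indicator_of_mem hs]
          have h2 := Finset.single_le_sum hnn hi
          rwa [Set.indicator_of_mem hi2] at h2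
        · rw [Set.indicator_of_notMem hs]
          exact Finset.sum_nonneg hnn
    _ = ∑ i ∈ s, ∫ t in Set.Ioc T (2 * T), (U i).indicator F t := integral_finsetSum _ fun i hi => i2 i hi
    _ = _ := Finset.sum_congr rfl fun i hi => by rw [setIntegral_indicator (hU i hi)]

/-! ### linearity -/

lemma zf_smul {D : ℝ} (hD : 0 ≤ D) (c : ℂ) (a a2 : ℕ → ℂ) (l : ℕ) (t : ℝ) :
    zf D (fun n => c * a n) (fun n => c * a2 n) l t = c * zf D a a2 l t := by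
  have e0 : ∀ (a a2 : ℕ → ℂ) (s : ℝ), zf D a a2 l s = dp (KB' D l) (qb D a a2 l) s := fun _ _ _ => rfl
  rw [e0, e0, dp_qb D _ _ hD, dp_qb D _ _ hD, Finset.mul_sum]
  refine Finset.sum_congr rfl fun p _ => ?_
  ring

lemma ES_smul {D : ℝ} (hD : 0 ≤ D) (c : ℂ) (a a2 : ℕ → ℂ) (j₀ : ℕ) (t : ℝ) :
    ES D (fun n => c * a n) (fun n => c * a2 n) j₀ t = c * ES D a a2 j₀ t := by
  unfold ES
  rw [Finset.mul_sum]
  exact Finset.sum_congr rfl fun l _ => zf_smul hD c a a2 l t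

lemma ES_cont (D : ℝ) (a a2 : ℕ → ℂ) (j₀ : ℕ) : Continuous (ES D a a2 j₀) := by
  unfold ES
  exact continuous_finsetSum _ fun l _ => Pool.Agent.Q176.UM.zf_cont _ _ _ _

lemma wt_cont (a b : ℝ) : Continuous (wt a b) := by
  unfold wt
  fun_prop

lemma wt_nn {a b t : ℝ} (h : t ∈ Set.Icc a b) : 0 ≤ wt a b t := by
  unfold wt
  have h1 : 0 ≤ t - a := by linarith [h.1]
  have h2 : 0 ≤ b - t := by linarith [h.2]
  positivity

lemma wt_half {T t : ℝ} (hT : 0 < T) (h1 : T ≤ t) (h2 : t ≤ 2 * T) : 1 / 2 ≤ wt (T / 2) (3 * T) t := by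
  unfold wt
  rw [le_div_iff₀ (by nlinarith)]
  nlinarith [mul_nonneg (sub_nonneg.2 h1) (sub_nonneg.2 h2)]

/-- from the weight to the interval -/
lemma unweight {T : ℝ} (hT : 0 < T) {F : ℝ → ℝ} (hFc : Continuous F) (hF0 : ∀ t, 0 ≤ F t) {S : Set ℝ} (hS : MeasurableSet S) :
    ∫ t in Set.Ioc T (2 * T) ∩ S, F t ≤ 2 * ∫ t in {t : ℝ | t ∈ Set.Icc (T / 2) (3 * T) ∧ t ∈ S}, wt (T / 2) (3 * T) t * F t := by
  have hwc : Continuous fun t => wt (T / 2) (3 * T) t * F t := (wt_cont _ _).mul hFc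
  have e : {t : ℝ | t ∈ Set.Icc (T / 2) (3 * T) ∧ t ∈ S} = Set.Icc (T / 2) (3 * T) ∩ S := rfl
  rw [e, ← integral_const_mul]
  have hsub : Set.Ioc T (2 * T) ∩ S ⊆ Set.Icc (T / 2) (3 * T) ∩ S := by
    rintro t ⟨⟨h1, h2⟩, h3⟩
    exact ⟨⟨by linarith, by linarith⟩, h3⟩
  have hI1 : IntegrableOn (fun t => 2 * (wt (T / 2) (3 * T) t * F t)) (Set.Icc (T / 2) (3 * T)) :=
    (continuous_const.mul hwc).integrableOn_Icc
  have hI0 : IntegrableOn F (Set.Icc (T / 2) (3 * T)) := hFc.integrableOn_Icc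
  calc ∫ t in Set.Ioc T (2 * T) ∩ S, F t ≤ ∫ t in Set.Ioc T (2 * T) ∩ S, 2 * (wt (T / 2) (3 * T) t * F t) := by
        refine setIntegral_mono_on (hI0.mono_set (hsub.trans Set.inter_subset_left))
          (hI1.mono_set (hsub.trans Set.inter_subset_left)) (measurableSet_Ioc.inter hS) fun t ht => ?_
        have h1 := wt_half hT ht.1.1.le ht.1.2
        have h2 := mul_le_mul_of_nonneg_right h1 (hF0 t)
        linarith
    _ ≤ _ := by
        refine setIntegral_mono_set (hI1.mono_set Set.inter_subset_left) ?_ (Eventually.of_forall hsub)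
        refine (ae_restrict_iff' (measurableSet_Icc.inter hS)).2 (Eventually.of_forall fun t ht => ?_)
        simp only [Pi.zero_apply]
        have := wt_nn ht.1
        have := hF0 t
        positivity

/-- **strips for the prime sums** -/
theorem strip (hCHT : S_CHT) (hF1 : S_FEJ1) : ∀ A : ℝ, 1 ≤ A → ∃ C δ₀ : ℝ, 1 ≤ C ∧ 0 < δ₀ ∧ ∀ δ : ℝ, 0 < δ → δ ≤ δ₀ → ∀ᶠ T : ℝ in atTop,
    ∀ a a2 : ℕ → ℂ, (∀ n, ‖a n‖ ≤ 1) → (∀ n, ‖a2 n‖ ≤ 1) → ∀ (N : ℕ) (b : ℕ → ℂ), 1 ≤ N → (N : ℝ) ≤ T ^ δ →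
      (∀ n, b n ≠ 0 → 1 ≤ n ∧ n ≤ N) → ∀ (j₀ : ℕ) (K V : ℝ), 1 ≤ K → 0 < ∑ p ∈ UP (δ * Real.log T) j₀, ‖a p‖ ^ 2 / p →
      ∫ t in Set.Ioc T (2 * T) ∩ {t : ℝ | |(ES (δ * Real.log T) a a2 j₀ t).re - V| ≤ K}, ‖dp N b t‖ ^ 2 ≤
        C * (Real.exp (-(A * j₀)) + 1 / (δ * Real.log T) + K / Real.sqrt (∑ p ∈ UP (δ * Real.log T) j₀, ‖a p‖ ^ 2 / p)) * (T * N2 N b) := by
  intro A hA
  obtain ⟨C, δ₀, hC, hδ₀, h⟩ := hCHT A hA
  refine ⟨64 * C, δ₀, by linarith, hδ₀, fun δ hδ hδ1 => ?_⟩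
  filter_upwards [h δ hδ hδ1, eventually_gt_atTop (1 : ℝ)] with T h hT a a2 ha ha2 N b hN1 hN hb j₀ K V hK hS
  have hT0 : 0 < T := by linarith
  have hL : 0 < Real.log T := Real.log_pos hT
  set D := δ * Real.log T with hD
  have hD0 : 0 < D := by positivity
  set S := ∑ p ∈ UP D j₀, ‖a p‖ ^ 2 / p with hSd
  have hN2 : 0 ≤ N2 N b := Pool.Agent.Q84.UM.N2_nonneg _ _
  have hC0 : 0 < C := by linarith
  have hc : 0 < S / (8 * K ^ 2) := by positivity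
  have key := hF1 (T / 2) (3 * T) K (C * (Real.exp (-(A * j₀)) + 1 / D) * (T * N2 N b)) (C * (T * N2 N b)) (S / (8 * K ^ 2)) V
    (fun t => wt (T / 2) (3 * T) t * ‖dp N b t‖ ^ 2) (fun t => (ES D a a2 j₀ t).re) (by linarith) (by linarith) (by positivity)
    (by positivity) hc ((wt_cont _ _).mul ((dpc N b).norm.pow 2)) (Complex.continuous_re.comp (ES_cont D a a2 j₀))
    (fun t ht => mul_nonneg (wt_nn ht) (by positivity)) (fun ξ hξ => ?_)
  · have hSm : MeasurableSet {t : ℝ | |(ES D a a2 j₀ t).re - V| ≤ K} := by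
      refine measurableSet_le ?_ measurable_const
      exact (((Complex.continuous_re.comp (ES_cont D a a2 j₀)).sub continuous_const).abs).measurable
    have h1 := unweight hT0 (F := fun t => ‖dp N b t‖ ^ 2) ((dpc N b).norm.pow 2) (fun t => by positivity) hSm
    refine h1.trans ?_
    have h2 : {t : ℝ | t ∈ Set.Icc (T / 2) (3 * T) ∧ t ∈ {t : ℝ | |(ES D a a2 j₀ t).re - V| ≤ K}} =
        {t : ℝ | t ∈ Set.Icc (T / 2) (3 * T) ∧ |(ES D a a2 j₀ t).re - V| ≤ K} := rfl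
    rw [h2]
    refine (mul_le_mul_of_nonneg_left key (by norm_num)).trans ?_
    have h3 : Real.sqrt (S / (8 * K ^ 2)) = Real.sqrt S / (Real.sqrt 8 * K) := by
      rw [Real.sqrt_div' _ (by positivity), Real.sqrt_mul (by norm_num), Real.sqrt_sq (by linarith)]
    have h8 : Real.sqrt 8 ≤ 4 := by
      rw [Real.sqrt_le_left (by norm_num)]
      norm_num
    have hsS : 0 < Real.sqrt S := Real.sqrt_pos.2 hS
    rw [h3]
    have h4 : C * (T * N2 N b) / (Real.sqrt S / (Real.sqrt 8 * K)) = C * (T * N2 N b) * (Real.sqrt 8 * (K / Real.sqrt S)) := by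
      field_simp
    rw [h4]
    have h5 : C * (T * N2 N b) * (Real.sqrt 8 * (K / Real.sqrt S)) ≤ C * (T * N2 N b) * (4 * (K / Real.sqrt S)) := by
      gcongr
    have h6 : 0 ≤ C * (T * N2 N b) := by positivity
    have h7 : 0 ≤ K / Real.sqrt S := by positivity
    have h9 : 0 ≤ Real.exp (-(A * (j₀ : ℝ))) + 1 / D := by positivity
    calc 2 * (8 * (C * (Real.exp (-(A * ↑j₀)) + 1 / D) * (T * N2 N b) + C * (T * N2 N b) * (Real.sqrt 8 * (K / Real.sqrt S)))) ≤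
        2 * (8 * (C * (Real.exp (-(A * ↑j₀)) + 1 / D) * (T * N2 N b) + C * (T * N2 N b) * (4 * (K / Real.sqrt S)))) := by gcongr
      _ = 16 * (C * (T * N2 N b) * (Real.exp (-(A * ↑j₀)) + 1 / D)) + 64 * (C * (T * N2 N b) * (K / Real.sqrt S)) := by ring
      _ ≤ 64 * (C * (T * N2 N b) * (Real.exp (-(A * ↑j₀)) + 1 / D)) + 64 * (C * (T * N2 N b) * (K / Real.sqrt S)) := by
          have : 0 ≤ C * (T * N2 N b) * (Real.exp (-(A * ↑j₀)) + 1 / D) := by positivity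
          linarith
      _ = _ := by ring
  · have h1 := h (fun n => ((ξ / K : ℝ) : ℂ) * a n) (fun n => ((ξ / K : ℝ) : ℂ) * a2 n) (fun n => ?_) (fun n => ?_) N b hN1 hN hb j₀
    · have e1 : ∀ t, ((wt (T / 2) (3 * T) t * ‖dp N b t‖ ^ 2 : ℝ) : ℂ) * cexp (I * ((ξ * (ES D a a2 j₀ t).re / K : ℝ) : ℂ)) =
          (wt (T / 2) (3 * T) t : ℂ) * (Oe D (fun n => ((ξ / K : ℝ) : ℂ) * a n) (fun n => ((ξ / K : ℝ) : ℂ) * a2 n) j₀ t *
            ((‖dp N b t‖ ^ 2 : ℝ) : ℂ)) := by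
        intro t
        unfold Oe
        rw [ES_smul hD0.le, Complex.re_ofReal_mul]
        have e2 : ξ * (ES D a a2 j₀ t).re / K = ξ / K * (ES D a a2 j₀ t).re := by ring
        rw [e2]
        push_cast
        ring
      simp only [e1]
      refine h1.trans (le_of_eq ?_)
      have e3 : ∑ p ∈ UP D j₀, ‖((ξ / K : ℝ) : ℂ) * a p‖ ^ 2 / (p : ℝ) = ξ ^ 2 / K ^ 2 * S := by
        rw [hSd, Finset.mul_sum]
        refine Finset.sum_congr rfl fun p _ => ?_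
        rw [norm_mul, Complex.norm_real, mul_pow, Real.norm_eq_abs, sq_abs]
        ring
      rw [e3]
      have e4 : -(1 / 8 : ℝ) * (ξ ^ 2 / K ^ 2 * S) = -(S / (8 * K ^ 2) * ξ ^ 2) := by
        field_simp
      rw [e4]
      ring
    · rw [norm_mul, Complex.norm_real, Real.norm_eq_abs, abs_div, abs_of_pos (show 0 < K by linarith)]
      have h2 : |ξ| / K ≤ 1 := by
        rw [div_le_one (by linarith)]
        linarith
      exact mul_le_one₀ h2 (norm_nonneg _) (ha n)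
    · rw [norm_mul, Complex.norm_real, Real.norm_eq_abs, abs_div, abs_of_pos (show 0 < K by linarith)]
      have h2 : |ξ| / K ≤ 1 := by
        rw [div_le_one (by linarith)]
        linarith
      exact mul_le_one₀ h2 (norm_nonneg _) (ha2 n)

/-- **discs for the prime sums** -/
theorem disc (hCHT : S_CHT) (hF2 : S_FEJ2) : ∀ A : ℝ, 1 ≤ A → ∃ C δ₀ : ℝ, 1 ≤ C ∧ 0 < δ₀ ∧ ∀ δ : ℝ, 0 < δ → δ ≤ δ₀ → ∀ᶠ T : ℝ in atTop,
    ∀ a a2 : ℕ → ℂ, (∀ n, ‖a n‖ ≤ 1) → (∀ n, ‖a2 n‖ ≤ 1) → ∀ (N : ℕ) (b : ℕ → ℂ), 1 ≤ N → (N : ℝ) ≤ T ^ δ →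
      (∀ n, b n ≠ 0 → 1 ≤ n ∧ n ≤ N) → ∀ (j₀ : ℕ) (K : ℝ) (V : ℂ), 2 ≤ K → 0 < ∑ p ∈ UP (δ * Real.log T) j₀, ‖a p‖ ^ 2 / p →
      ∫ t in Set.Ioc T (2 * T) ∩ {t : ℝ | ‖ES (δ * Real.log T) a a2 j₀ t - V‖ ≤ K}, ‖dp N b t‖ ^ 2 ≤
        C * (Real.exp (-(A * j₀)) + 1 / (δ * Real.log T) + K ^ 2 / (∑ p ∈ UP (δ * Real.log T) j₀, ‖a p‖ ^ 2 / p)) * (T * N2 N b) := by
  intro A hA
  obtain ⟨C, δ₀, hC, hδ₀, h⟩ := hCHT A hA
  refine ⟨256 * C, δ₀, by linarith, hδ₀, fun δ hδ hδ1 => ?_⟩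
  filter_upwards [h δ hδ hδ1, eventually_gt_atTop (1 : ℝ)] with T h hT a a2 ha ha2 N b hN1 hN hb j₀ K V hK hS
  have hT0 : 0 < T := by linarith
  have hL : 0 < Real.log T := Real.log_pos hT
  set D := δ * Real.log T with hD
  have hD0 : 0 < D := by positivity
  set S := ∑ p ∈ UP D j₀, ‖a p‖ ^ 2 / p with hSd
  have hN2 : 0 ≤ N2 N b := Pool.Agent.Q84.UM.N2_nonneg _ _
  have hC0 : 0 < C := by linarith
  have hK0 : 0 < K := by linarith
  have hc : 0 < S / (8 * K ^ 2) := by positivity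
  have hxn : ∀ ξ : ℂ, |ξ.re| ≤ 1 → |ξ.im| ≤ 1 → ‖(starRingEnd ℂ) ξ / (K : ℂ)‖ ≤ 1 := by
    intro ξ h1 h2
    rw [norm_div, Complex.norm_real, Real.norm_of_nonneg hK0.le, RCLike.norm_conj, div_le_one hK0]
    refine (Complex.norm_le_abs_re_add_abs_im ξ).trans ?_
    linarith
  have key := hF2 (T / 2) (3 * T) K (C * (Real.exp (-(A * j₀)) + 1 / D) * (T * N2 N b)) (C * (T * N2 N b)) (S / (8 * K ^ 2)) V
    (fun t => wt (T / 2) (3 * T) t * ‖dp N b t‖ ^ 2) (fun t => ES D a a2 j₀ t) (by linarith) hK0 (by positivity)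
    (by positivity) hc ((wt_cont _ _).mul ((dpc N b).norm.pow 2)) (ES_cont D a a2 j₀)
    (fun t ht => mul_nonneg (wt_nn ht) (by positivity)) (fun ξ hξ1 hξ2 => ?_)
  · have hSm : MeasurableSet {t : ℝ | ‖ES D a a2 j₀ t - V‖ ≤ K} := by
      refine measurableSet_le ?_ measurable_const
      exact (((ES_cont D a a2 j₀).sub continuous_const).norm).measurable
    have h1 := unweight hT0 (F := fun t => ‖dp N b t‖ ^ 2) ((dpc N b).norm.pow 2) (fun t => by positivity) hSm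
    refine h1.trans ?_
    have h2 : {t : ℝ | t ∈ Set.Icc (T / 2) (3 * T) ∧ t ∈ {t : ℝ | ‖ES D a a2 j₀ t - V‖ ≤ K}} =
        {t : ℝ | t ∈ Set.Icc (T / 2) (3 * T) ∧ ‖ES D a a2 j₀ t - V‖ ≤ K} := rfl
    rw [h2]
    refine (mul_le_mul_of_nonneg_left key (by norm_num)).trans ?_
    have h4 : C * (T * N2 N b) / (S / (8 * K ^ 2)) = C * (T * N2 N b) * (8 * (K ^ 2 / S)) := by
      field_simp
    rw [h4]
    have h6 : 0 ≤ C * (T * N2 N b) * (Real.exp (-(A * ↑j₀)) + 1 / D) := by positivity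
    have h7 : 0 ≤ C * (T * N2 N b) * (K ^ 2 / S) := by positivity
    calc 2 * (16 * (C * (Real.exp (-(A * ↑j₀)) + 1 / D) * (T * N2 N b) + C * (T * N2 N b) * (8 * (K ^ 2 / S)))) =
        32 * (C * (T * N2 N b) * (Real.exp (-(A * ↑j₀)) + 1 / D)) + 256 * (C * (T * N2 N b) * (K ^ 2 / S)) := by ring
      _ ≤ 256 * (C * (T * N2 N b) * (Real.exp (-(A * ↑j₀)) + 1 / D)) + 256 * (C * (T * N2 N b) * (K ^ 2 / S)) := by linarith
      _ = _ := by ring
  · have h1 := h (fun n => ((starRingEnd ℂ) ξ / (K : ℂ)) * a n) (fun n => ((starRingEnd ℂ) ξ / (K : ℂ)) * a2 n) (fun n => ?_)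
      (fun n => ?_) N b hN1 hN hb j₀
    · have e1 : ∀ t, ((wt (T / 2) (3 * T) t * ‖dp N b t‖ ^ 2 : ℝ) : ℂ) *
            cexp (I * ((((starRingEnd ℂ) ξ * ES D a a2 j₀ t).re / K : ℝ) : ℂ)) =
          (wt (T / 2) (3 * T) t : ℂ) * (Oe D (fun n => ((starRingEnd ℂ) ξ / (K : ℂ)) * a n)
            (fun n => ((starRingEnd ℂ) ξ / (K : ℂ)) * a2 n) j₀ t * ((‖dp N b t‖ ^ 2 : ℝ) : ℂ)) := by
        intro t
        unfold Oe
        rw [ES_smul hD0.le]
        have e2 : (((starRingEnd ℂ) ξ / (K : ℂ)) * ES D a a2 j₀ t).re = ((starRingEnd ℂ) ξ * ES D a a2 j₀ t).re / K := by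
          rw [div_mul_eq_mul_div, Complex.div_ofReal_re]
        rw [e2]
        push_cast
        ring
      simp only [e1]
      refine h1.trans (le_of_eq ?_)
      have e3 : ∑ p ∈ UP D j₀, ‖((starRingEnd ℂ) ξ / (K : ℂ)) * a p‖ ^ 2 / (p : ℝ) = ‖ξ‖ ^ 2 / K ^ 2 * S := by
        rw [hSd, Finset.mul_sum]
        refine Finset.sum_congr rfl fun p _ => ?_
        rw [norm_mul, norm_div, Complex.norm_real, Real.norm_of_nonneg hK0.le, RCLike.norm_conj]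
        ring
      rw [e3]
      have e4 : -(1 / 8 : ℝ) * (‖ξ‖ ^ 2 / K ^ 2 * S) = -(S / (8 * K ^ 2) * ‖ξ‖ ^ 2) := by
        field_simp
      rw [e4]
      ring
    · rw [norm_mul]
      exact mul_le_one₀ (hxn ξ hξ1 hξ2) (norm_nonneg _) (ha n)
    · rw [norm_mul]
      exact mul_le_one₀ (hxn ξ hξ1 hξ2) (norm_nonneg _) (ha2 n)

end

end Pool.Agent.Run7.h74.UC
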