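import Pool.Agent.Run7.h74.UC.F1

set_option autoImplicit false

/-! Project UC (helper74): sums over the primes, errors. -/

namespace Pool.Agent.Run7.h74.UC

open Filter Topology MeasureTheory Complex
open Pool.Agent.Q97.UM
open Pool.Agent.Run7.h74.DW (wt Adm)
open Pool.Agent.Q14.UM (KB' dp_qb sum_zj)
open Pool.Agent.Run7.h74.AE (mert apc norm_apc_le PS az EA LE)

noncomputable section

/-- primes up to `x` -/
def PR (x : ℝ) : Finset ℕ := (Finset.Icc 1 ⌊x⌋₊).filter Nat.Prime

lemma PR_mono {x y : ℝ} (h : x ≤ y) : PR x ⊆ PR y :=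
  Finset.filter_subset_filter _ (Finset.Icc_subset_Icc_right (Nat.floor_mono h))

/-- the primes outside `UP` carry little -/
lemma UP_compl : ∃ C : ℝ, 1 ≤ C ∧ ∀ δ : ℝ, 0 < δ → δ ≤ 1 → ∀ᶠ T : ℝ in atTop, ∀ j₀ : ℕ, (j₀ : ℝ) ≤ Real.log (Real.log T) / 2 →
    ∑ p ∈ PR T \ UP (δ * Real.log T) j₀, (1 : ℝ) / p ≤ C + (j₀ : ℝ) + Real.log (Real.log (Real.log T)) - Real.log δ ∧
    UP (δ * Real.log T) j₀ ⊆ PR T := by
  obtain ⟨C₁, hC₁, hm⟩ := mert
  obtain ⟨T₁, hT₁⟩ := eventually_atTop.1 hm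
  refine ⟨3 * C₁ + 1, by linarith, fun δ hδ hδ1 => ?_⟩
  have hL := Real.tendsto_log_atTop
  have hLL : Tendsto (fun T : ℝ => Real.log (Real.log T)) atTop atTop := hL.comp hL
  have c1 : ∀ᶠ T : ℝ in atTop, T₁ ≤ (δ * Real.log T) ^ 2 := by
    have h1 : Tendsto (fun T : ℝ => (δ * Real.log T) ^ 2) atTop atTop :=
      (tendsto_pow_atTop (by norm_num)).comp (hL.const_mul_atTop hδ)
    exact h1.eventually_ge_atTop T₁
  have c2 : ∀ᶠ T : ℝ in atTop, T₁ ≤ δ * Real.sqrt (Real.log T) := by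
    have h1 : Tendsto (fun T : ℝ => δ * Real.sqrt (Real.log T)) atTop atTop :=
      (Real.tendsto_sqrt_atTop.comp hL).const_mul_atTop hδ
    exact h1.eventually_ge_atTop _
  filter_upwards [c1, c2, eventually_ge_atTop T₁, eventually_gt_atTop (1 : ℝ), hL.eventually_ge_atTop 3, hL.eventually_ge_atTop (3 / δ)]
    with T c1 c2 c3 c3' c4 c5 j₀ hj
  set L := Real.log T with hLd
  have hL0 : 0 < L := by linarith
  have hT0 : 0 < T := by linarith
  set D := δ * L with hD
  have hD3 : 3 ≤ D := by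
    rw [div_le_iff₀ hδ] at c5
    rw [hD, mul_comm]
    exact c5
  have hD0 : 0 < D := by linarith
  have hDL : D ≤ L := by
    rw [hD]
    nlinarith
  have hXe : XB D j₀ = Real.exp (D * Real.exp (-(j₀ : ℝ))) := rfl
  have hy : δ * Real.sqrt L ≤ D * Real.exp (-(j₀ : ℝ)) := by
    have h1 : Real.exp (-(Real.log L / 2)) ≤ Real.exp (-(j₀ : ℝ)) := Real.exp_le_exp.2 (by linarith)
    have h2 : Real.sqrt L = L * Real.exp (-(Real.log L / 2)) := by
      have h3 : Real.sqrt L = Real.exp (Real.log L / 2) := by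
        rw [Real.exp_half, Real.exp_log hL0]
      rw [h3]
      have h4 : L * Real.exp (-(Real.log L / 2)) = Real.exp (Real.log L) * Real.exp (-(Real.log L / 2)) := by
        rw [Real.exp_log hL0]
      rw [h4, ← Real.exp_add]
      congr 1
      ring
    rw [h2, hD, mul_assoc]
    gcongr
  have hy0 : 0 < D * Real.exp (-(j₀ : ℝ)) := by positivity
  have hXT : XB D j₀ ≤ T := by
    rw [hXe]
    calc Real.exp (D * Real.exp (-(j₀ : ℝ))) ≤ Real.exp L := by
          apply Real.exp_le_exp.2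
          have : Real.exp (-(j₀ : ℝ)) ≤ 1 := by
            rw [Real.exp_le_one_iff]
            have : (0 : ℝ) ≤ j₀ := Nat.cast_nonneg _
            linarith
          nlinarith
      _ = T := Real.exp_log hT0
  have hX1 : T₁ ≤ XB D j₀ := by
    rw [hXe]
    have := Real.add_one_le_exp (D * Real.exp (-(j₀ : ℝ)))
    linarith
  have m1 := abs_le.1 (hT₁ T c3)
  have m2 := abs_le.1 (hT₁ (D ^ 2) c1)
  have m3 := abs_le.1 (hT₁ (XB D j₀) hX1)
  have e3 : Real.log (Real.log (XB D j₀)) = Real.log δ + Real.log L - j₀ := by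
    rw [hXe, Real.log_exp, Real.log_mul (by linarith) (by positivity), Real.log_exp, hD, Real.log_mul (by linarith) (by linarith)]
    ring
  have e2 : Real.log (Real.log (D ^ 2)) ≤ 1 + Real.log (Real.log L) := by
    have h1 : 1 ≤ Real.log D := by
      rw [Real.le_log_iff_exp_le hD0]
      have := Real.exp_one_lt_d9
      linarith
    have h2 : Real.log D ≤ Real.log L := Real.log_le_log hD0 hDL
    rw [Real.log_pow]
    push_cast
    rw [Real.log_mul (by norm_num) (by linarith)]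
    have h3 : Real.log 2 ≤ 1 := by
      have := Real.log_two_lt_d9
      linarith
    have h4 : Real.log (Real.log D) ≤ Real.log (Real.log L) := Real.log_le_log (by linarith) h2
    linarith
  have hUsub : UP D j₀ ⊆ PR (XB D j₀) := by
    intro p hp
    unfold UP at hp
    rw [Finset.mem_filter] at hp
    unfold PR
    rw [Finset.mem_filter]
    exact ⟨hp.1, hp.2.1⟩
  constructor
  · have hsub : PR T \ UP D j₀ ⊆ PR (D ^ 2) ∪ (PR T \ PR (XB D j₀)) := by
      intro p hp
      rw [Finset.mem_sdiff] at hp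
      rw [Finset.mem_union]
      by_cases h : p ∈ PR (XB D j₀)
      · left
        unfold PR at h ⊢
        rw [Finset.mem_filter] at h ⊢
        refine ⟨?_, h.2⟩
        rw [Finset.mem_Icc]
        refine ⟨(Finset.mem_Icc.1 h.1).1, ?_⟩
        refine (Nat.le_floor_iff (by positivity)).2 ?_
        by_contra hcon
        push Not at hcon
        refine hp.2 ?_
        unfold UP
        rw [Finset.mem_filter]
        exact ⟨h.1, h.2, hcon⟩
      · exact Or.inr (Finset.mem_sdiff.2 ⟨hp.1, h⟩)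
    have h1 : ∑ p ∈ PR T \ UP D j₀, (1 : ℝ) / p ≤ ∑ p ∈ PR (D ^ 2), (1 : ℝ) / p + ∑ p ∈ PR T \ PR (XB D j₀), (1 : ℝ) / p := by
      refine (Finset.sum_le_sum_of_subset_of_nonneg hsub fun p _ _ => by positivity).trans ?_
      have h2 := Finset.sum_union_inter (s₁ := PR (D ^ 2)) (s₂ := PR T \ PR (XB D j₀)) (f := fun p : ℕ => (1 : ℝ) / p)
      have h3 : 0 ≤ ∑ p ∈ PR (D ^ 2) ∩ (PR T \ PR (XB D j₀)), (1 : ℝ) / p := Finset.sum_nonneg fun p _ => by positivity
      linarith
    have h2 := Finset.sum_sdiff (f := fun p : ℕ => (1 : ℝ) / p) (PR_mono hXT)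
    have n1 : ∑ p ∈ PR T, (1 : ℝ) / p ≤ Real.log (Real.log T) + C₁ := by
      have := m1.2
      unfold PR
      linarith
    have n2 : ∑ p ∈ PR (D ^ 2), (1 : ℝ) / p ≤ Real.log (Real.log (D ^ 2)) + C₁ := by
      have := m2.2
      unfold PR
      linarith
    have n3 : Real.log (Real.log (XB D j₀)) - C₁ ≤ ∑ p ∈ PR (XB D j₀), (1 : ℝ) / p := by
      have := m3.1
      unfold PR
      linarith
    rw [e3] at n3
    linarith
  · exact hUsub.trans (PR_mono hXT)

end

end Pool.Agent.Run7.h74.UC
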