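import Pool.Agent.Run7.h74.UC.F2

set_option autoImplicit false

/-! Project UC (helper74): from the prime sums to the logarithm of zeta. -/

namespace Pool.Agent.Run7.h74.UC

open Filter Topology MeasureTheory Complex
open Pool.Agent.Q97.UM
open Pool.Agent.Run7.h74.DW (wt Adm)
open Pool.Agent.Q14.UM (KB' dp_qb sum_zj)
open Pool.Agent.Run7.h74.AE (mert apc norm_apc_le PS az EA LE LE_re LE_im LE_PA S_THA S_AZM EA_cont)
open Pool.Agent.Q98.UM (S3 S3_nonneg)
open Run7.h311.CM (zt_meas)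

noncomputable section

/-- the logarithm of zeta at `1/2 + it` -/
def LZ (t : ℝ) : ℂ := (Real.log ‖zt t‖ : ℂ) + (az t : ℂ) * I

/-- linear combination of shifted values -/
def SK {n : ℕ} (k : Fin n → ℂ) (α : Fin n → ℝ) (t : ℝ) : ℂ := ∑ j, k j * LZ (t + α j)

lemma LZ_meas (hz : S_AZM) : Measurable LZ := by
  unfold LZ
  have h1 : Measurable az := hz
  have h2 : Measurable fun t : ℝ => Real.log ‖zt t‖ := Real.measurable_log.comp zt_meas.norm
  exact (Complex.measurable_ofReal.comp h2).add ((Complex.measurable_ofReal.comp h1).mul measurable_const)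

lemma SK_meas (hz : S_AZM) {n : ℕ} (k : Fin n → ℂ) (α : Fin n → ℝ) : Measurable (SK k α) := by
  unfold SK
  refine Finset.measurable_fun_sum _ fun j _ => ?_
  exact measurable_const.mul ((LZ_meas hz).comp (measurable_add_const (α j)))

/-- the normalised family -/
def nf {n : ℕ} (A : ℝ) (k : Fin n → ℂ) (α : Fin n → ℝ) (p : ℕ) : ℂ := ((1 / A : ℝ) : ℂ) * apc k α p

lemma nf_le {n : ℕ} {A : ℝ} (hA : 1 ≤ A) {k : Fin n → ℂ} {α : Fin n → ℝ} (hk : ∑ j, ‖k j‖ ≤ A) (p : ℕ) : ‖nf A k α p‖ ≤ 1 := by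
  unfold nf
  have hA0 : 0 < A := by linarith
  rw [norm_mul, Complex.norm_real, Real.norm_of_nonneg (by positivity), one_div, inv_mul_le_one₀ hA0]
  exact norm_apc_le k α hk p

lemma lg {ρ : ℝ} (hρ : 0 < ρ) (c : ℝ) : ∀ᶠ x : ℝ in atTop, ρ * Real.log x + c ≤ x / 2 := by
  have h5 := (Real.isLittleO_log_id_atTop).bound (show (0 : ℝ) < 1 / (4 * (ρ + 1)) by positivity)
  filter_upwards [h5, eventually_ge_atTop (1 : ℝ), eventually_ge_atTop (4 * c)] with x h5 h7 h8
  simp only [id] at h5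
  rw [Real.norm_of_nonneg (Real.log_nonneg h7), Real.norm_of_nonneg (by linarith)] at h5
  have h8' : ρ * Real.log x ≤ 1 / 4 * x := by
    calc ρ * Real.log x ≤ ρ * (1 / (4 * (ρ + 1)) * x) := mul_le_mul_of_nonneg_left h5 hρ.le
      _ = (ρ / (ρ + 1)) * (1 / 4 * x) := by
          field_simp
      _ ≤ 1 * (1 / 4 * x) := by
          refine mul_le_mul_of_nonneg_right ?_ (by positivity)
          rw [div_le_one (by linarith)]
          linarith
      _ = _ := one_mul _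
  linarith

lemma lg2 {ρ : ℝ} (hρ : 0 < ρ) (c : ℝ) : ∀ᶠ x : ℝ in atTop, ρ * Real.log x + c ≤ x ^ ρ := by
  have h5 := (isLittleO_log_rpow_atTop hρ).bound (show (0 : ℝ) < 1 / (2 * (ρ + 1)) by positivity)
  have h6 := (tendsto_rpow_atTop hρ).eventually_ge_atTop (2 * c)
  filter_upwards [h5, h6, eventually_ge_atTop (1 : ℝ)] with x h5 h6 h7
  rw [Real.norm_of_nonneg (Real.log_nonneg h7), Real.norm_of_nonneg (by positivity)] at h5
  have h8 : ρ * Real.log x ≤ 1 / 2 * x ^ ρ := by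
    calc ρ * Real.log x ≤ ρ * (1 / (2 * (ρ + 1)) * x ^ ρ) := mul_le_mul_of_nonneg_left h5 hρ.le
      _ = (ρ / (ρ + 1)) * (1 / 2 * x ^ ρ) := by
          field_simp
      _ ≤ 1 * (1 / 2 * x ^ ρ) := by
          refine mul_le_mul_of_nonneg_right ?_ (by positivity)
          rw [div_le_one (by linarith)]
          linarith
      _ = _ := one_mul _
  linarith

theorem dev_main (hBLM : S_BLM) (hTHA : S_THA) (hz : S_AZM) (A ρ : ℝ) (hA : 1 ≤ A) (hρ : 0 < ρ) : ∃ δ₀ : ℝ, 0 < δ₀ ∧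
    ∀ δ : ℝ, 0 < δ → δ ≤ δ₀ → ∃ C : ℝ, 1 ≤ C ∧ ∀ᶠ T : ℝ in atTop, ∀ j₀ : ℕ, (j₀ : ℝ) ≤ ρ * Real.log (Real.log (Real.log T)) + 1 →
      ∀ (n : ℕ) (k : Fin n → ℂ) (α : Fin n → ℝ), (n : ℝ) ≤ A → ∑ j, ‖k j‖ ≤ A → (∀ j, |α j| ≤ T / 2) →
      ∀ (N : ℕ) (b : ℕ → ℂ), 1 ≤ N → (N : ℝ) ≤ T ^ δ → (∀ n, b n ≠ 0 → 1 ≤ n ∧ n ≤ N) → ∀ S U : Set ℝ, MeasurableSet S → MeasurableSet U →
      (∀ t ∈ Set.Ioc T (2 * T), t ∈ S → ‖SK k α t - (A : ℂ) * ES (δ * Real.log T) (nf A k α) (nf A k fun j => 2 * α j) j₀ t‖ ≤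
        A * Real.log (Real.log T) ^ (2 * ρ) → t ∈ U) →
      ∫ t in Set.Ioc T (2 * T) ∩ S, ‖dp N b t‖ ^ 2 ≤ (∫ t in Set.Ioc T (2 * T) ∩ U, ‖dp N b t‖ ^ 2) +
        C / Real.log (Real.log T) * (T * N2 N b) := by
  classical
  obtain ⟨m, hm⟩ : ∃ m : ℕ, 1 / ρ ≤ m := exists_nat_ge _
  obtain ⟨r, hr⟩ : ∃ r : ℕ, 2 / ρ ≤ r := exists_nat_ge _
  obtain ⟨θ₁, δ₁, hθ₁, hδ₁, h1⟩ := b_THP m
  obtain ⟨θ₂, δ₂, hθ₂, hδ₂, h2⟩ := hTHA m
  obtain ⟨C₃, δ₃, hC₃, hδ₃, h3⟩ := hBLM r
  refine ⟨min (min (min δ₁ δ₂) (min θ₁ θ₂)) δ₃, by positivity, fun δ hδ hδ0 => ?_⟩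
  have d1 : δ ≤ δ₁ := hδ0.trans ((min_le_left _ _).trans ((min_le_left _ _).trans (min_le_left _ _)))
  have d2 : δ ≤ δ₂ := hδ0.trans ((min_le_left _ _).trans ((min_le_left _ _).trans (min_le_right _ _)))
  have d3 : δ ≤ θ₁ := hδ0.trans ((min_le_left _ _).trans ((min_le_right _ _).trans (min_le_left _ _)))
  have d4 : δ ≤ θ₂ := hδ0.trans ((min_le_left _ _).trans ((min_le_right _ _).trans (min_le_right _ _)))
  have d5 : δ ≤ δ₃ := hδ0.trans (min_le_right _ _)
  obtain ⟨C₁, hC₁, h1⟩ := h1 δ hδ d1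
  obtain ⟨C₂, hC₂, h2⟩ := h2 δ hδ d2
  have h3 := h3 δ hδ d5
  have hA0 : 0 < A := by linarith
  refine ⟨1 + A * C₁ + A * C₂ + C₃ * Real.exp r, by
    have : 0 ≤ A * C₁ + A * C₂ + C₃ * Real.exp r := by positivity
    linarith, ?_⟩
  have hL := Real.tendsto_log_atTop
  have hLL : Tendsto (fun T : ℝ => Real.log (Real.log T)) atTop atTop := hL.comp hL
  have hS3 := S3_nonneg
  -- j₀ + 4 + 2 S3 ≤ LL ^ ρ
  have c1 : ∀ᶠ T : ℝ in atTop, ρ * Real.log (Real.log (Real.log T)) + (3 + 2 * S3) ≤ Real.log (Real.log T) ^ ρ :=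
    hLL.eventually (lg2 hρ _)
  have c3 : ∀ᶠ T : ℝ in atTop, ρ * Real.log (Real.log (Real.log T)) + 1 ≤ Real.log (Real.log T) / 2 := hLL.eventually (lg hρ _)
  have c2 : ∀ᶠ T : ℝ in atTop, ρ * Real.log (Real.log (Real.log T)) + 1 ≤ Real.log (2 * (δ * Real.log T)) := by
    filter_upwards [hLL.eventually (lg hρ (1 - Real.log (2 * δ))), hL.eventually_gt_atTop 0, hLL.eventually_gt_atTop 0] with T h4 h5 h6
    have e : Real.log (2 * (δ * Real.log T)) = Real.log (2 * δ) + Real.log (Real.log T) := by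
      rw [← mul_assoc, Real.log_mul (by positivity) h5.ne']
    rw [e]
    linarith
  filter_upwards [h1, h2, h3, c1, c2, c3, eventually_ge_atTop (16 : ℝ), hL.eventually_ge_atTop (1 / δ), hLL.eventually_ge_atTop 3] with
    T h1 h2 h3 c1 c2 c3 hT hLδ hLL3 j₀ hj n k α hn hk hα N b hN1 hN hb S U hS hU hcov
  have hT0 : 0 < T := by linarith
  have hT1 : 1 ≤ T := by linarith
  have hD1 : 1 ≤ δ * Real.log T := by
    rw [div_le_iff₀ hδ] at hLδ
    linarith
  set D := δ * Real.log T with hD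
  set Λ := Real.log (Real.log T) with hΛ
  have hΛ0 : 0 < Λ := by linarith
  have hΛ1 : 1 ≤ Λ := by linarith
  have hTδ : T ^ δ = Real.exp D := by
    rw [Real.rpow_def_of_pos hT0, hD, mul_comm]
  have hmono : ∀ {x y : ℝ}, x ≤ y → T ^ x ≤ T ^ y := fun h => Real.rpow_le_rpow_of_exponent_le hT1 h
  have hN2 : 0 ≤ N2 N b := Pool.Agent.Q84.UM.N2_nonneg _ _
  have hX : 0 ≤ T * N2 N b := by positivity
  set lam := Λ ^ ρ with hlam
  have hlam0 : 0 < lam := by positivity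
  have hlam1 : 1 ≤ lam := Real.one_le_rpow hΛ1 hρ.le
  have hF0 : ∀ t, 0 ≤ ‖dp N b t‖ ^ 2 := fun t => by positivity
  have hFI : IntegrableOn (fun t => ‖dp N b t‖ ^ 2) (Set.Ioc T (2 * T)) :=
    (((dpc N b).norm.pow 2).integrableOn_Icc (a := T) (b := 2 * T)).mono_set Set.Ioc_subset_Icc_self
  -- the powers
  have hlm : 1 / lam ^ m ≤ 1 / Λ := by
    have h4 : Λ ≤ lam ^ m := by
      rw [hlam, ← Real.rpow_natCast, ← Real.rpow_mul hΛ0.le]
      calc Λ = Λ ^ (1 : ℝ) := (Real.rpow_one _).symm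
        _ ≤ Λ ^ (ρ * m) := by
            refine Real.rpow_le_rpow_of_exponent_le hΛ1 ?_
            rw [div_le_iff₀ hρ] at hm
            linarith
    exact one_div_le_one_div_of_le hΛ0 h4
  have hexpj : Real.exp (j₀ : ℝ) ≤ Real.exp 1 * lam := by
    calc Real.exp (j₀ : ℝ) ≤ Real.exp (ρ * Real.log Λ + 1) := Real.exp_le_exp.2 hj
      _ = Real.exp 1 * lam := by
          rw [add_comm, Real.exp_add, hlam, Real.rpow_def_of_pos hΛ0, mul_comm ρ]
  have hlr : (j₀ : ℝ) * (Real.exp (r * j₀) / lam ^ (2 * r)) ≤ Real.exp r / Λ := by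
    have h4 : Real.exp (r * (j₀ : ℝ)) ≤ Real.exp r * lam ^ r := by
      calc Real.exp (r * (j₀ : ℝ)) = Real.exp (j₀ : ℝ) ^ r := by rw [← Real.exp_nat_mul]
        _ ≤ (Real.exp 1 * lam) ^ r := pow_le_pow_left₀ (Real.exp_pos _).le hexpj r
        _ = Real.exp r * lam ^ r := by
            rw [mul_pow, ← Real.exp_nat_mul, mul_one]
    have h5 : Λ ^ 2 ≤ lam ^ r := by
      rw [hlam, ← Real.rpow_natCast (Λ ^ ρ) r, ← Real.rpow_mul hΛ0.le, ← Real.rpow_natCast Λ 2]
      refine Real.rpow_le_rpow_of_exponent_le hΛ1 ?_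
      rw [div_le_iff₀ hρ] at hr
      push_cast
      linarith
    have h6 : (j₀ : ℝ) ≤ Λ := by linarith
    have h7 : 0 < lam ^ r := by positivity
    calc (j₀ : ℝ) * (Real.exp (r * j₀) / lam ^ (2 * r)) ≤ Λ * ((Real.exp r * lam ^ r) / lam ^ (2 * r)) := by gcongr
      _ = Λ * Real.exp r / lam ^ r := by
          rw [two_mul, pow_add]
          field_simp
      _ ≤ Λ * Real.exp r / Λ ^ 2 := by gcongr
      _ = Real.exp r / Λ := by
          field_simp
  set X := ⌊T ^ δ⌋₊ with hXd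
  set a := nf A k α with ha
  set a2 := nf A k fun j => 2 * α j with ha2
  have hk2 : ∑ j, ‖k j‖ ≤ A := hk
  have hale : ∀ p, ‖a p‖ ≤ 1 := nf_le hA hk
  have ha2le : ∀ p, ‖a2 p‖ ≤ 1 := nf_le hA hk
  -- the bad sets
  set X1 : Fin n → Set ℝ := fun j => {t : ℝ | lam < |Real.log ‖zt (t + α j)‖ - EP X (t + α j)|} with hX1
  set X2 : Fin n → Set ℝ := fun j => {t : ℝ | lam < |az (t + α j) - EA X (t + α j)|} with hX2
  set X3 : ℕ → Set ℝ := fun l => {t : ℝ | lam < |‖zf D a a2 l t‖|} with hX3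
  have m1 : Measurable fun t : ℝ => Real.log ‖zt t‖ - EP X t := by
    refine (Real.measurable_log.comp zt_meas.norm).sub ?_
    have e : EP X = fun t => (LE X t).re := by
      funext t
      rw [LE_re]
    rw [e]
    refine Complex.measurable_re.comp ?_
    unfold Pool.Agent.Run7.h74.AE.LE
    refine (Finset.measurable_fun_sum _ fun p _ => ?_).neg
    refine Complex.measurable_log.comp (measurable_const.sub ?_)
    exact (by fun_prop : Measurable fun t : ℝ => (p : ℂ) ^ (-(1 / 2 + t * I)))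
  have m2 : Measurable fun t : ℝ => az t - EA X t := by
    have h4 : Measurable az := hz
    exact h4.sub (EA_cont _).measurable
  have hX1m : ∀ j, MeasurableSet (X1 j) := fun j =>
    measurableSet_lt measurable_const ((m1.comp (measurable_add_const (α j))).abs)
  have hX2m : ∀ j, MeasurableSet (X2 j) := fun j =>
    measurableSet_lt measurable_const ((m2.comp (measurable_add_const (α j))).abs)
  have hzfc : ∀ l, Continuous (zf D a a2 l) := fun l => Pool.Agent.Q176.UM.zf_cont _ _ _ _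
  have hX3m : ∀ l, MeasurableSet (X3 l) := fun l =>
    measurableSet_lt measurable_const ((hzfc l).norm.abs).measurable
  have b1 : ∀ j, ∫ t in Set.Ioc T (2 * T) ∩ X1 j, ‖dp N b t‖ ^ 2 ≤ C₁ / Λ * (T * N2 N b) := by
    intro j
    obtain ⟨i1, i2⟩ := shift_g (g := fun t => Real.log ‖zt t‖ - EP X t) (f := b) hT0.le (h1 N (hN.trans (hmono d3))) (hα j)
    refine (cheb hlam0 hT0.le hF0 hFI (hX1m j) i1 i2).trans ?_
    calc C₁ * T * N2 N b / lam ^ m = C₁ * (T * N2 N b) * (1 / lam ^ m) := by ring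
      _ ≤ C₁ * (T * N2 N b) * (1 / Λ) := by gcongr
      _ = _ := by ring
  have b2 : ∀ j, ∫ t in Set.Ioc T (2 * T) ∩ X2 j, ‖dp N b t‖ ^ 2 ≤ C₂ / Λ * (T * N2 N b) := by
    intro j
    obtain ⟨i1, i2⟩ := shift_g (g := fun t => az t - EA X t) (f := b) hT0.le (h2 N (hN.trans (hmono d4))) (hα j)
    refine (cheb hlam0 hT0.le hF0 hFI (hX2m j) i1 i2).trans ?_
    calc C₂ * T * N2 N b / lam ^ m = C₂ * (T * N2 N b) * (1 / lam ^ m) := by ring
      _ ≤ C₂ * (T * N2 N b) * (1 / Λ) := by gcongr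
      _ = _ := by ring
  have b3 : ∀ l : ℕ, ∫ t in Set.Ioc T (2 * T) ∩ X3 l, ‖dp N b t‖ ^ 2 ≤ C₃ * Real.exp (r * l) * (T * N2 N b) / lam ^ (2 * r) := by
    intro l
    have hc : Continuous fun t => |‖zf D a a2 l t‖| ^ (2 * r) * ‖dp N b t‖ ^ 2 :=
      ((hzfc l).norm.abs.pow _).mul ((dpc N b).norm.pow 2)
    refine cheb hlam0 hT0.le hF0 hFI (hX3m l) (hc.intervalIntegrable _ _) ?_
    refine le_trans ?_ (h3 a a2 hale ha2le N b hN1 hN hb l)
    have e : (fun t => |‖zf D a a2 l t‖| ^ (2 * r) * ‖dp N b t‖ ^ 2) = fun t => ‖zf D a a2 l t‖ ^ (2 * r) * ‖dp N b t‖ ^ 2 := by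
      funext t
      rw [abs_norm]
    rw [e] at hc ⊢
    refine intervalIntegral.integral_mono_interval (by linarith) (by linarith) (by linarith) ?_ (hc.intervalIntegrable _ _)
    exact Eventually.of_forall fun t => by
      simp only [Pi.zero_apply]
      positivity
  -- the deviation outside the bad sets
  have hJ : j₀ ≤ JB D := by
    have h4 : (j₀ : ℝ) ≤ JB D := by
      refine hj.trans (c2.trans ?_)
      exact Nat.le_ceil _
    exact_mod_cast h4
  have hdev : ∀ t, (∀ j, t ∉ X1 j) → (∀ j, t ∉ X2 j) → (∀ l ∈ Finset.range j₀, t ∉ X3 l) →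
      ‖SK k α t - (A : ℂ) * ES D a a2 j₀ t‖ ≤ A * Λ ^ (2 * ρ) := by
    intro t g1 g2 g3
    have e1 : SK k α t - (A : ℂ) * ES D a a2 j₀ t = (∑ j, k j * (LZ (t + α j) - LE X (t + α j))) +
        ((∑ j, k j * LE X (t + α j)) - PA X (apc k α) (apc k fun j => 2 * α j) t) +
        (A : ℂ) * ∑ l ∈ Finset.range j₀, zf D a a2 l t := by
      have e2 : PA X (apc k α) (apc k fun j => 2 * α j) t = (A : ℂ) * ∑ l ∈ Finset.range (JB D), zf D a a2 l t := by
        rw [hXd, hTδ, ← sum_zj D _ _ hD1 t, Finset.mul_sum]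
        refine Finset.sum_congr rfl fun l _ => ?_
        rw [← zf_smul (by linarith) (A : ℂ) a a2 l t]
        have e3 : ∀ α' : Fin n → ℝ, (fun p => (A : ℂ) * nf A k α' p) = apc k α' := by
          intro α'
          funext p
          unfold nf
          rw [← mul_assoc, ← Complex.ofReal_mul, mul_one_div_cancel hA0.ne', Complex.ofReal_one, one_mul]
        rw [ha, ha2, e3, e3]
        rfl
      have e3 : ∑ l ∈ Finset.range (JB D), zf D a a2 l t = ∑ l ∈ Finset.range j₀, zf D a a2 l t + ES D a a2 j₀ t :=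
        (Finset.sum_range_add_sum_Ico _ hJ).symm
      rw [e2, e3]
      unfold SK
      simp only [mul_sub, Finset.sum_sub_distrib]
      ring
    have n1 : ‖∑ j, k j * (LZ (t + α j) - LE X (t + α j))‖ ≤ A * (2 * lam) := by
      refine (norm_sum_le _ _).trans ?_
      calc ∑ j, ‖k j * (LZ (t + α j) - LE X (t + α j))‖ ≤ ∑ j, ‖k j‖ * (2 * lam) := by
            refine Finset.sum_le_sum fun j _ => ?_
            rw [norm_mul]
            refine mul_le_mul_of_nonneg_left ?_ (norm_nonneg _)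
            refine (Complex.norm_le_abs_re_add_abs_im _).trans ?_
            have h4 : (LZ (t + α j) - LE X (t + α j)).re = Real.log ‖zt (t + α j)‖ - EP X (t + α j) := by
              rw [Complex.sub_re, LE_re]
              unfold LZ
              simp
            have h5 : (LZ (t + α j) - LE X (t + α j)).im = az (t + α j) - EA X (t + α j) := by
              rw [Complex.sub_im, LE_im]
              unfold LZ
              simp
            have h6 : |Real.log ‖zt (t + α j)‖ - EP X (t + α j)| ≤ lam := not_lt.1 (g1 j)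
            have h7 : |az (t + α j) - EA X (t + α j)| ≤ lam := not_lt.1 (g2 j)
            rw [h4, h5]
            linarith
        _ = (∑ j, ‖k j‖) * (2 * lam) := by rw [Finset.sum_mul]
        _ ≤ A * (2 * lam) := mul_le_mul_of_nonneg_right hk (by positivity)
    have n2 := LE_PA k α hk X t
    have n3 : ‖(A : ℂ) * ∑ l ∈ Finset.range j₀, zf D a a2 l t‖ ≤ A * (j₀ * lam) := by
      rw [norm_mul, Complex.norm_real, Real.norm_of_nonneg hA0.le]
      refine mul_le_mul_of_nonneg_left ?_ hA0.le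
      refine (norm_sum_le _ _).trans ?_
      calc ∑ l ∈ Finset.range j₀, ‖zf D a a2 l t‖ ≤ ∑ _l ∈ Finset.range j₀, lam := by
            refine Finset.sum_le_sum fun l hl => ?_
            have h4 : |‖zf D a a2 l t‖| ≤ lam := not_lt.1 (g3 l hl)
            rwa [abs_norm] at h4
        _ = j₀ * lam := by
            rw [Finset.sum_const, Finset.card_range, nsmul_eq_mul]
    have h2ρ : Λ ^ (2 * ρ) = lam * lam := by
      rw [hlam, ← Real.rpow_add hΛ0]
      congr 1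
      ring
    rw [e1, h2ρ]
    refine (norm_add₃_le).trans ?_
    have h4 : (j₀ : ℝ) + 2 + 2 * S3 ≤ lam := by linarith
    calc ‖∑ j, k j * (LZ (t + α j) - LE X (t + α j))‖ +
          ‖(∑ j, k j * LE X (t + α j)) - PA X (apc k α) (apc k fun j => 2 * α j) t‖ +
          ‖(A : ℂ) * ∑ l ∈ Finset.range j₀, zf D a a2 l t‖ ≤ A * (2 * lam) + A * (2 * S3) + A * (j₀ * lam) :=
          add_le_add (add_le_add n1 n2) n3
      _ ≤ A * (2 * lam) + A * (2 * S3 * lam) + A * (j₀ * lam) := by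
          have : A * (2 * S3) * 1 ≤ A * (2 * S3) * lam := mul_le_mul_of_nonneg_left hlam1 (by positivity)
          linarith
      _ = A * (((j₀ : ℝ) + 2 + 2 * S3) * lam) := by ring
      _ ≤ A * (lam * lam) := by gcongr
  -- the cover
  set Y : Fin 4 → Set ℝ := ![U, ⋃ j, X1 j, ⋃ j, X2 j, ⋃ l ∈ Finset.range j₀, X3 l] with hY
  have hYm : ∀ i, MeasurableSet (Y i) := by
    intro i
    fin_cases i
    · exact hU
    · exact MeasurableSet.iUnion hX1m
    · exact MeasurableSet.iUnion hX2m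
    · exact Finset.measurableSet_biUnion _ fun l _ => hX3m l
  have hmain := union_bd (Finset.univ : Finset (Fin 4)) hF0 hFI hS (U := Y) (fun i _ => hYm i) (fun t ht hts => by
    by_cases g1 : ∃ j, t ∈ X1 j
    · exact ⟨1, Finset.mem_univ _, Set.mem_iUnion.2 g1⟩
    · by_cases g2 : ∃ j, t ∈ X2 j
      · exact ⟨2, Finset.mem_univ _, Set.mem_iUnion.2 g2⟩
      · by_cases g3 : ∃ l ∈ Finset.range j₀, t ∈ X3 l
        · refine ⟨3, Finset.mem_univ _, ?_⟩
          obtain ⟨l, hl, hl2⟩ := g3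
          exact Set.mem_biUnion hl hl2
        · refine ⟨0, Finset.mem_univ _, hcov t ht hts (hdev t ?_ ?_ ?_)⟩
          · exact fun j hj => g1 ⟨j, hj⟩
          · exact fun j hj => g2 ⟨j, hj⟩
          · exact fun l hl hl2 => g3 ⟨l, hl, hl2⟩)
  rw [Fin.sum_univ_four] at hmain
  have u1 : ∫ t in Set.Ioc T (2 * T) ∩ Y 1, ‖dp N b t‖ ^ 2 ≤ A * (C₁ / Λ * (T * N2 N b)) := by
    have h4 := union_bd (Finset.univ : Finset (Fin n)) hF0 hFI (hYm 1) (U := X1) (fun i _ => hX1m i) (fun t _ hts => by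
      obtain ⟨j, hj⟩ := Set.mem_iUnion.1 hts
      exact ⟨j, Finset.mem_univ _, hj⟩)
    refine h4.trans ((Finset.sum_le_sum fun j _ => b1 j).trans ?_)
    rw [Finset.sum_const, Finset.card_univ, Fintype.card_fin, nsmul_eq_mul]
    exact mul_le_mul_of_nonneg_right hn (by positivity)
  have u2 : ∫ t in Set.Ioc T (2 * T) ∩ Y 2, ‖dp N b t‖ ^ 2 ≤ A * (C₂ / Λ * (T * N2 N b)) := by
    have h4 := union_bd (Finset.univ : Finset (Fin n)) hF0 hFI (hYm 2) (U := X2) (fun i _ => hX2m i) (fun t _ hts => by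
      obtain ⟨j, hj⟩ := Set.mem_iUnion.1 hts
      exact ⟨j, Finset.mem_univ _, hj⟩)
    refine h4.trans ((Finset.sum_le_sum fun j _ => b2 j).trans ?_)
    rw [Finset.sum_const, Finset.card_univ, Fintype.card_fin, nsmul_eq_mul]
    exact mul_le_mul_of_nonneg_right hn (by positivity)
  have u3 : ∫ t in Set.Ioc T (2 * T) ∩ Y 3, ‖dp N b t‖ ^ 2 ≤ C₃ * Real.exp r / Λ * (T * N2 N b) := by
    have h4 := union_bd (Finset.range j₀) hF0 hFI (hYm 3) (U := X3) (fun i _ => hX3m i) (fun t _ hts => by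
      obtain ⟨l, hl, hl2⟩ := Set.mem_iUnion₂.1 hts
      exact ⟨l, hl, hl2⟩)
    refine h4.trans ((Finset.sum_le_sum fun l _ => b3 l).trans ?_)
    calc ∑ l ∈ Finset.range j₀, C₃ * Real.exp (r * l) * (T * N2 N b) / lam ^ (2 * r) ≤
        ∑ _l ∈ Finset.range j₀, C₃ * Real.exp (r * j₀) * (T * N2 N b) / lam ^ (2 * r) := by
          refine Finset.sum_le_sum fun l hl => ?_
          have h5 : (l : ℝ) ≤ j₀ := by exact_mod_cast (Finset.mem_range.1 hl).le
          gcongr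
      _ = C₃ * (T * N2 N b) * ((j₀ : ℝ) * (Real.exp (r * j₀) / lam ^ (2 * r))) := by
          rw [Finset.sum_const, Finset.card_range, nsmul_eq_mul]
          ring
      _ ≤ C₃ * (T * N2 N b) * (Real.exp r / Λ) := by gcongr
      _ = _ := by ring
  have hY0 : Y 0 = U := rfl
  rw [hY0] at hmain
  have hfin : (1 + A * C₁ + A * C₂ + C₃ * Real.exp r) / Λ * (T * N2 N b) =
      1 / Λ * (T * N2 N b) + A * (C₁ / Λ * (T * N2 N b)) + A * (C₂ / Λ * (T * N2 N b)) + C₃ * Real.exp r / Λ * (T * N2 N b) := by ring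
  rw [hfin]
  have : 0 ≤ 1 / Λ * (T * N2 N b) := by positivity
  linarith

end

end Pool.Agent.Run7.h74.UC
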