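import Pool.Agent.Run7.h74.UC.F3
import Pool.Agent.Run7.h74.AE.FinC

set_option autoImplicit false

/-! Project UC (helper74): discs and strips for the logarithm of zeta. -/

namespace Pool.Agent.Run7.h74.UC

open Filter Topology MeasureTheory Complex
open Pool.Agent.Q97.UM
open Pool.Agent.Run7.h74.DW (wt Adm)
open Pool.Agent.Q14.UM (KB' dp_qb sum_zj)
open Pool.Agent.Run7.h74.AE (mert apc norm_apc_le PS az EA LE LE_re LE_im LE_PA S_THA S_AZM EA_cont)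
open Pool.Agent.Q98.UM (S3 S3_nonneg)
open Run7.h311.CM (zt_meas)

noncomputable section

lemma lg3 {ρ : ℝ} (hρ : 0 < ρ) (a c : ℝ) : ∀ᶠ x : ℝ in atTop, a * Real.log x + c ≤ x ^ ρ := by
  have h5 := (isLittleO_log_rpow_atTop hρ).bound (show (0 : ℝ) < 1 / (2 * (|a| + 1)) by positivity)
  have h6 := (tendsto_rpow_atTop hρ).eventually_ge_atTop (2 * c)
  filter_upwards [h5, h6, eventually_ge_atTop (1 : ℝ)] with x h5 h6 h7
  have h9 : 0 ≤ Real.log x := Real.log_nonneg h7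
  rw [Real.norm_of_nonneg h9, Real.norm_of_nonneg (by positivity)] at h5
  have h10 : 0 ≤ x ^ ρ := by positivity
  have h8 : a * Real.log x ≤ 1 / 2 * x ^ ρ := by
    calc a * Real.log x ≤ |a| * Real.log x := mul_le_mul_of_nonneg_right (le_abs_self a) h9
      _ ≤ |a| * (1 / (2 * (|a| + 1)) * x ^ ρ) := mul_le_mul_of_nonneg_left h5 (abs_nonneg a)
      _ = (|a| / (|a| + 1)) * (1 / 2 * x ^ ρ) := by
          field_simp
      _ ≤ 1 * (1 / 2 * x ^ ρ) := by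
          refine mul_le_mul_of_nonneg_right ?_ (by positivity)
          rw [div_le_one (by positivity)]
          linarith
      _ = _ := one_mul _
  linarith

/-- the mean value theorem, upper bound on part of the interval -/
lemma triv_bd {T : ℝ} (hT : 16 ≤ T) {N : ℕ} {b : ℕ → ℂ} (hN : (N : ℝ) ≤ T ^ (1 / 4 : ℝ)) (S : Set ℝ) :
    ∫ t in Set.Ioc T (2 * T) ∩ S, ‖dp N b t‖ ^ 2 ≤ 2 * (T * N2 N b) := by
  have hFI : IntegrableOn (fun t => ‖dp N b t‖ ^ 2) (Set.Ioc T (2 * T)) :=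
    (((dpc N b).norm.pow 2).integrableOn_Icc (a := T) (b := 2 * T)).mono_set Set.Ioc_subset_Icc_self
  obtain ⟨-, v2⟩ := Pool.Agent.Q84.UM.t_MVL T hT N hN b
  rw [intervalIntegral.integral_of_le (by linarith)] at v2
  refine le_trans (setIntegral_mono_set hFI (Eventually.of_forall fun t => ?_)
    (Eventually.of_forall fun t ht => ht.1)) (v2.trans (le_of_eq (by ring)))
  simp only [Pi.zero_apply]
  positivity

lemma dp_zero_len (b : ℕ → ℂ) (t : ℝ) : dp 0 b t = 0 := by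
  unfold dp
  simp

lemma N2_zero_len (b : ℕ → ℂ) : N2 0 b = 0 := by
  unfold N2
  simp

/-- the choice of the first block -/
lemma j0_facts {ρ A' x : ℝ} (hρ : 0 < ρ) (hA' : 1 / ρ ≤ A') (hx : 1 ≤ x) :
    ((⌈ρ * Real.log x⌉₊ : ℕ) : ℝ) ≤ ρ * Real.log x + 1 ∧ Real.exp (-(A' * (⌈ρ * Real.log x⌉₊ : ℕ))) ≤ 1 / x := by
  have h9 : 0 ≤ Real.log x := Real.log_nonneg hx
  have hx0 : 0 < x := by linarith
  refine ⟨(Nat.ceil_lt_add_one (by positivity)).le, ?_⟩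
  have h1 : ρ * Real.log x ≤ (⌈ρ * Real.log x⌉₊ : ℕ) := Nat.le_ceil _
  have h2 : 1 ≤ A' * ρ := by
    rwa [div_le_iff₀ hρ] at hA'
  have h3 : 0 ≤ A' := le_trans (by positivity) hA'
  have h4 : Real.log x ≤ A' * (⌈ρ * Real.log x⌉₊ : ℕ) := by
    calc Real.log x ≤ (A' * ρ) * Real.log x := le_mul_of_one_le_left h9 h2
      _ = A' * (ρ * Real.log x) := by ring
      _ ≤ _ := mul_le_mul_of_nonneg_left h1 h3
  calc Real.exp (-(A' * (⌈ρ * Real.log x⌉₊ : ℕ))) ≤ Real.exp (-Real.log x) := Real.exp_le_exp.2 (by linarith)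
    _ = 1 / x := by rw [Real.exp_neg, Real.exp_log hx0, one_div]

/-- **discs** -/
theorem ucD (hCHT : S_CHT) (hF2 : S_FEJ2) (hBLM : S_BLM) (hTHA : S_THA) (hz : S_AZM) (η : ℝ) (hη : 0 < η) :
    ∃ δ₀ : ℝ, 0 < δ₀ ∧ ∀ δ : ℝ, 0 < δ → δ ≤ δ₀ → ∃ C : ℝ, 1 ≤ C ∧ ∀ᶠ T : ℝ in atTop, ∀ α : ℝ, |α| ≤ T / 2 → ∀ (V : ℂ) (R : ℝ),
      Real.log (Real.log T) ^ η ≤ R → ∀ (N : ℕ) (b : ℕ → ℂ), (N : ℝ) ≤ T ^ δ → (∀ n, b n ≠ 0 → 1 ≤ n ∧ n ≤ N) →
      ∫ t in Set.Ioc T (2 * T) ∩ {t : ℝ | ‖LZ (t + α) - V‖ ≤ R}, ‖dp N b t‖ ^ 2 ≤ C * (R ^ 2 / Real.log (Real.log T)) * (T * N2 N b) := by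
  classical
  set ρ := η / 2 with hρd
  have hρ : 0 < ρ := by positivity
  obtain ⟨A', hA'1, hA'2⟩ : ∃ A' : ℝ, 1 ≤ A' ∧ 1 / ρ ≤ A' := ⟨max 1 (1 / ρ), le_max_left _ _, le_max_right _ _⟩
  obtain ⟨C₁, δ₁, hC₁, hδ₁, h1⟩ := disc hCHT hF2 A' hA'1
  obtain ⟨δ₂, hδ₂, h2⟩ := dev_main hBLM hTHA hz 1 ρ le_rfl hρ
  obtain ⟨C₃, hC₃, h3⟩ := UP_compl
  obtain ⟨C₅, hC₅, hmert⟩ := mert
  refine ⟨min (min δ₁ δ₂) 1, by positivity, fun δ hδ hδ0 => ?_⟩
  have d1 : δ ≤ δ₁ := hδ0.trans ((min_le_left _ _).trans (min_le_left _ _))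
  have d2 : δ ≤ δ₂ := hδ0.trans ((min_le_left _ _).trans (min_le_right _ _))
  have d3 : δ ≤ 1 := hδ0.trans (min_le_right _ _)
  have h1 := h1 δ hδ d1
  obtain ⟨C₂, hC₂, h2⟩ := h2 δ hδ d2
  have h3 := h3 δ hδ d3
  refine ⟨10 * C₁ + C₂, by linarith, ?_⟩
  have hL := Real.tendsto_log_atTop
  have hLL : Tendsto (fun T : ℝ => Real.log (Real.log T)) atTop atTop := hL.comp hL
  have c3 : ∀ᶠ T : ℝ in atTop, ρ * Real.log (Real.log (Real.log T)) + 1 ≤ Real.log (Real.log T) / 2 := hLL.eventually (lg hρ _)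
  have c4 : ∀ᶠ T : ℝ in atTop, (ρ + 1) * Real.log (Real.log (Real.log T)) + (1 + C₃ + C₅ - Real.log δ) ≤ Real.log (Real.log T) / 2 :=
    hLL.eventually (lg (by linarith) _)
  have c6 : ∀ᶠ T : ℝ in atTop, 1 / (δ * Real.log T) ≤ 1 / Real.log (Real.log T) := by
    have h5 := (Real.isLittleO_log_id_atTop).bound hδ
    filter_upwards [hL.eventually h5, hL.eventually_gt_atTop 0, hLL.eventually_gt_atTop 0] with T h5 h6 h7
    simp only [id] at h5
    rw [Real.norm_of_nonneg h7.le, Real.norm_of_nonneg h6.le] at h5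
    exact one_div_le_one_div_of_le h7 h5
  filter_upwards [h1, h2, h3, hmert, c3, c4, c6, eventually_ge_atTop (16 : ℝ), hLL.eventually_ge_atTop 3] with
    T h1 h2 h3 hmert c3 c4 c6 hT hLL3 α hα V R hR N b hN hb
  have hT0 : 0 < T := by linarith
  set Λ := Real.log (Real.log T) with hΛ
  have hΛ0 : 0 < Λ := by linarith
  have hΛ1 : 1 ≤ Λ := by linarith
  have hR1 : 1 ≤ R := (Real.one_le_rpow hΛ1 hη.le).trans hR
  rcases Nat.eq_zero_or_pos N with hN0 | hN1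
  · subst hN0
    simp only [dp_zero_len, N2_zero_len]
    simp
  set j₀ := ⌈ρ * Real.log Λ⌉₊ with hj₀
  obtain ⟨hj1, hj2⟩ := j0_facts hρ hA'2 hΛ1
  rw [← hj₀] at hj1 hj2
  have hN2 : 0 ≤ N2 N b := Pool.Agent.Q84.UM.N2_nonneg _ _
  have hX : 0 ≤ T * N2 N b := by positivity
  set k : Fin 1 → ℂ := fun _ => 1 with hk
  set α' : Fin 1 → ℝ := fun _ => α with hα'
  have hSK : ∀ t, SK k α' t = LZ (t + α) := by
    intro t
    unfold SK
    simp [hk, hα']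
  have hks : ∑ j, ‖k j‖ ≤ 1 := by simp [hk]
  have hnf : ∀ p ∈ UP (δ * Real.log T) j₀, ‖nf 1 k α' p‖ ^ 2 / (p : ℝ) = 1 / p := by
    intro p hp
    unfold UP at hp
    rw [Finset.mem_filter] at hp
    have hp0 := hp.2.1.pos
    unfold nf apc
    rw [Fin.sum_univ_one, hk, hα', norm_mul, norm_mul, Complex.norm_natCast_cpow_of_pos hp0]
    simp
  set S := ∑ p ∈ UP (δ * Real.log T) j₀, ‖nf 1 k α' p‖ ^ 2 / (p : ℝ) with hS
  have hSe : S = ∑ p ∈ UP (δ * Real.log T) j₀, (1 : ℝ) / p := Finset.sum_congr rfl hnf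
  obtain ⟨u1, u2⟩ := h3 j₀ (hj1.trans c3)
  have hSΛ : Λ / 2 ≤ S := by
    have e := Finset.sum_sdiff (f := fun p : ℕ => (1 : ℝ) / p) u2
    have m1 := (abs_le.1 hmert).1
    have e2 : ∑ p ∈ PR T, (1 : ℝ) / p = ∑ p ∈ (Finset.Icc 1 ⌊T⌋₊).filter Nat.Prime, (1 : ℝ) / p := rfl
    rw [hSe]
    linarith
  have hS0 : 0 < S := by linarith
  set U : Set ℝ := {t : ℝ | ‖ES (δ * Real.log T) (nf 1 k α') (nf 1 k fun j => 2 * α' j) j₀ t - V‖ ≤ 2 * R} with hU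
  have hUm : MeasurableSet U := measurableSet_le (((ES_cont _ _ _ _).sub continuous_const).norm).measurable measurable_const
  have hSm : MeasurableSet {t : ℝ | ‖LZ (t + α) - V‖ ≤ R} :=
    measurableSet_le ((((LZ_meas hz).comp (measurable_add_const α)).sub measurable_const).norm) measurable_const
  have hale : ∀ p, ‖nf 1 k α' p‖ ≤ 1 := nf_le le_rfl hks
  have ha2le : ∀ p, ‖nf 1 k (fun j => 2 * α' j) p‖ ≤ 1 := nf_le le_rfl hks
  have g1 := h2 j₀ hj1 1 k α' (by simp) hks (fun _ => hα) N b hN1 hN hb {t : ℝ | ‖LZ (t + α) - V‖ ≤ R} U hSm hUm (fun t _ hts hd => by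
    have h4 : ‖LZ (t + α) - V‖ ≤ R := hts
    rw [hSK, Complex.ofReal_one, one_mul, one_mul] at hd
    have h5 : Λ ^ (2 * ρ) ≤ R := by
      have : 2 * ρ = η := by rw [hρd]; ring
      rw [this]
      exact hR
    show ‖ES (δ * Real.log T) (nf 1 k α') (nf 1 k fun j => 2 * α' j) j₀ t - V‖ ≤ 2 * R
    calc ‖ES (δ * Real.log T) (nf 1 k α') (nf 1 k fun j => 2 * α' j) j₀ t - V‖ =
        ‖(LZ (t + α) - V) - (LZ (t + α) - ES (δ * Real.log T) (nf 1 k α') (nf 1 k fun j => 2 * α' j) j₀ t)‖ := by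
          congr 1
          ring
      _ ≤ ‖LZ (t + α) - V‖ + ‖LZ (t + α) - ES (δ * Real.log T) (nf 1 k α') (nf 1 k fun j => 2 * α' j) j₀ t‖ := norm_sub_le _ _
      _ ≤ R + Λ ^ (2 * ρ) := add_le_add h4 hd
      _ ≤ 2 * R := by linarith)
  have g2 := h1 (nf 1 k α') (nf 1 k fun j => 2 * α' j) hale ha2le N b hN1 hN hb j₀ (2 * R) V (by linarith) hS0
  rw [← hU, ← hS] at g2
  have e1 : Real.exp (-(A' * j₀)) + 1 / (δ * Real.log T) + (2 * R) ^ 2 / S ≤ 10 * (R ^ 2 / Λ) := by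
    have q1 : 1 / Λ ≤ R ^ 2 / Λ := by
      gcongr
      nlinarith
    have q2 : (2 * R) ^ 2 / S ≤ 8 * (R ^ 2 / Λ) := by
      calc (2 * R) ^ 2 / S ≤ (2 * R) ^ 2 / (Λ / 2) := by gcongr
        _ = _ := by
          field_simp
          norm_num
    linarith
  have q1 : 1 / Λ ≤ R ^ 2 / Λ := by
    gcongr
    nlinarith
  have hC₁0 : 0 ≤ C₁ := by linarith
  have hC₂0 : 0 ≤ C₂ := by linarith
  calc ∫ t in Set.Ioc T (2 * T) ∩ {t : ℝ | ‖LZ (t + α) - V‖ ≤ R}, ‖dp N b t‖ ^ 2 ≤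
      (∫ t in Set.Ioc T (2 * T) ∩ U, ‖dp N b t‖ ^ 2) + C₂ / Λ * (T * N2 N b) := g1
    _ ≤ C₁ * (Real.exp (-(A' * j₀)) + 1 / (δ * Real.log T) + (2 * R) ^ 2 / S) * (T * N2 N b) + C₂ / Λ * (T * N2 N b) := by
        gcongr
    _ ≤ C₁ * (10 * (R ^ 2 / Λ)) * (T * N2 N b) + C₂ * (R ^ 2 / Λ) * (T * N2 N b) := by
        refine add_le_add ?_ ?_
        · gcongr
        · rw [div_eq_mul_one_div]
          gcongr
    _ = _ := by ring

/-- **strips** -/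
theorem ucS (hCHT : S_CHT) (hF1 : S_FEJ1) (hBLM : S_BLM) (hTHA : S_THA) (hz : S_AZM) (A η : ℝ) (hA : 1 ≤ A) (hη : 0 < η) :
    ∃ δ₀ : ℝ, 0 < δ₀ ∧ ∀ δ : ℝ, 0 < δ → δ ≤ δ₀ → ∃ C : ℝ, 1 ≤ C ∧ ∀ᶠ T : ℝ in atTop,
      ∀ (n : ℕ) (k : Fin n → ℂ) (α : Fin n → ℝ), (n : ℝ) ≤ A → ∑ j, ‖k j‖ ≤ A → (∀ j, |α j| ≤ T / 2) → ∀ V R : ℝ,
      Real.log (Real.log T) ^ η ≤ R → ∀ (N : ℕ) (b : ℕ → ℂ), (N : ℝ) ≤ T ^ δ → (∀ n, b n ≠ 0 → 1 ≤ n ∧ n ≤ N) →
      ∫ t in Set.Ioc T (2 * T) ∩ {t : ℝ | |(SK k α t).re - V| ≤ R}, ‖dp N b t‖ ^ 2 ≤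
        C * (R / Real.sqrt (1 + PS k α T)) * (T * N2 N b) := by
  classical
  set ρ := η / 2 with hρd
  have hρ : 0 < ρ := by positivity
  have hA0 : 0 < A := by linarith
  obtain ⟨A', hA'1, hA'2⟩ : ∃ A' : ℝ, 1 ≤ A' ∧ 1 / ρ ≤ A' := ⟨max 1 (1 / ρ), le_max_left _ _, le_max_right _ _⟩
  obtain ⟨C₁, δ₁, hC₁, hδ₁, h1⟩ := strip hCHT hF1 A' hA'1
  obtain ⟨δ₂, hδ₂, h2⟩ := dev_main hBLM hTHA hz A ρ hA hρ
  obtain ⟨C₃, hC₃, h3⟩ := UP_compl
  obtain ⟨C₅, hC₅, hmert⟩ := mert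
  refine ⟨min (min δ₁ δ₂) (1 / 4), by positivity, fun δ hδ hδ0 => ?_⟩
  have d1 : δ ≤ δ₁ := hδ0.trans ((min_le_left _ _).trans (min_le_left _ _))
  have d2 : δ ≤ δ₂ := hδ0.trans ((min_le_left _ _).trans (min_le_right _ _))
  have d3 : δ ≤ 1 / 4 := hδ0.trans (min_le_right _ _)
  have h1 := h1 δ hδ d1
  obtain ⟨C₂, hC₂, h2⟩ := h2 δ hδ d2
  have h3 := h3 δ hδ (by linarith)
  refine ⟨C₁ * (2 + 4 * A) + C₂ + 2, by nlinarith, ?_⟩
  have hL := Real.tendsto_log_atTop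
  have hLL : Tendsto (fun T : ℝ => Real.log (Real.log T)) atTop atTop := hL.comp hL
  have c3 : ∀ᶠ T : ℝ in atTop, ρ * Real.log (Real.log (Real.log T)) + 1 ≤ Real.log (Real.log T) / 2 := hLL.eventually (lg hρ _)
  have c4 : ∀ᶠ T : ℝ in atTop, (4 * A ^ 2 * (ρ + 1)) * Real.log (Real.log (Real.log T)) + (4 * A ^ 2 * (1 + C₃ - Real.log δ) + 1) ≤
      Real.log (Real.log T) ^ (2 * η) :=
    hLL.eventually (lg3 (by linarith) _ _)
  have c7 : ∀ᶠ T : ℝ in atTop, 2 ≤ Real.log (Real.log T) ^ (2 * η) :=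
    ((tendsto_rpow_atTop (by linarith : 0 < 2 * η)).comp hLL).eventually_ge_atTop 2
  have c6 : ∀ᶠ T : ℝ in atTop, 1 / (δ * Real.log T) ≤ 1 / Real.log (Real.log T) := by
    have h5 := (Real.isLittleO_log_id_atTop).bound hδ
    filter_upwards [hL.eventually h5, hL.eventually_gt_atTop 0, hLL.eventually_gt_atTop 0] with T h5 h6 h7
    simp only [id] at h5
    rw [Real.norm_of_nonneg h7.le, Real.norm_of_nonneg h6.le] at h5
    exact one_div_le_one_div_of_le h7 h5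
  filter_upwards [h1, h2, h3, hmert, c3, c4, c6, c7, eventually_ge_atTop (16 : ℝ), hLL.eventually_ge_atTop 3,
    hLL.eventually_ge_atTop (1 + A ^ 2 * (1 + C₅))] with
    T h1 h2 h3 hmert c3 c4 c6 c7 hT hLL3 hLA n k α hn hk hα V R hR N b hN hb
  have hT0 : 0 < T := by linarith
  have hT1 : 1 ≤ T := by linarith
  set Λ := Real.log (Real.log T) with hΛ
  have hΛ0 : 0 < Λ := by linarith
  have hΛ1 : 1 ≤ Λ := by linarith
  have hR1 : 1 ≤ R := (Real.one_le_rpow hΛ1 hη.le).trans hR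
  rcases Nat.eq_zero_or_pos N with hN0 | hN1
  · subst hN0
    simp only [dp_zero_len, N2_zero_len]
    simp
  have hN2 : 0 ≤ N2 N b := Pool.Agent.Q84.UM.N2_nonneg _ _
  have hX : 0 ≤ T * N2 N b := by positivity
  have hPS0 : 0 ≤ PS k α T := Finset.sum_nonneg fun p _ => by positivity
  have hC₁0 : 0 ≤ C₁ := by linarith
  have hC₂0 : 0 ≤ C₂ := by linarith
  have hsq0 : 0 < Real.sqrt (1 + PS k α T) := Real.sqrt_pos.2 (by linarith)
  have hRq : 0 ≤ R / Real.sqrt (1 + PS k α T) := by positivity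
  -- few primes
  by_cases hsmall : 1 + PS k α T ≤ Λ ^ (2 * η)
  · have h4 : Real.sqrt (1 + PS k α T) ≤ R := by
      calc Real.sqrt (1 + PS k α T) ≤ Real.sqrt (Λ ^ (2 * η)) := Real.sqrt_le_sqrt hsmall
        _ = Λ ^ η := by
            rw [two_mul, Real.rpow_add hΛ0, Real.sqrt_mul_self (by positivity)]
        _ ≤ R := hR
    have h5 : 1 ≤ R / Real.sqrt (1 + PS k α T) := by
      rwa [one_le_div hsq0]
    have hN4 : (N : ℝ) ≤ T ^ (1 / 4 : ℝ) := hN.trans (Real.rpow_le_rpow_of_exponent_le hT1 d3)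
    refine (triv_bd hT hN4 _).trans ?_
    refine mul_le_mul_of_nonneg_right ?_ hX
    have h6 : 0 ≤ C₁ * (2 + 4 * A) + C₂ := by positivity
    nlinarith
  push Not at hsmall
  set j₀ := ⌈ρ * Real.log Λ⌉₊ with hj₀
  obtain ⟨hj1, hj2⟩ := j0_facts hρ hA'2 hΛ1
  rw [← hj₀] at hj1 hj2
  obtain ⟨u1, u2⟩ := h3 j₀ (hj1.trans c3)
  set S := ∑ p ∈ UP (δ * Real.log T) j₀, ‖nf A k α p‖ ^ 2 / (p : ℝ) with hS
  have hSe : A ^ 2 * S = ∑ p ∈ UP (δ * Real.log T) j₀, ‖apc k α p‖ ^ 2 / (p : ℝ) := by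
    rw [hS, Finset.mul_sum]
    refine Finset.sum_congr rfl fun p _ => ?_
    unfold nf
    rw [norm_mul, Complex.norm_real, Real.norm_of_nonneg (by positivity)]
    field_simp
  have hE : ∑ p ∈ PR T \ UP (δ * Real.log T) j₀, ‖apc k α p‖ ^ 2 / (p : ℝ) ≤ A ^ 2 * (C₃ + j₀ + Real.log Λ - Real.log δ) := by
    refine le_trans ?_ (mul_le_mul_of_nonneg_left u1 (by positivity))
    rw [Finset.mul_sum]
    refine Finset.sum_le_sum fun p _ => ?_
    rw [div_eq_mul_one_div]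
    refine mul_le_mul_of_nonneg_right ?_ (by positivity)
    exact pow_le_pow_left₀ (norm_nonneg _) (norm_apc_le k α hk p) 2
  have hPSe : PS k α T = ∑ p ∈ PR T \ UP (δ * Real.log T) j₀, ‖apc k α p‖ ^ 2 / (p : ℝ) + A ^ 2 * S := by
    rw [hSe]
    exact (Finset.sum_sdiff u2).symm
  have hEb : 4 * (A ^ 2 * (C₃ + j₀ + Real.log Λ - Real.log δ)) + 1 ≤ Λ ^ (2 * η) := by
    refine le_trans ?_ c4
    have h4 : A ^ 2 * (j₀ : ℝ) ≤ A ^ 2 * (ρ * Real.log Λ + 1) := mul_le_mul_of_nonneg_left hj1 (by positivity)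
    linarith
  have hAS : 1 + PS k α T ≤ 4 * (A ^ 2 * S) := by linarith
  have hS0 : 0 < S := by
    have h4 : 0 < A ^ 2 * S := by linarith
    exact pos_of_mul_pos_right h4 (by positivity)
  have hsqS : Real.sqrt (1 + PS k α T) ≤ 2 * A * Real.sqrt S := by
    calc Real.sqrt (1 + PS k α T) ≤ Real.sqrt (4 * (A ^ 2 * S)) := Real.sqrt_le_sqrt hAS
      _ = Real.sqrt ((2 * A) ^ 2 * S) := by
          congr 1
          ring
      _ = 2 * A * Real.sqrt S := by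
          rw [Real.sqrt_mul (by positivity), Real.sqrt_sq (by positivity)]
  have hsS : 0 < Real.sqrt S := Real.sqrt_pos.2 hS0
  have hPSup : Real.sqrt (1 + PS k α T) ≤ Λ := by
    rw [Real.sqrt_le_left hΛ0.le]
    have h4 : PS k α T ≤ A ^ 2 * (Λ + C₅) := by
      have m1 := (abs_le.1 hmert).2
      calc PS k α T ≤ ∑ p ∈ (Finset.Icc 1 ⌊T⌋₊).filter Nat.Prime, A ^ 2 * (1 / (p : ℝ)) := by
            refine Finset.sum_le_sum fun p _ => ?_
            rw [div_eq_mul_one_div]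
            refine mul_le_mul_of_nonneg_right ?_ (by positivity)
            exact pow_le_pow_left₀ (norm_nonneg _) (norm_apc_le k α hk p) 2
        _ = A ^ 2 * ∑ p ∈ (Finset.Icc 1 ⌊T⌋₊).filter Nat.Prime, (1 / (p : ℝ)) := by rw [Finset.mul_sum]
        _ ≤ _ := mul_le_mul_of_nonneg_left (by linarith) (by positivity)
    have h5 : A ^ 2 * (Λ + C₅) ≤ (A ^ 2 * (1 + C₅)) * Λ := by
      have : A ^ 2 * C₅ * 1 ≤ A ^ 2 * C₅ * Λ := mul_le_mul_of_nonneg_left hΛ1 (by positivity)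
      linarith
    have h6 : (1 + A ^ 2 * (1 + C₅)) * Λ ≤ Λ * Λ := mul_le_mul_of_nonneg_right hLA hΛ0.le
    nlinarith
  have hq1 : 1 / Λ ≤ R / Real.sqrt (1 + PS k α T) := by
    calc 1 / Λ ≤ 1 / Real.sqrt (1 + PS k α T) := one_div_le_one_div_of_le hsq0 hPSup
      _ ≤ _ := by gcongr
  have hq2 : 2 * R / Real.sqrt S ≤ 4 * A * (R / Real.sqrt (1 + PS k α T)) := by
    rw [div_le_iff₀ hsS]
    calc 2 * R = 2 * (R / Real.sqrt (1 + PS k α T)) * Real.sqrt (1 + PS k α T) := by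
          field_simp
      _ ≤ 2 * (R / Real.sqrt (1 + PS k α T)) * (2 * A * Real.sqrt S) := by gcongr
      _ = _ := by ring
  set U : Set ℝ := {t : ℝ | |(ES (δ * Real.log T) (nf A k α) (nf A k fun j => 2 * α j) j₀ t).re - V / A| ≤ 2 * R} with hU
  have hUm : MeasurableSet U := by
    refine measurableSet_le ?_ measurable_const
    exact (((Complex.continuous_re.comp (ES_cont _ _ _ _)).sub continuous_const).abs).measurable
  have hSm : MeasurableSet {t : ℝ | |(SK k α t).re - V| ≤ R} := by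
    refine measurableSet_le ?_ measurable_const
    exact ((Complex.measurable_re.comp (SK_meas hz k α)).sub measurable_const).abs
  have hale : ∀ p, ‖nf A k α p‖ ≤ 1 := nf_le hA hk
  have ha2le : ∀ p, ‖nf A k (fun j => 2 * α j) p‖ ≤ 1 := nf_le hA hk
  have g1 := h2 j₀ hj1 n k α hn hk hα N b hN1 hN hb {t : ℝ | |(SK k α t).re - V| ≤ R} U hSm hUm (fun t _ hts hd => by
    have h4 : |(SK k α t).re - V| ≤ R := hts
    have h5 : Λ ^ (2 * ρ) ≤ R := by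
      have : 2 * ρ = η := by rw [hρd]; ring
      rw [this]
      exact hR
    set x := ES (δ * Real.log T) (nf A k α) (nf A k fun j => 2 * α j) j₀ t with hx
    show |x.re - V / A| ≤ 2 * R
    have h6 : |(SK k α t).re - A * x.re| ≤ A * R := by
      have h7 := (Complex.abs_re_le_norm (SK k α t - (A : ℂ) * x)).trans hd
      rw [Complex.sub_re, Complex.re_ofReal_mul] at h7
      exact h7.trans (mul_le_mul_of_nonneg_left h5 hA0.le)
    have h8 : |A * x.re - V| ≤ R + A * R := by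
      calc |A * x.re - V| = |((SK k α t).re - V) - ((SK k α t).re - A * x.re)| := by
            congr 1
            ring
        _ ≤ |(SK k α t).re - V| + |(SK k α t).re - A * x.re| := abs_sub _ _
        _ ≤ _ := add_le_add h4 h6
    have h9 : A * |x.re - V / A| ≤ A * (2 * R) := by
      calc A * |x.re - V / A| = |A * x.re - V| := by
            rw [← abs_of_pos hA0, ← abs_mul, abs_of_pos hA0]
            congr 1
            field_simp
        _ ≤ R + A * R := h8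
        _ ≤ A * (2 * R) := by nlinarith
    exact le_of_mul_le_mul_left h9 hA0)
  have g2 := h1 (nf A k α) (nf A k fun j => 2 * α j) hale ha2le N b hN1 hN hb j₀ (2 * R) (V / A) (by linarith) hS0
  rw [← hU, ← hS] at g2
  set Q := R / Real.sqrt (1 + PS k α T) with hQ
  calc ∫ t in Set.Ioc T (2 * T) ∩ {t : ℝ | |(SK k α t).re - V| ≤ R}, ‖dp N b t‖ ^ 2 ≤
      (∫ t in Set.Ioc T (2 * T) ∩ U, ‖dp N b t‖ ^ 2) + C₂ / Λ * (T * N2 N b) := g1
    _ ≤ C₁ * (Real.exp (-(A' * j₀)) + 1 / (δ * Real.log T) + 2 * R / Real.sqrt S) * (T * N2 N b) + C₂ / Λ * (T * N2 N b) := by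
        gcongr
    _ ≤ C₁ * (Q + Q + 4 * A * Q) * (T * N2 N b) + C₂ * Q * (T * N2 N b) := by
        refine add_le_add ?_ ?_
        · gcongr
          · exact hj2.trans hq1
          · exact c6.trans hq1
        · rw [div_eq_mul_one_div]
          gcongr
    _ = (C₁ * (2 + 4 * A) + C₂) * Q * (T * N2 N b) := by ring
    _ ≤ _ := by
        refine mul_le_mul_of_nonneg_right ?_ hX
        refine mul_le_mul_of_nonneg_right ?_ hRq
        linarith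

end

end Pool.Agent.Run7.h74.UC
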