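import Pool.Agent.Run7.h74.UC.F4

set_option autoImplicit false

/-! Project UC (helper74): inside the moments of complex orders. -/

namespace Pool.Agent.Run7.h74.UC

open Filter Topology MeasureTheory Complex
open Pool.Agent.Q97.UM
open Pool.Agent.Run7.h74.AE
open Pool.Agent.Q98.UM (S3 S3_nonneg cv_supp supp_zero)
open Run7.h311.CM
open Pool.Agent.Run7.h74.DW (cover)

noncomputable section

/-- the data of the theorem on moments, and the domination by a Dirichlet polynomial -/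
structure MD (A ε θ δ κ W c C T : ℝ) : Prop where
  neg : ∀ α : ℝ, |α| ≤ T / 2 → ∀ N : ℕ, (N : ℝ) ≤ T ^ δ → ∀ b : ℕ → ℂ, (∀ n, b n ≠ 0 → 1 ≤ n ∧ n ≤ N) →
    ∫ t in Set.Ioc T (2 * T) ∩ {t : ℝ | t + α ∉ GGC δ κ A W T}, ‖dp N b t‖ ^ 2 ≤ ε * (T * N2 N b)
  ord : ∀ (n : ℕ) (k : Fin n → ℂ) (α : Fin n → ℝ), (n : ℝ) ≤ A → ∑ j, ‖k j‖ ≤ A → (∀ j, |α j| ≤ T / 2) →
    c * (T * Real.exp (PS k α T)) ≤ ∫ t in SC δ κ A W T α, wz k α t ∧
      ∫ t in SC δ κ A W T α, wz k α t ≤ C * (T * Real.exp (PS k α T))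
  low : ∀ (n : ℕ) (k : Fin n → ℂ) (α : Fin n → ℝ), (n : ℝ) ≤ A → ∑ j, ‖k j‖ ≤ A → (∀ j, |α j| ≤ T / 2) →
    ∀ N : ℕ, (N : ℝ) ≤ T ^ δ → ∀ b : ℕ → ℂ, (∀ n, b n ≠ 0 → 1 ≤ n ∧ n ≤ N) → ∃ (M : ℕ) (f : ℕ → ℂ), (M : ℝ) ≤ T ^ θ ∧
      (∀ m, f m ≠ 0 → 1 ≤ m ∧ m ≤ M) ∧
      c * (T * N2 M f) ≤ ∫ t in SC δ κ A W T α, wz k α t * ‖dp N b t‖ ^ 2 ∧
      IntegrableOn (fun t => wz k α t * ‖dp N b t‖ ^ 2) (SC δ κ A W T α) ∧
      ∀ t ∈ SC δ κ A W T α, wz k α t * ‖dp N b t‖ ^ 2 ≤ C * ‖dp M f t‖ ^ 2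

theorem md_main (hA1 : S_THA) (hz : S_AZM) (A ε θ : ℝ) (hA : 1 ≤ A) (hε : 0 < ε) (hθ : 0 < θ) :
    ∃ δ κ W c C : ℝ, 0 < δ ∧ δ ≤ θ ∧ 4 ≤ κ ∧ 28 * κ * δ ≤ 1 / 8 ∧ 0 < W ∧ 0 < c ∧ 0 < C ∧
      ∀ᶠ T : ℝ in atTop, MD A ε θ δ κ W c C T := by
  classical
  obtain ⟨δ, κ, W, c, C, hδ, hκ, hκδ, hκθ, hW, hc, hC, h⟩ := linc_main hA1 hz A (min ε (1 / (4 * A))) θ hA (by positivity) hθ
  refine ⟨δ, κ, W, min (c / 4) (c ^ 2 / 4), 1 + 2 * C + 2 * C ^ 2, hδ, by nlinarith, hκ, hκδ, hW, by positivity, by positivity, ?_⟩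
  filter_upwards [h, eventually_ge_atTop 16] with T hd hT
  have hT0 : 0 < T := by linarith
  have hT1 : 1 ≤ T := by linarith
  have hA0 : 0 < A := by linarith
  have hmono : ∀ {x y : ℝ}, x ≤ y → T ^ x ≤ T ^ y := fun h => Real.rpow_le_rpow_of_exponent_le hT1 h
  set M := M9 (δ * Real.log T) κ with hM
  have hML : (M : ℝ) ≤ T ^ (26 * κ * δ) := M9_le hT0 (by linarith) hδ.le
  have hMN : ∀ N : ℕ, (N : ℝ) ≤ T ^ δ → ((M * N : ℕ) : ℝ) ≤ T ^ (28 * κ * δ) := by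
    intro N hN
    push_cast
    calc (M : ℝ) * N ≤ T ^ (26 * κ * δ) * T ^ δ := mul_le_mul hML hN (Nat.cast_nonneg _) (by positivity)
      _ = T ^ (26 * κ * δ + δ) := by rw [← Real.rpow_add hT0]
      _ ≤ _ := hmono (by nlinarith)
  -- facts for given data
  have key : ∀ (n : ℕ) (k : Fin n → ℂ) (α : Fin n → ℝ), ∑ j, ‖k j‖ ≤ A → ∀ N : ℕ, (N : ℝ) ≤ T ^ δ → ∀ b : ℕ → ℂ,
      (∀ n, b n ≠ 0 → 1 ≤ n ∧ n ≤ N) →
      (∀ m, cv (ecc δ κ T k α) b m ≠ 0 → 1 ≤ m ∧ m ≤ M * N) ∧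
      (∀ t, (∀ j, t + α j ∈ GGC δ κ A W T) →
        c * ‖dp (M * N) (cv (ecc δ κ T k α) b) t‖ ^ 2 ≤ wz k α t * ‖dp N b t‖ ^ 2 ∧
        wz k α t * ‖dp N b t‖ ^ 2 ≤ C * ‖dp (M * N) (cv (ecc δ κ T k α) b) t‖ ^ 2) ∧
      IntegrableOn (fun t => wz k α t * ‖dp N b t‖ ^ 2) (SC δ κ A W T α) := by
    intro n k α hk N hN b hb
    have hes := hd.supp n k α
    rw [← hM] at hes
    have hFeq : ∀ t, ‖dp M (ecc δ κ T k α) t‖ ^ 2 * ‖dp N b t‖ ^ 2 =
        ‖dp (M * N) (cv (ecc δ κ T k α) b) t‖ ^ 2 := fun t => by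
      rw [← Pool.Agent.Q84.UM.t_DPM.1 M N (ecc δ κ T k α) b t (supp_zero hes) (supp_zero hb), norm_mul, mul_pow]
    have hpt : ∀ t, (∀ j, t + α j ∈ GGC δ κ A W T) →
        c * ‖dp (M * N) (cv (ecc δ κ T k α) b) t‖ ^ 2 ≤ wz k α t * ‖dp N b t‖ ^ 2 ∧
        wz k α t * ‖dp N b t‖ ^ 2 ≤ C * ‖dp (M * N) (cv (ecc δ κ T k α) b) t‖ ^ 2 := by
      intro t ht
      obtain ⟨q1, q2⟩ := hd.pt n k α hk t ht
      rw [← hM] at q1 q2
      rw [← hFeq, ← mul_assoc, ← mul_assoc]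
      exact ⟨mul_le_mul_of_nonneg_right q1 (by positivity), mul_le_mul_of_nonneg_right q2 (by positivity)⟩
    refine ⟨cv_supp hes hb, hpt, ?_⟩
    have hFI : IntegrableOn (fun t => ‖dp (M * N) (cv (ecc δ κ T k α) b) t‖ ^ 2) (SC δ κ A W T α) :=
      ((((Pool.Agent.Q84.UM.t_DPM.2.2 _ _ 0).2.norm.pow 2).integrableOn_Icc (a := T) (b := 2 * T)).mono_set
        Set.Ioc_subset_Icc_self).mono_set Set.inter_subset_left
    have hGc : Measurable fun t => wz k α t * ‖dp N b t‖ ^ 2 :=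
      (wz_meas hz k α).mul ((Pool.Agent.Q84.UM.t_DPM.2.2 N b 0).2.norm.pow 2).measurable
    refine Integrable.mono' (hFI.const_mul C) hGc.aestronglyMeasurable ?_
    refine (ae_restrict_iff' (SC_meas hz δ κ A W T α)).2 (Eventually.of_forall fun t ht => ?_)
    rw [Real.norm_of_nonneg (mul_nonneg (wz_nn k α t) (by positivity))]
    exact (hpt t ht.2).2
  -- lower bounds
  have hlow : ∀ (n : ℕ) (k : Fin n → ℂ) (α : Fin n → ℝ), (n : ℝ) ≤ A → ∑ j, ‖k j‖ ≤ A → (∀ j, |α j| ≤ T / 2) →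
      ∀ N : ℕ, (N : ℝ) ≤ T ^ δ → ∀ b : ℕ → ℂ, (∀ n, b n ≠ 0 → 1 ≤ n ∧ n ≤ N) →
      c / 4 * (T * N2 (M * N) (cv (ecc δ κ T k α) b)) ≤ ∫ t in SC δ κ A W T α, wz k α t * ‖dp N b t‖ ^ 2 := by
    intro n k α hn hk hα N hN b hb
    obtain ⟨hfs, hpt, hint⟩ := key n k α hk N hN b hb
    set f := cv (ecc δ κ T k α) b with hf
    have hlen := hMN N hN
    have hn2 : 0 ≤ T * N2 (M * N) f := mul_nonneg hT0.le (Pool.Agent.Q84.UM.N2_nonneg _ _)
    have hFc : Continuous fun t => ‖dp (M * N) f t‖ ^ 2 := (Pool.Agent.Q84.UM.t_DPM.2.2 _ _ 0).2.norm.pow 2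
    have hFI : IntegrableOn (fun t => ‖dp (M * N) f t‖ ^ 2) (Set.Ioc T (2 * T)) :=
      (hFc.integrableOn_Icc (a := T) (b := 2 * T)).mono_set Set.Ioc_subset_Icc_self
    obtain ⟨m1, -⟩ := Pool.Agent.Q84.UM.t_MVL T hT (M * N) (hlen.trans (hmono (by linarith))) f
    rw [intervalIntegral.integral_of_le (by linarith)] at m1
    have h2 := cover (T := T) α MeasurableSet.univ (GGC_meas hz δ κ A W T) hFI (fun t => by positivity)
    simp only [Set.inter_univ] at h2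
    have h3 : ∑ j, ∫ t in Set.Ioc T (2 * T) ∩ {t : ℝ | t + α j ∉ GGC δ κ A W T}, ‖dp (M * N) f t‖ ^ 2 ≤
        1 / 4 * (T * N2 (M * N) f) := by
      calc ∑ j, ∫ t in Set.Ioc T (2 * T) ∩ {t : ℝ | t + α j ∉ GGC δ κ A W T}, ‖dp (M * N) f t‖ ^ 2
          ≤ ∑ _j : Fin n, (1 / (4 * A)) * (T * N2 (M * N) f) := by
            refine Finset.sum_le_sum fun j _ => ?_
            refine (hd.neg _ (hα j) (M * N) f hlen (supp_zero hfs)).trans ?_
            exact mul_le_mul_of_nonneg_right (min_le_right _ _) hn2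
        _ = ((n : ℝ) * (1 / (4 * A))) * (T * N2 (M * N) f) := by
            rw [Finset.sum_const, Finset.card_univ, Fintype.card_fin, nsmul_eq_mul]
            ring
        _ ≤ 1 / 4 * (T * N2 (M * N) f) := by
            refine mul_le_mul_of_nonneg_right ?_ hn2
            calc (n : ℝ) * (1 / (4 * A)) ≤ A * (1 / (4 * A)) :=
                  mul_le_mul_of_nonneg_right hn (by positivity)
              _ = 1 / 4 := by field_simp
    have h5 : 1 / 4 * (T * N2 (M * N) f) ≤ ∫ t in SC δ κ A W T α, ‖dp (M * N) f t‖ ^ 2 := by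
      have e : SC δ κ A W T α = Set.Ioc T (2 * T) ∩ {t : ℝ | ∀ j, t + α j ∈ GGC δ κ A W T} := rfl
      rw [e]
      linarith
    have hFS : IntegrableOn (fun t => ‖dp (M * N) f t‖ ^ 2) (SC δ κ A W T α) := hFI.mono_set Set.inter_subset_left
    calc c / 4 * (T * N2 (M * N) f) = c * (1 / 4 * (T * N2 (M * N) f)) := by ring
      _ ≤ c * ∫ t in SC δ κ A W T α, ‖dp (M * N) f t‖ ^ 2 := mul_le_mul_of_nonneg_left h5 hc.le
      _ = ∫ t in SC δ κ A W T α, c * ‖dp (M * N) f t‖ ^ 2 := by rw [integral_const_mul]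
      _ ≤ _ := setIntegral_mono_on (hFS.const_mul _) hint (SC_meas hz δ κ A W T α) fun t ht => (hpt t ht.2).1
  have hupp : ∀ (n : ℕ) (k : Fin n → ℂ) (α : Fin n → ℝ), ∑ j, ‖k j‖ ≤ A →
      ∀ N : ℕ, (N : ℝ) ≤ T ^ δ → ∀ b : ℕ → ℂ, (∀ n, b n ≠ 0 → 1 ≤ n ∧ n ≤ N) →
      ∫ t in SC δ κ A W T α, wz k α t * ‖dp N b t‖ ^ 2 ≤ 2 * C * (T * N2 (M * N) (cv (ecc δ κ T k α) b)) := by
    intro n k α hk N hN b hb
    obtain ⟨hfs, hpt, hint⟩ := key n k α hk N hN b hb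
    set f := cv (ecc δ κ T k α) b with hf
    have hlen := hMN N hN
    have hFc : Continuous fun t => ‖dp (M * N) f t‖ ^ 2 := (Pool.Agent.Q84.UM.t_DPM.2.2 _ _ 0).2.norm.pow 2
    have hFI : IntegrableOn (fun t => ‖dp (M * N) f t‖ ^ 2) (Set.Ioc T (2 * T)) :=
      (hFc.integrableOn_Icc (a := T) (b := 2 * T)).mono_set Set.Ioc_subset_Icc_self
    have hSsub : SC δ κ A W T α ⊆ Set.Ioc T (2 * T) := Set.inter_subset_left
    obtain ⟨-, m2⟩ := Pool.Agent.Q84.UM.t_MVL T hT (M * N) (hlen.trans (hmono (by linarith))) f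
    rw [intervalIntegral.integral_of_le (by linarith)] at m2
    calc ∫ t in SC δ κ A W T α, wz k α t * ‖dp N b t‖ ^ 2
        ≤ ∫ t in SC δ κ A W T α, C * ‖dp (M * N) f t‖ ^ 2 :=
          setIntegral_mono_on hint ((hFI.mono_set hSsub).const_mul _) (SC_meas hz δ κ A W T α) fun t ht => (hpt t ht.2).2
      _ = C * ∫ t in SC δ κ A W T α, ‖dp (M * N) f t‖ ^ 2 := by rw [integral_const_mul]
      _ ≤ C * (2 * T * N2 (M * N) f) := by
          refine mul_le_mul_of_nonneg_left ?_ hC.le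
          exact (setIntegral_mono_set hFI (Eventually.of_forall fun t => by
            simp only [Pi.zero_apply]; positivity) (Eventually.of_forall hSsub)).trans m2
      _ = 2 * C * (T * N2 (M * N) f) := by ring
  have h1δ : (1 : ℝ) ≤ T ^ δ := Real.one_le_rpow hT1 hδ.le
  refine ⟨?_, ?_, ?_⟩
  · intro α hα N hN b hb
    refine (hd.neg α hα N b (hN.trans (hmono (by nlinarith))) (supp_zero hb)).trans ?_
    exact mul_le_mul_of_nonneg_right (min_le_left _ _) (mul_nonneg hT0.le (Pool.Agent.Q84.UM.N2_nonneg _ _))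
  · intro n k α hn hk hα
    set b1 : ℕ → ℂ := fun n => if n = 1 then 1 else 0 with hb1
    have hb1s : ∀ n, b1 n ≠ 0 → 1 ≤ n ∧ n ≤ 1 := by
      intro n hn
      rw [hb1] at hn
      by_cases h : n = 1
      · omega
      · exact absurd (if_neg h) hn
    have hdp1 : ∀ t, dp 1 b1 t = 1 := by
      intro t
      unfold dp
      simp [hb1]
    have hcv : N2 (M * 1) (cv (ecc δ κ T k α) b1) = N2 M (ecc δ κ T k α) := by
      have hcv : cv (ecc δ κ T k α) b1 = fun n => if n = 0 then 0 else ecc δ κ T k α n := by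
        funext n
        unfold cv
        by_cases hn : n = 0
        · subst hn
          simp
        · rw [if_neg hn, Finset.sum_eq_single (n, 1)]
          · simp [hb1]
          · intro p hp hpn
            rw [Nat.mem_divisorsAntidiagonal] at hp
            have : p.2 ≠ 1 := fun h => hpn (by
              rw [h, mul_one] at hp
              exact Prod.ext hp.1 h)
            simp [hb1, this]
          · intro h
            exact absurd (Nat.mem_divisorsAntidiagonal.2 ⟨by simp, hn⟩) h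
      rw [mul_one, hcv]
      unfold N2
      refine Finset.sum_congr rfl fun n hn => ?_
      have : n ≠ 0 := by
        have := (Finset.mem_Icc.1 hn).1
        omega
      simp [this]
    have m1 := hlow n k α hn hk hα 1 (by exact_mod_cast h1δ) b1 hb1s
    have m2 := hupp n k α hk 1 (by exact_mod_cast h1δ) b1 hb1s
    simp only [hdp1, norm_one, one_pow, mul_one] at m1 m2
    have hcv' : N2 M (cv (ecc δ κ T k α) b1) = N2 M (ecc δ κ T k α) := by rw [← hcv, mul_one]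
    rw [hcv'] at m1 m2
    obtain ⟨hl, hh⟩ := hd.ord n k α hk
    rw [← hM] at hl hh
    have hx : 0 ≤ T * Real.exp (PS k α T) := by positivity
    constructor
    · refine le_trans ?_ m1
      calc min (c / 4) (c ^ 2 / 4) * (T * Real.exp (PS k α T)) ≤ c ^ 2 / 4 * (T * Real.exp (PS k α T)) :=
            mul_le_mul_of_nonneg_right (min_le_right _ _) hx
        _ = c / 4 * (T * (c * Real.exp (PS k α T))) := by ring
        _ ≤ _ := by gcongr
    · refine m2.trans ?_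
      calc 2 * C * (T * N2 M (ecc δ κ T k α)) ≤ 2 * C * (T * (C * Real.exp (PS k α T))) := by gcongr
        _ = 2 * C ^ 2 * (T * Real.exp (PS k α T)) := by ring
        _ ≤ _ := mul_le_mul_of_nonneg_right (by linarith) hx
  · intro n k α hn hk hα N hN b hb
    obtain ⟨hfs, hpt, hint⟩ := key n k α hk N hN b hb
    refine ⟨M * N, cv (ecc δ κ T k α) b, (hMN N hN).trans (hmono hκθ), hfs, ?_, hint, fun t ht => ?_⟩
    · refine le_trans ?_ (hlow n k α hn hk hα N hN b hb)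
      exact mul_le_mul_of_nonneg_right (min_le_left _ _) (mul_nonneg hT0.le (Pool.Agent.Q84.UM.N2_nonneg _ _))
    · refine (hpt t ht.2).2.trans ?_
      refine mul_le_mul_of_nonneg_right ?_ (by positivity)
      have : 0 ≤ C ^ 2 := by positivity
      linarith

/-- inside the moments -/
lemma inside {A ε θ δ κ W c C T q : ℝ} (hz : S_AZM) (hd : MD A ε θ δ κ W c C T) (hc : 0 < c) (hC : 0 < C) (hq : 0 ≤ q) {X : Set ℝ}
    (hX : MeasurableSet X)
    (h : ∀ (N : ℕ) (b : ℕ → ℂ), (N : ℝ) ≤ T ^ θ → (∀ n, b n ≠ 0 → 1 ≤ n ∧ n ≤ N) →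
      ∫ t in Set.Ioc T (2 * T) ∩ X, ‖dp N b t‖ ^ 2 ≤ q * (T * N2 N b))
    {n : ℕ} {k : Fin n → ℂ} {α : Fin n → ℝ} (hn : (n : ℝ) ≤ A) (hk : ∑ j, ‖k j‖ ≤ A) (hα : ∀ j, |α j| ≤ T / 2)
    {N : ℕ} (hN : (N : ℝ) ≤ T ^ δ) {b : ℕ → ℂ} (hb : ∀ n, b n ≠ 0 → 1 ≤ n ∧ n ≤ N) :
    ∫ t in SC δ κ A W T α ∩ X, wz k α t * ‖dp N b t‖ ^ 2 ≤ C / c * q * ∫ t in SC δ κ A W T α, wz k α t * ‖dp N b t‖ ^ 2 := by
  obtain ⟨M, f, hM, hf, h1, h2, h3⟩ := hd.low n k α hn hk hα N hN b hb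
  have h4 := h M f hM hf
  have hFI : IntegrableOn (fun t => ‖dp M f t‖ ^ 2) (Set.Ioc T (2 * T)) :=
    (((dpc M f).norm.pow 2).integrableOn_Icc (a := T) (b := 2 * T)).mono_set Set.Ioc_subset_Icc_self
  have hSsub : SC δ κ A W T α ⊆ Set.Ioc T (2 * T) := Set.inter_subset_left
  have hsub2 : SC δ κ A W T α ∩ X ⊆ Set.Ioc T (2 * T) ∩ X := Set.inter_subset_inter_left _ hSsub
  have hFX : IntegrableOn (fun t => ‖dp M f t‖ ^ 2) (Set.Ioc T (2 * T) ∩ X) := hFI.mono_set Set.inter_subset_left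
  calc ∫ t in SC δ κ A W T α ∩ X, wz k α t * ‖dp N b t‖ ^ 2 ≤ ∫ t in SC δ κ A W T α ∩ X, C * ‖dp M f t‖ ^ 2 := by
        refine setIntegral_mono_on (h2.mono_set Set.inter_subset_left) ((hFX.mono_set hsub2).const_mul _)
          ((SC_meas hz δ κ A W T α).inter hX) fun t ht => h3 t ht.1
    _ = C * ∫ t in SC δ κ A W T α ∩ X, ‖dp M f t‖ ^ 2 := by rw [integral_const_mul]
    _ ≤ C * ∫ t in Set.Ioc T (2 * T) ∩ X, ‖dp M f t‖ ^ 2 := by
        refine mul_le_mul_of_nonneg_left ?_ hC.le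
        exact setIntegral_mono_set hFX (Eventually.of_forall fun t => by
          simp only [Pi.zero_apply]; positivity) (Eventually.of_forall hsub2)
    _ ≤ C * (q * (T * N2 M f)) := mul_le_mul_of_nonneg_left h4 hC.le
    _ = C / c * q * (c * (T * N2 M f)) := by
        field_simp
    _ ≤ _ := mul_le_mul_of_nonneg_left h1 (by positivity)

end

end Pool.Agent.Run7.h74.UC
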