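import Pool.Agent.Run7.h74.UC.F5

set_option autoImplicit false

/-! Project UC (helper74): Gaussian tails inside the moments of complex orders. -/

namespace Pool.Agent.Run7.h74.UC

open Filter Topology MeasureTheory Complex
open Pool.Agent.Q97.UM
open Pool.Agent.Run7.h74.AE
open Run7.h311.CM

noncomputable section

/-- the centre -/
def cen {n : ℕ} (k l : Fin n → ℂ) (α : Fin n → ℝ) (T : ℝ) : ℝ :=
  ∑ p ∈ (Finset.Icc 1 ⌊T⌋₊).filter Nat.Prime,
    ((∑ j, l j * (p : ℂ) ^ (-(α j * I))) * (starRingEnd ℂ) (∑ j, k j * (p : ℂ) ^ (-(α j * I)))).re / p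

lemma sq_expand (x y : ℂ) (s : ℝ) : ‖x + (s : ℂ) * y‖ ^ 2 = ‖x‖ ^ 2 + 2 * s * (y * (starRingEnd ℂ) x).re + s ^ 2 * ‖y‖ ^ 2 := by
  rw [Complex.sq_norm, Complex.sq_norm, Complex.sq_norm, Complex.normSq_apply, Complex.normSq_apply, Complex.normSq_apply]
  simp only [Complex.add_re, Complex.add_im, Complex.mul_re, Complex.mul_im, Complex.ofReal_re, Complex.ofReal_im,
    Complex.conj_re, Complex.conj_im]
  ring

lemma PS_add {n : ℕ} (k l : Fin n → ℂ) (α : Fin n → ℝ) (T s : ℝ) :
    PS (fun j => k j + (s : ℂ) * l j) α T = PS k α T + 2 * s * cen k l α T + s ^ 2 * PS l α T := by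
  unfold PS cen
  rw [Finset.mul_sum, Finset.mul_sum, ← Finset.sum_add_distrib, ← Finset.sum_add_distrib]
  refine Finset.sum_congr rfl fun p _ => ?_
  have e : apc (fun j => k j + (s : ℂ) * l j) α p = apc k α p + (s : ℂ) * apc l α p := by
    unfold apc
    rw [Finset.mul_sum, ← Finset.sum_add_distrib]
    refine Finset.sum_congr rfl fun j _ => ?_
    ring
  rw [e, sq_expand]
  unfold apc
  ring

lemma SK_add {n : ℕ} (k l : Fin n → ℂ) (α : Fin n → ℝ) (t s : ℝ) :
    (SK (fun j => k j + (s : ℂ) * l j) α t).re = (SK k α t).re + s * (SK l α t).re := by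
  have e : SK (fun j => k j + (s : ℂ) * l j) α t = SK k α t + (s : ℂ) * SK l α t := by
    unfold SK
    rw [Finset.mul_sum, ← Finset.sum_add_distrib]
    refine Finset.sum_congr rfl fun j _ => ?_
    ring
  rw [e, Complex.add_re, Complex.re_ofReal_mul]

lemma wz_exp {n : ℕ} (k : Fin n → ℂ) (α : Fin n → ℝ) {t : ℝ} (h : ∀ j, zt (t + α j) ≠ 0) :
    wz k α t = Real.exp (2 * (SK k α t).re) := by
  unfold SK wz
  rw [Complex.re_sum, Finset.mul_sum, Real.exp_sum]
  refine Finset.prod_congr rfl fun j _ => ?_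
  have h0 : 0 < ‖zt (t + α j)‖ := norm_pos_iff.2 (h j)
  rw [Real.rpow_def_of_pos h0, ← Real.exp_add]
  congr 1
  have e : (k j * LZ (t + α j)).re = (k j).re * Real.log ‖zt (t + α j)‖ - (k j).im * az (t + α j) := by
    have h1 : (LZ (t + α j)).re = Real.log ‖zt (t + α j)‖ := by
      unfold LZ
      simp
    have h2 : (LZ (t + α j)).im = az (t + α j) := by
      unfold LZ
      simp
    rw [Complex.mul_re, h1, h2]
  rw [e]
  ring

lemma md_int {A ε θ δ κ W c C T : ℝ} (hd : MD A ε θ δ κ W c C T) (hT : 1 ≤ T) (hδ : 0 < δ)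
    {n : ℕ} {k : Fin n → ℂ} {α : Fin n → ℝ} (hn : (n : ℝ) ≤ A) (hk : ∑ j, ‖k j‖ ≤ A) (hα : ∀ j, |α j| ≤ T / 2) :
    IntegrableOn (wz k α) (SC δ κ A W T α) := by
  set b1 : ℕ → ℂ := fun n => if n = 1 then 1 else 0 with hb1
  have hb1s : ∀ n, b1 n ≠ 0 → 1 ≤ n ∧ n ≤ 1 := by
    intro n hn
    rw [hb1] at hn
    by_cases h : n = 1
    · omega
    · exact absurd (if_neg h) hn
  have hdp1 : ∀ t, dp 1 b1 t = 1 := by
    intro t
    unfold dp
    simp [hb1]
  have h1δ : (1 : ℝ) ≤ T ^ δ := Real.one_le_rpow hT hδ.le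
  obtain ⟨M, f, -, -, -, h2, -⟩ := hd.low n k α hn hk hα 1 (by exact_mod_cast h1δ) b1 hb1s
  simpa [hdp1] using h2

/-- **Gaussian tails inside the moments** -/
lemma tails {A ε θ δ κ W c C T : ℝ} (hz : S_AZM) (hd : MD A ε θ δ κ W c C T) (hT : 1 ≤ T) (hδ : 0 < δ) (hc : 0 < c) (hC : 0 < C)
    {n : ℕ} {k l : Fin n → ℂ} {α : Fin n → ℝ} {s lam : ℝ} (hn : (n : ℝ) ≤ A) (hs : 0 ≤ s) (hk : ∑ j, ‖k j‖ + s * ∑ j, ‖l j‖ ≤ A)
    (hα : ∀ j, |α j| ≤ T / 2) :
    ∫ t in SC δ κ A W T α ∩ {t : ℝ | lam ≤ |(SK l α t).re - cen k l α T|}, wz k α t ≤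
      2 * (C / c) * Real.exp (s ^ 2 * PS l α T - 2 * s * lam) * ∫ t in SC δ κ A W T α, wz k α t := by
  have hl0 : 0 ≤ s * ∑ j, ‖l j‖ := mul_nonneg hs (Finset.sum_nonneg fun j _ => norm_nonneg _)
  have hkA : ∑ j, ‖k j‖ ≤ A := by linarith
  have hks : ∀ r : ℝ, |r| = s → ∑ j, ‖k j + (r : ℂ) * l j‖ ≤ A := by
    intro r hr
    refine le_trans ?_ hk
    rw [Finset.mul_sum, ← Finset.sum_add_distrib]
    refine Finset.sum_le_sum fun j _ => ?_
    refine (norm_add_le _ _).trans ?_
    rw [norm_mul, Complex.norm_real, Real.norm_eq_abs, hr]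
  have hs1 : |s| = s := abs_of_nonneg hs
  have hs2 : |(-s)| = s := by rw [abs_neg, hs1]
  set x := cen k l α T with hx
  set S := SC δ κ A W T α with hS
  have hSm : MeasurableSet S := SC_meas hz δ κ A W T α
  have hXm : MeasurableSet {t : ℝ | lam ≤ |(SK l α t).re - x|} :=
    measurableSet_le measurable_const ((Complex.measurable_re.comp (SK_meas hz l α)).sub measurable_const).abs
  have i0 := md_int hd hT hδ hn hkA hα
  have i1 := md_int hd hT hδ hn (hks s hs1) hα
  have i2 := md_int hd hT hδ hn (hks (-s) hs2) hα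
  obtain ⟨o0, -⟩ := hd.ord n k α hn hkA hα
  obtain ⟨-, o1⟩ := hd.ord n _ α hn (hks s hs1) hα
  obtain ⟨-, o2⟩ := hd.ord n _ α hn (hks (-s) hs2) hα
  rw [PS_add] at o1 o2
  rw [← hx] at o1 o2
  set F : ℝ → ℝ := fun t => Real.exp (-(2 * s * (x + lam))) * wz (fun j => k j + (s : ℂ) * l j) α t +
    Real.exp (2 * s * (x - lam)) * wz (fun j => k j + ((-s : ℝ) : ℂ) * l j) α t with hF
  have hFi : IntegrableOn F S := (i1.const_mul _).add (i2.const_mul _)
  have hF0 : ∀ t, 0 ≤ F t := fun t => by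
    have h1 := wz_nn (fun j => k j + (s : ℂ) * l j) α t
    have h2 := wz_nn (fun j => k j + ((-s : ℝ) : ℂ) * l j) α t
    simp only [hF]
    positivity
  have step1 : ∫ t in S ∩ {t : ℝ | lam ≤ |(SK l α t).re - x|}, wz k α t ≤ ∫ t in S, F t := by
    calc ∫ t in S ∩ {t : ℝ | lam ≤ |(SK l α t).re - x|}, wz k α t ≤ ∫ t in S ∩ {t : ℝ | lam ≤ |(SK l α t).re - x|}, F t := by
          refine setIntegral_mono_on (i0.mono_set Set.inter_subset_left) (hFi.mono_set Set.inter_subset_left) (hSm.inter hXm)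
            fun t ht => ?_
          have hne : ∀ j, zt (t + α j) ≠ 0 := fun j => (ht.1.2 j).1.1
          have hy : lam ≤ |(SK l α t).re - x| := ht.2
          simp only [hF]
          rw [wz_exp k α hne, wz_exp _ α hne, wz_exp _ α hne, SK_add, SK_add, ← Real.exp_add, ← Real.exp_add]
          have e1 : -(2 * s * (x + lam)) + 2 * ((SK k α t).re + s * (SK l α t).re) =
              2 * (SK k α t).re + 2 * s * (((SK l α t).re - x) - lam) := by ring
          have e2 : 2 * s * (x - lam) + 2 * ((SK k α t).re + -s * (SK l α t).re) =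
              2 * (SK k α t).re + 2 * s * (-((SK l α t).re - x) - lam) := by ring
          rw [e1, e2]
          rcases le_abs.1 hy with h | h
          · have h1 : Real.exp (2 * (SK k α t).re) ≤ Real.exp (2 * (SK k α t).re + 2 * s * (((SK l α t).re - x) - lam)) := by
              apply Real.exp_le_exp.2
              have : 0 ≤ 2 * s * (((SK l α t).re - x) - lam) := mul_nonneg (by linarith) (by linarith)
              linarith
            have h2 := Real.exp_pos (2 * (SK k α t).re + 2 * s * (-((SK l α t).re - x) - lam))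
            linarith
          · have h1 : Real.exp (2 * (SK k α t).re) ≤ Real.exp (2 * (SK k α t).re + 2 * s * (-((SK l α t).re - x) - lam)) := by
              apply Real.exp_le_exp.2
              have : 0 ≤ 2 * s * (-((SK l α t).re - x) - lam) := mul_nonneg (by linarith) (by linarith)
              linarith
            have h2 := Real.exp_pos (2 * (SK k α t).re + 2 * s * (((SK l α t).re - x) - lam))
            linarith
      _ ≤ ∫ t in S, F t := setIntegral_mono_set hFi (Eventually.of_forall fun t => hF0 t)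
          (Eventually.of_forall Set.inter_subset_left)
  have step2 : ∫ t in S, F t = Real.exp (-(2 * s * (x + lam))) * (∫ t in S, wz (fun j => k j + (s : ℂ) * l j) α t) +
      Real.exp (2 * s * (x - lam)) * ∫ t in S, wz (fun j => k j + ((-s : ℝ) : ℂ) * l j) α t := by
    simp only [hF]
    rw [integral_add (i1.const_mul _) (i2.const_mul _), integral_const_mul, integral_const_mul]
  have b1 : Real.exp (-(2 * s * (x + lam))) * (∫ t in S, wz (fun j => k j + (s : ℂ) * l j) α t) ≤
      C * Real.exp (s ^ 2 * PS l α T - 2 * s * lam) * (T * Real.exp (PS k α T)) := by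
    calc Real.exp (-(2 * s * (x + lam))) * (∫ t in S, wz (fun j => k j + (s : ℂ) * l j) α t) ≤
        Real.exp (-(2 * s * (x + lam))) * (C * (T * Real.exp (PS k α T + 2 * s * x + s ^ 2 * PS l α T))) :=
          mul_le_mul_of_nonneg_left o1 (Real.exp_pos _).le
      _ = C * T * (Real.exp (-(2 * s * (x + lam))) * Real.exp (PS k α T + 2 * s * x + s ^ 2 * PS l α T)) := by ring
      _ = C * T * (Real.exp (s ^ 2 * PS l α T - 2 * s * lam) * Real.exp (PS k α T)) := by
          rw [← Real.exp_add, ← Real.exp_add]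
          congr 2
          ring
      _ = _ := by ring
  have b2 : Real.exp (2 * s * (x - lam)) * (∫ t in S, wz (fun j => k j + ((-s : ℝ) : ℂ) * l j) α t) ≤
      C * Real.exp (s ^ 2 * PS l α T - 2 * s * lam) * (T * Real.exp (PS k α T)) := by
    calc Real.exp (2 * s * (x - lam)) * (∫ t in S, wz (fun j => k j + ((-s : ℝ) : ℂ) * l j) α t) ≤
        Real.exp (2 * s * (x - lam)) * (C * (T * Real.exp (PS k α T + 2 * -s * x + (-s) ^ 2 * PS l α T))) :=
          mul_le_mul_of_nonneg_left o2 (Real.exp_pos _).le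
      _ = C * T * (Real.exp (2 * s * (x - lam)) * Real.exp (PS k α T + 2 * -s * x + (-s) ^ 2 * PS l α T)) := by ring
      _ = C * T * (Real.exp (s ^ 2 * PS l α T - 2 * s * lam) * Real.exp (PS k α T)) := by
          rw [← Real.exp_add, ← Real.exp_add]
          congr 2
          ring
      _ = _ := by ring
  have b3 : T * Real.exp (PS k α T) ≤ (1 / c) * ∫ t in S, wz k α t := by
    rw [one_div, ← div_eq_inv_mul, le_div_iff₀ hc]
    linarith
  calc ∫ t in S ∩ {t : ℝ | lam ≤ |(SK l α t).re - x|}, wz k α t ≤ ∫ t in S, F t := step1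
    _ ≤ 2 * (C * Real.exp (s ^ 2 * PS l α T - 2 * s * lam) * (T * Real.exp (PS k α T))) := by
        rw [step2]
        linarith
    _ ≤ 2 * (C * Real.exp (s ^ 2 * PS l α T - 2 * s * lam) * ((1 / c) * ∫ t in S, wz k α t)) := by gcongr
    _ = _ := by
        ring

end

end Pool.Agent.Run7.h74.UC
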