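import Pool.Agent.Run7.h74.UC.Iface

/-!
# Project UC (helper74), piece MEA (helper304): Toeplitz operators compute mean values
-/

set_option autoImplicit false

namespace Pool.Agent.Run7.h304.UC

open Filter Topology MeasureTheory Complex
open Pool.Agent.Run7.h74.UC

noncomputable section


/-! ### finitely supported sequences -/

theorem FSadd {u v : ℕ → ℂ} (hu : FS u) (hv : FS v) : FS (fun n => u n + v n) :=
  ⟨by simp [hu.1, hv.1], (hu.2.union hv.2).subset (Function.support_add u v)⟩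

theorem FSsmul {u : ℕ → ℂ} (hu : FS u) (c : ℂ) : FS (fun n => c * u n) :=
  ⟨by simp [hu.1], hu.2.subset (Function.support_const_smul_subset c u)⟩

theorem FSsub {u v : ℕ → ℂ} (hu : FS u) (hv : FS v) : FS (fun n => u n - v n) := by
  have := FSadd hu (FSsmul hv (-1))
  simpa [sub_eq_add_neg] using this

theorem FS_Sh {p : ℕ} (hp : 1 ≤ p) {u : ℕ → ℂ} (hu : FS u) : FS (Sh p u) := by
  refine ⟨by simp [Sh, hu.1], ?_⟩
  refine (hu.2.image (fun n => p * n)).subset ?_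
  intro n hn
  rw [Function.mem_support] at hn
  unfold Sh at hn
  split_ifs at hn with h
  · exact ⟨n / p, hn, Nat.mul_div_cancel' h⟩
  · exact absurd rfl hn

theorem FS_Sa {p : ℕ} (hp : 1 ≤ p) {u : ℕ → ℂ} (hu : FS u) : FS (Sa p u) := by
  refine ⟨by simp [Sa, hu.1], ?_⟩
  have hinj : Function.Injective (fun n : ℕ => p * n) := fun a b h => Nat.eq_of_mul_eq_mul_left (by omega) h
  exact hu.2.preimage (f := fun n : ℕ => p * n) hinj.injOn

theorem FS_Tp {p : ℕ} (hp : 1 ≤ p) (w v : ℂ) {u : ℕ → ℂ} (hu : FS u) : FS (Tp p w v u) := by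
  have s1 := FS_Sh hp hu
  have s2 := FS_Sa hp hu
  have s3 := FS_Sh hp s1
  have s4 := FS_Sa hp s2
  have := FSsub (FSadd (FSadd hu (FSsmul (FSadd (FSsmul s1 w) (FSsmul s2 ((starRingEnd ℂ) w))) (I / 2)))
    (FSsmul (FSadd (FSsmul s3 v) (FSsmul s4 ((starRingEnd ℂ) v))) (I / 2)))
    (FSsmul (FSadd (FSadd (FSsmul s3 (w ^ 2)) (FSsmul s4 ((starRingEnd ℂ) w ^ 2))) (FSsmul hu (2 * ((‖w‖ ^ 2 : ℝ) : ℂ)))) (1 / 8))
  exact this

theorem FS_TL (w v : ℕ → ℂ) : ∀ (L : List ℕ), (∀ p ∈ L, p.Prime) → ∀ u : ℕ → ℂ, FS u → FS (TL w v L u)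
  | [], _, _, hu => hu
  | (p :: L), hL, u, hu => FS_Tp (hL p List.mem_cons_self).one_lt.le _ _
      (FS_TL w v L (fun q hq => hL q (List.mem_cons_of_mem _ hq)) u hu)

/-! ### commutation -/

theorem Sh_comm {p q : ℕ} (hp : p.Prime) (hq : q.Prime) (hpq : p ≠ q) (u : ℕ → ℂ) : Sh q (Sh p u) = Sh p (Sh q u) := by
  funext n
  have hc : Nat.Coprime p q := (Nat.coprime_primes hp hq).2 hpq
  unfold Sh
  by_cases h1 : q ∣ n
  · by_cases h2 : p ∣ n
    · have h3 : p ∣ n / q := (hc.dvd_of_dvd_mul_left (by rwa [Nat.mul_div_cancel' h1]))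
      have h4 : q ∣ n / p := (hc.symm.dvd_of_dvd_mul_left (by rwa [Nat.mul_div_cancel' h2]))
      rw [if_pos h1, if_pos h3, if_pos h2, if_pos h4, Nat.div_div_eq_div_mul, Nat.div_div_eq_div_mul, mul_comm]
    · have h3 : ¬ p ∣ n / q := fun h => h2 (h.trans (Nat.div_dvd_of_dvd h1))
      rw [if_pos h1, if_neg h3, if_neg h2]
  · by_cases h2 : p ∣ n
    · have h4 : ¬ q ∣ n / p := fun h => h1 (h.trans (Nat.div_dvd_of_dvd h2))
      rw [if_neg h1, if_pos h2, if_neg h4]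
    · rw [if_neg h1, if_neg h2]

theorem Sa_Sh {p q : ℕ} (hp : p.Prime) (hq : q.Prime) (hpq : p ≠ q) (u : ℕ → ℂ) : Sa q (Sh p u) = Sh p (Sa q u) := by
  funext n
  have hc : Nat.Coprime p q := (Nat.coprime_primes hp hq).2 hpq
  unfold Sa Sh
  by_cases h2 : p ∣ n
  · have h1 : p ∣ q * n := h2.mul_left _
    rw [if_pos h1, if_pos h2, Nat.mul_div_assoc _ h2]
  · have h1 : ¬ p ∣ q * n := fun h => h2 (hc.dvd_of_dvd_mul_left h)
    rw [if_neg h1, if_neg h2]

theorem Tp_Sh {p q : ℕ} (hp : p.Prime) (hq : q.Prime) (hpq : p ≠ q) (w v : ℂ) (u : ℕ → ℂ) :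
    Tp q w v (Sh p u) = Sh p (Tp q w v u) := by
  have e1 := Sh_comm hp hq hpq u
  have e2 := Sa_Sh hp hq hpq u
  have e3 : Sh q (Sh q (Sh p u)) = Sh p (Sh q (Sh q u)) := by rw [e1, Sh_comm hp hq hpq]
  have e4 : Sa q (Sa q (Sh p u)) = Sh p (Sa q (Sa q u)) := by rw [e2, Sa_Sh hp hq hpq]
  funext n
  unfold Tp
  rw [e3, e4, e1, e2]
  by_cases h : p ∣ n
  · simp only [Sh, if_pos h]
  · simp only [Sh, if_neg h]
    ring

theorem TL_Sh (w v : ℕ → ℂ) {p : ℕ} (hp : p.Prime) : ∀ (L : List ℕ), (∀ q ∈ L, q.Prime) → p ∉ L → ∀ u : ℕ → ℂ,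
    TL w v L (Sh p u) = Sh p (TL w v L u)
  | [], _, _, _ => rfl
  | (q :: L), hL, hpL, u => by
      have hq := hL q List.mem_cons_self
      have hne : p ≠ q := fun h => hpL (h ▸ List.mem_cons_self)
      have ih := TL_Sh w v hp L (fun r hr => hL r (List.mem_cons_of_mem _ hr)) (fun h => hpL (List.mem_cons_of_mem _ h)) u
      show Tp q (w q) (v q) (TL w v L (Sh p u)) = Sh p (Tp q (w q) (v q) (TL w v L u))
      rw [ih, Tp_Sh hp hq hne]

/-! ### the finite Dirichlet series -/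

theorem Fd_summable {u : ℕ → ℂ} (hu : FS u) (t : ℝ) : Summable fun n => u n * (n : ℂ) ^ (-(t * I)) := by
  refine summable_of_hasFiniteSupport (hu.2.subset ?_)
  intro n hn
  rw [Function.mem_support] at hn ⊢
  intro h
  exact hn (by rw [h, zero_mul])

theorem Fd_add {u v : ℕ → ℂ} (hu : FS u) (hv : FS v) (t : ℝ) : Fd (fun n => u n + v n) t = Fd u t + Fd v t := by
  unfold Fd
  rw [← (Fd_summable hu t).tsum_add (Fd_summable hv t)]
  exact tsum_congr fun n => by ring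

theorem Fd_smul (u : ℕ → ℂ) (c : ℂ) (t : ℝ) : Fd (fun n => c * u n) t = c * Fd u t := by
  unfold Fd
  rw [← tsum_mul_left]
  exact tsum_congr fun n => by ring

theorem Fd_sub {u v : ℕ → ℂ} (hu : FS u) (hv : FS v) (t : ℝ) : Fd (fun n => u n - v n) t = Fd u t - Fd v t := by
  unfold Fd
  rw [← (Fd_summable hu t).tsum_sub (Fd_summable hv t)]
  exact tsum_congr fun n => by ring

theorem Fd_cont {u : ℕ → ℂ} (hu : FS u) : Continuous (Fd u) := by
  have h : Fd u = fun t : ℝ => ∑ n ∈ hu.2.toFinset, u n * (n : ℂ) ^ (-(t * I)) := by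
    funext t
    unfold Fd
    refine tsum_eq_sum fun n hn => ?_
    rw [Set.Finite.mem_toFinset, Function.mem_support, not_not] at hn
    rw [hn, zero_mul]
  rw [h]
  refine continuous_finsetSum _ fun n hn => ?_
  have hn0 : n ≠ 0 := by
    rintro rfl
    rw [Set.Finite.mem_toFinset, Function.mem_support] at hn
    exact hn hu.1
  refine continuous_const.mul ?_
  exact Continuous.const_cpow (by fun_prop) (Or.inl (by exact_mod_cast hn0))

theorem inj_mul {p : ℕ} (hp : 1 ≤ p) : Function.Injective (fun n : ℕ => p * n) :=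
  fun a b h => Nat.eq_of_mul_eq_mul_left (by omega) h

theorem Fd_Sh {p : ℕ} (hp : 1 ≤ p) (u : ℕ → ℂ) (t : ℝ) : Fd (Sh p u) t = (p : ℂ) ^ (-(t * I)) * Fd u t := by
  unfold Fd
  rw [← (inj_mul hp).tsum_eq (f := fun n => Sh p u n * (n : ℂ) ^ (-(t * I))), ← tsum_mul_left]
  · refine tsum_congr fun n => ?_
    have h1 : Sh p u (p * n) = u n := by
      unfold Sh
      rw [if_pos (dvd_mul_right p n), Nat.mul_div_cancel_left _ (by omega)]
    rw [h1, Nat.cast_mul, Complex.natCast_mul_natCast_cpow]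
    ring
  · intro n hn
    rw [Function.mem_support] at hn
    unfold Sh at hn
    split_ifs at hn with h
    · exact ⟨n / p, Nat.mul_div_cancel' h⟩
    · exact absurd (zero_mul _) hn

/-! ### mean values -/

def Mv (F : ℝ → ℂ) (V : ℝ) : ℂ := ((V⁻¹ : ℝ) : ℂ) * ∫ t in V..(2 * V), F t

def Eq0 (F G : ℝ → ℂ) : Prop := Tendsto (fun V => Mv F V - Mv G V) atTop (𝓝 0)

theorem Eq0.refl (F : ℝ → ℂ) : Eq0 F F := by
  unfold Eq0
  simp

theorem Eq0.trans {F G H : ℝ → ℂ} (h1 : Eq0 F G) (h2 : Eq0 G H) : Eq0 F H := by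
  have h := Tendsto.add h1 h2
  rw [add_zero] at h
  exact h.congr fun V => by ring

theorem Mv_add {F G : ℝ → ℂ} (hF : Continuous F) (hG : Continuous G) (V : ℝ) :
    Mv (fun t => F t + G t) V = Mv F V + Mv G V := by
  unfold Mv
  rw [intervalIntegral.integral_add (hF.intervalIntegrable _ _) (hG.intervalIntegrable _ _)]
  ring

theorem Mv_smul (c : ℂ) (F : ℝ → ℂ) (V : ℝ) : Mv (fun t => c * F t) V = c * Mv F V := by
  unfold Mv
  rw [intervalIntegral.integral_const_mul]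
  ring

theorem Eq0.smul {F G : ℝ → ℂ} (c : ℂ) (h : Eq0 F G) : Eq0 (fun t => c * F t) (fun t => c * G t) := by
  have := Tendsto.const_mul c h
  rw [mul_zero] at this
  refine this.congr fun V => ?_
  rw [Mv_smul, Mv_smul]
  ring

theorem Eq0.add {F G F' G' : ℝ → ℂ} (hF : Continuous F) (hG : Continuous G) (hF' : Continuous F')
    (hG' : Continuous G') (h : Eq0 F G) (h' : Eq0 F' G') : Eq0 (fun t => F t + F' t) (fun t => G t + G' t) := by
  have := Tendsto.add h h'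
  rw [add_zero] at this
  refine this.congr fun V => ?_
  rw [Mv_add hF hF', Mv_add hG hG']
  ring

/-! ### the adjoint shift -/

theorem sum_eq {p m n : ℕ} (hp : p.Prime) (hm : ¬ p ∣ m) (hn : ¬ p ∣ n) (hn1 : 1 ≤ n) (h g : ℕ → ℂ) :
    ∑' k, Sh m h k * (starRingEnd ℂ) (Sh n (Sh p g) k) = ∑' k, Sh m (Sa p h) k * (starRingEnd ℂ) (Sh n g k) := by
  have hcm : Nat.Coprime p m := (Nat.Prime.coprime_iff_not_dvd hp).2 hm
  have hcn : Nat.Coprime p n := (Nat.Prime.coprime_iff_not_dvd hp).2 hn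
  rw [← (inj_mul hp.one_lt.le).tsum_eq (f := fun k => Sh m h k * (starRingEnd ℂ) (Sh n (Sh p g) k))]
  · refine tsum_congr fun k => ?_
    have e1 : Sh m h (p * k) = Sh m (Sa p h) k := by
      unfold Sh Sa
      by_cases h1 : m ∣ k
      · rw [if_pos (h1.mul_left p), if_pos h1, Nat.mul_div_assoc _ h1]
      · rw [if_neg (fun h2 => h1 (hcm.symm.dvd_of_dvd_mul_left h2)), if_neg h1]
    have e2 : Sh n (Sh p g) (p * k) = Sh n g k := by
      unfold Sh
      by_cases h1 : n ∣ k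
      · rw [if_pos (h1.mul_left p), if_pos h1, Nat.mul_div_assoc _ h1, if_pos (dvd_mul_right _ _),
          Nat.mul_div_cancel_left _ hp.pos]
      · rw [if_neg (fun h2 => h1 (hcn.symm.dvd_of_dvd_mul_left h2)), if_neg h1]
    show Sh m h (p * k) * (starRingEnd ℂ) (Sh n (Sh p g) (p * k)) = _
    rw [e1, e2]
  · intro k hk
    rw [Function.mem_support] at hk
    have h1 : Sh n (Sh p g) k ≠ 0 := by
      intro h0
      rw [h0, map_zero, mul_zero] at hk
      exact hk rfl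
    unfold Sh at h1
    split_ifs at h1 with h2 h3
    · have h4 : p ∣ k := h3.trans (Nat.div_dvd_of_dvd h2)
      exact ⟨k / p, Nat.mul_div_cancel' h4⟩
    · exact absurd rfl h1
    · exact absurd rfl h1

theorem cj_cpow (n : ℕ) (t : ℝ) : (starRingEnd ℂ) ((n : ℂ) ^ (-(t * I))) = (n : ℂ) ^ (t * I) := by
  rcases Nat.eq_zero_or_pos n with rfl | hn
  · by_cases ht : t = 0
    · simp [ht]
    · have h1 : -((t : ℂ) * I) ≠ 0 := by simp [ht]
      have h2 : (t : ℂ) * I ≠ 0 := by simp [ht]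
      rw [Nat.cast_zero, Complex.zero_cpow h1, Complex.zero_cpow h2, map_zero]
  · have h := Complex.cpow_conj (n : ℂ) (-(t * I)) (by rw [Complex.natCast_arg]; exact Real.pi_ne_zero.symm)
    rw [Complex.conj_natCast] at h
    rw [← h]
    simp

theorem lemA_gen {L : List ℕ} {p : ℕ} (hp : p.Prime) (hpL : p ∈ L) (hL : S_LIM) {m n : ℕ} (hm1 : 1 ≤ m) (hn1 : 1 ≤ n)
    (hmn : ∀ q ∈ L, ¬ q ∣ m ∧ ¬ q ∣ n) {h g : ℕ → ℂ} (hh : FS h) (hg : FS g) :
    Eq0 (fun t => (m : ℂ) ^ (-(t * I)) * (n : ℂ) ^ (t * I) * Fd h t * (starRingEnd ℂ) (Fd (Sh p g) t))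
      (fun t => (m : ℂ) ^ (-(t * I)) * (n : ℂ) ^ (t * I) * Fd (Sa p h) t * (starRingEnd ℂ) (Fd g t)) := by
  have hp1 := hp.one_lt.le
  have key : ∀ (u v : ℕ → ℂ) (t : ℝ), (m : ℂ) ^ (-(t * I)) * (n : ℂ) ^ (t * I) * Fd u t * (starRingEnd ℂ) (Fd v t) =
      Fd (Sh m u) t * (starRingEnd ℂ) (Fd (Sh n v) t) := by
    intro u v t
    rw [Fd_Sh hm1, Fd_Sh hn1, map_mul, cj_cpow]
    ring
  simp_rw [key]
  have l1 := hL (Sh m h) (Sh n (Sh p g)) (FS_Sh hm1 hh) (FS_Sh hn1 (FS_Sh hp1 hg))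
  have l2 := hL (Sh m (Sa p h)) (Sh n g) (FS_Sh hm1 (FS_Sa hp1 hh)) (FS_Sh hn1 hg)
  rw [sum_eq hp (hmn p hpL).1 (hmn p hpL).2 hn1] at l1
  have := l1.sub l2
  rw [sub_self] at this
  exact this

theorem TR_cont {L : List ℕ} {Φ : ℝ → ℂ} (h : Φ ∈ TR L) : Continuous Φ := by
  unfold TR at h
  induction h using Submodule.span_induction with
  | mem x hx =>
    obtain ⟨m, n, hm, hn, -, rfl⟩ := hx
    refine Continuous.mul ?_ ?_
    · exact Continuous.const_cpow (by fun_prop) (Or.inl (by exact_mod_cast (by omega : m ≠ 0)))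
    · exact Continuous.const_cpow (by fun_prop) (Or.inl (by exact_mod_cast (by omega : n ≠ 0)))
  | zero => exact continuous_zero
  | add x y _ _ hx hy => exact hx.add hy
  | smul a x _ hx => exact hx.const_smul a

theorem lemA {L : List ℕ} {p : ℕ} (hp : p.Prime) (hpL : p ∈ L) (hL : S_LIM) {Φ : ℝ → ℂ} (hΦ : Φ ∈ TR L)
    {h g : ℕ → ℂ} (hh : FS h) (hg : FS g) :
    Eq0 (fun t => Φ t * Fd h t * (starRingEnd ℂ) (Fd (Sh p g) t)) (fun t => Φ t * Fd (Sa p h) t * (starRingEnd ℂ) (Fd g t)) := by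
  have hp1 := hp.one_lt.le
  have c1 := Fd_cont hh
  have c2 := Fd_cont (FS_Sh hp1 hg)
  have c3 := Fd_cont (FS_Sa hp1 hh)
  have c4 := Fd_cont hg
  have c2' : Continuous fun t => (starRingEnd ℂ) (Fd (Sh p g) t) := Complex.continuous_conj.comp c2
  have c4' : Continuous fun t => (starRingEnd ℂ) (Fd g t) := Complex.continuous_conj.comp c4
  unfold TR at hΦ
  induction hΦ using Submodule.span_induction with
  | mem x hx =>
    obtain ⟨m, n, hm, hn, hmn, rfl⟩ := hx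
    exact lemA_gen hp hpL hL hm hn hmn hh hg
  | zero =>
    have : Eq0 (fun _ => (0 : ℂ)) (fun _ => (0 : ℂ)) := Eq0.refl _
    simpa using this
  | add x y hx hy hx' hy' =>
    have cx : Continuous x := TR_cont (L := L) hx
    have cy : Continuous y := TR_cont (L := L) hy
    have k1 : Continuous fun t => x t * Fd h t * (starRingEnd ℂ) (Fd (Sh p g) t) := (cx.mul c1).mul c2'
    have k2 : Continuous fun t => x t * Fd (Sa p h) t * (starRingEnd ℂ) (Fd g t) := (cx.mul c3).mul c4'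
    have k3 : Continuous fun t => y t * Fd h t * (starRingEnd ℂ) (Fd (Sh p g) t) := (cy.mul c1).mul c2'
    have k4 : Continuous fun t => y t * Fd (Sa p h) t * (starRingEnd ℂ) (Fd g t) := (cy.mul c3).mul c4'
    have := Eq0.add k1 k2 k3 k4 hx' hy'
    refine this.congr' ?_
    refine Filter.Eventually.of_forall fun V => ?_
    have e1 : (fun t => x t * Fd h t * (starRingEnd ℂ) (Fd (Sh p g) t) + y t * Fd h t * (starRingEnd ℂ) (Fd (Sh p g) t)) =
        fun t => (x + y) t * Fd h t * (starRingEnd ℂ) (Fd (Sh p g) t) := by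
      funext t; simp only [Pi.add_apply]; ring
    have e2 : (fun t => x t * Fd (Sa p h) t * (starRingEnd ℂ) (Fd g t) + y t * Fd (Sa p h) t * (starRingEnd ℂ) (Fd g t)) =
        fun t => (x + y) t * Fd (Sa p h) t * (starRingEnd ℂ) (Fd g t) := by
      funext t; simp only [Pi.add_apply]; ring
    show Mv _ V - Mv _ V = Mv _ V - Mv _ V
    rw [← e1, ← e2]
  | smul a x hx hx' =>
    have := Eq0.smul a hx'
    refine this.congr' ?_
    refine Filter.Eventually.of_forall fun V => ?_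
    have e1 : (fun t => a * (x t * Fd h t * (starRingEnd ℂ) (Fd (Sh p g) t))) =
        fun t => (a • x) t * Fd h t * (starRingEnd ℂ) (Fd (Sh p g) t) := by
      funext t; simp only [Pi.smul_apply, smul_eq_mul]; ring
    have e2 : (fun t => a * (x t * Fd (Sa p h) t * (starRingEnd ℂ) (Fd g t))) =
        fun t => (a • x) t * Fd (Sa p h) t * (starRingEnd ℂ) (Fd g t) := by
      funext t; simp only [Pi.smul_apply, smul_eq_mul]; ring
    show Mv _ V - Mv _ V = Mv _ V - Mv _ V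
    rw [← e1, ← e2]

theorem TR_mono {p : ℕ} {L : List ℕ} : TR (p :: L) ≤ TR L := by
  unfold TR
  apply Submodule.span_mono
  rintro f ⟨m, n, hm, hn, hmn, rfl⟩
  exact ⟨m, n, hm, hn, fun q hq => hmn q (List.mem_cons_of_mem _ hq), rfl⟩

/-! ### the step -/

theorem qp_eq (p : ℕ) (hp : 1 ≤ p) (w v : ℂ) (t : ℝ) : qp p w v t =
    (1 - (‖w‖ ^ 2 : ℝ) / 4) + (I / 2 * w) * (p : ℂ) ^ (-(t * I)) + (I / 2 * (starRingEnd ℂ) w) * (starRingEnd ℂ) ((p : ℂ) ^ (-(t * I))) +
      (I / 2 * v - w ^ 2 / 8) * ((p : ℂ) ^ (-(t * I))) ^ 2 +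
      (I / 2 * (starRingEnd ℂ) v - (starRingEnd ℂ) w ^ 2 / 8) * (starRingEnd ℂ) ((p : ℂ) ^ (-(t * I))) ^ 2 := by
  set z : ℂ := (p : ℂ) ^ (-(t * I)) with hz
  have hz1 : z * (starRingEnd ℂ) z = 1 := by
    rw [Complex.mul_conj, Complex.normSq_eq_norm_sq, hz, Complex.norm_natCast_cpow_of_pos (by omega)]
    simp
  have hre : ∀ x : ℂ, ((x.re : ℝ) : ℂ) = (x + (starRingEnd ℂ) x) / 2 := fun x => by
    rw [Complex.add_conj]
    push_cast
    ring
  have hw : ((‖w‖ ^ 2 : ℝ) : ℂ) = w * (starRingEnd ℂ) w := by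
    rw [Complex.mul_conj, Complex.normSq_eq_norm_sq]
  unfold qp
  rw [← hz, hw]
  push_cast
  rw [hre, hre]
  simp only [map_add, map_mul, map_pow]
  have e : (w * z + (starRingEnd ℂ) w * (starRingEnd ℂ) z) ^ 2 = w ^ 2 * z ^ 2 + 2 * (w * (starRingEnd ℂ) w) * (z * (starRingEnd ℂ) z) + (starRingEnd ℂ) w ^ 2 * (starRingEnd ℂ) z ^ 2 := by ring
  rw [hz1] at e
  linear_combination (-(1 / 8) : ℂ) * e

theorem qp_cont (p : ℕ) (hp : 1 ≤ p) (w v : ℂ) : Continuous (qp p w v) := by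
  have hc : Continuous fun t : ℝ => (p : ℂ) ^ (-(t * I)) :=
    Continuous.const_cpow (by fun_prop) (Or.inl (by exact_mod_cast (by omega : p ≠ 0)))
  unfold qp
  fun_prop

theorem prod_cont (w v : ℕ → ℂ) : ∀ (L : List ℕ), (∀ p ∈ L, p.Prime) →
    Continuous fun t => (L.map fun p => qp p (w p) (v p) t).prod
  | [], _ => by simp only [List.map_nil, List.prod_nil]; exact continuous_const
  | (p :: L), hL => by
      simp only [List.map_cons, List.prod_cons]
      exact (qp_cont p (hL p List.mem_cons_self).one_lt.le _ _).mul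
        (prod_cont w v L fun q hq => hL q (List.mem_cons_of_mem _ hq))

theorem mea (hLIM : S_LIM) (w v : ℕ → ℂ) : ∀ (L : List ℕ), L.Nodup → (∀ p ∈ L, p.Prime) → ∀ Φ ∈ TR L, ∀ f g : ℕ → ℂ,
    FS f → FS g → Eq0 (fun t => Φ t * (L.map fun p => qp p (w p) (v p) t).prod * Fd f t * (starRingEnd ℂ) (Fd g t))
      (fun t => Φ t * Fd (TL w v L f) t * (starRingEnd ℂ) (Fd g t))
  | [], _, _, Φ, _, f, g, _, _ => by
      have : (fun t => Φ t * (([] : List ℕ).map fun p => qp p (w p) (v p) t).prod * Fd f t * (starRingEnd ℂ) (Fd g t)) =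
          fun t => Φ t * Fd (TL w v [] f) t * (starRingEnd ℂ) (Fd g t) := by
        funext t
        simp [TL]
      rw [this]
      exact Eq0.refl _
  | (p :: L), hnd, hL, Φ, hΦ, f, g, hf, hg => by
      have hp : p.Prime := hL p List.mem_cons_self
      have hp1 := hp.one_lt.le
      have hL' : ∀ q ∈ L, q.Prime := fun q hq => hL q (List.mem_cons_of_mem _ hq)
      have hpL : p ∉ L := (List.nodup_cons.1 hnd).1
      have hnd' := (List.nodup_cons.1 hnd).2
      have hΦ' : Φ ∈ TR L := TR_mono hΦ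
      have ih := fun f g hf hg => mea hLIM w v L hnd' hL' Φ hΦ' f g hf hg
      set h := TL w v L f with hh
      have hhF : FS h := FS_TL w v L hL' f hf
      set W := w p with hW
      set X := v p with hX
      have E1 := ih f g hf hg
      have E2 := ih (Sh p f) g (FS_Sh hp1 hf) hg
      rw [TL_Sh w v hp L hL' hpL, ← hh] at E2
      have E3 := (ih f (Sh p g) hf (FS_Sh hp1 hg)).trans (lemA hp List.mem_cons_self hLIM hΦ hhF hg)
      have E4 := ih (Sh p (Sh p f)) g (FS_Sh hp1 (FS_Sh hp1 hf)) hg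
      rw [TL_Sh w v hp L hL' hpL, TL_Sh w v hp L hL' hpL, ← hh] at E4
      have E5 := ((ih f (Sh p (Sh p g)) hf (FS_Sh hp1 (FS_Sh hp1 hg))).trans
        (lemA hp List.mem_cons_self hLIM hΦ hhF (FS_Sh hp1 hg))).trans
        (lemA hp List.mem_cons_self hLIM hΦ (FS_Sa hp1 hhF) hg)
      -- continuity
      have cΦ := TR_cont hΦ
      have cQ := prod_cont w v L hL'
      have cj' : ∀ {u : ℕ → ℂ}, FS u → Continuous fun t => (starRingEnd ℂ) (Fd u t) := fun hu =>
        Complex.continuous_conj.comp (Fd_cont hu)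
      have cB : ∀ {u u' : ℕ → ℂ}, FS u → FS u' →
          Continuous fun t => Φ t * (L.map fun p => qp p (w p) (v p) t).prod * Fd u t * (starRingEnd ℂ) (Fd u' t) := fun hu hu' =>
        ((cΦ.mul cQ).mul (Fd_cont hu)).mul (cj' hu')
      have cC : ∀ {u u' : ℕ → ℂ}, FS u → FS u' → Continuous fun t => Φ t * Fd u t * (starRingEnd ℂ) (Fd u' t) := fun hu hu' =>
        (cΦ.mul (Fd_cont hu)).mul (cj' hu')
      have fS := FS_Sh hp1 hf
      have fSS := FS_Sh hp1 fS
      have gS := FS_Sh hp1 hg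
      have gSS := FS_Sh hp1 gS
      have hS := FS_Sh hp1 hhF
      have hSS := FS_Sh hp1 hS
      have hA := FS_Sa hp1 hhF
      have hAA := FS_Sa hp1 hA
      have c : ∀ (c : ℂ) {F : ℝ → ℂ}, Continuous F → Continuous fun t => c * F t := fun c F hF => continuous_const.mul hF
      have ad : ∀ {F G : ℝ → ℂ}, Continuous F → Continuous G → Continuous fun t => F t + G t := fun hF hG => hF.add hG
      have b1 := c (1 - (‖W‖ ^ 2 : ℝ) / 4) (cB hf hg)
      have b2 := c (I / 2 * W) (cB fS hg)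
      have b3 := c (I / 2 * (starRingEnd ℂ) W) (cB hf gS)
      have b4 := c (I / 2 * X - W ^ 2 / 8) (cB fSS hg)
      have b5 := c (I / 2 * (starRingEnd ℂ) X - (starRingEnd ℂ) W ^ 2 / 8) (cB hf gSS)
      have d1 := c (1 - (‖W‖ ^ 2 : ℝ) / 4) (cC hhF hg)
      have d2 := c (I / 2 * W) (cC hS hg)
      have d3 := c (I / 2 * (starRingEnd ℂ) W) (cC hA hg)
      have d4 := c (I / 2 * X - W ^ 2 / 8) (cC hSS hg)
      have d5 := c (I / 2 * (starRingEnd ℂ) X - (starRingEnd ℂ) W ^ 2 / 8) (cC hAA hg)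
      have t2 := Eq0.add b1 d1 b2 d2 (Eq0.smul _ E1) (Eq0.smul _ E2)
      have t3 := Eq0.add (ad b1 b2) (ad d1 d2) b3 d3 t2 (Eq0.smul _ E3)
      have t4 := Eq0.add (ad (ad b1 b2) b3) (ad (ad d1 d2) d3) b4 d4 t3 (Eq0.smul _ E4)
      have tot2 := Eq0.add (ad (ad (ad b1 b2) b3) b4) (ad (ad (ad d1 d2) d3) d4) b5 d5 t4 (Eq0.smul _ E5)
      have eF : (fun t => Φ t * ((p :: L).map fun p => qp p (w p) (v p) t).prod * Fd f t * (starRingEnd ℂ) (Fd g t)) =
          fun t => (1 - (‖W‖ ^ 2 : ℝ) / 4) * (Φ t * (L.map fun p => qp p (w p) (v p) t).prod * Fd f t * (starRingEnd ℂ) (Fd g t)) +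
            (I / 2 * W) * (Φ t * (L.map fun p => qp p (w p) (v p) t).prod * Fd (Sh p f) t * (starRingEnd ℂ) (Fd g t)) +
            (I / 2 * (starRingEnd ℂ) W) * (Φ t * (L.map fun p => qp p (w p) (v p) t).prod * Fd f t * (starRingEnd ℂ) (Fd (Sh p g) t)) +
            (I / 2 * X - W ^ 2 / 8) * (Φ t * (L.map fun p => qp p (w p) (v p) t).prod * Fd (Sh p (Sh p f)) t * (starRingEnd ℂ) (Fd g t)) +
            (I / 2 * (starRingEnd ℂ) X - (starRingEnd ℂ) W ^ 2 / 8) * (Φ t * (L.map fun p => qp p (w p) (v p) t).prod * Fd f t * (starRingEnd ℂ) (Fd (Sh p (Sh p g)) t)) := by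
        funext t
        simp only [List.map_cons, List.prod_cons]
        rw [qp_eq p hp1, ← hW, ← hX]
        simp only [Fd_Sh hp1, map_mul]
        ring
      have eG : (fun t => Φ t * Fd (TL w v (p :: L) f) t * (starRingEnd ℂ) (Fd g t)) =
          fun t => (1 - (‖W‖ ^ 2 : ℝ) / 4) * (Φ t * Fd h t * (starRingEnd ℂ) (Fd g t)) +
            (I / 2 * W) * (Φ t * Fd (Sh p h) t * (starRingEnd ℂ) (Fd g t)) +
            (I / 2 * (starRingEnd ℂ) W) * (Φ t * Fd (Sa p h) t * (starRingEnd ℂ) (Fd g t)) +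
            (I / 2 * X - W ^ 2 / 8) * (Φ t * Fd (Sh p (Sh p h)) t * (starRingEnd ℂ) (Fd g t)) +
            (I / 2 * (starRingEnd ℂ) X - (starRingEnd ℂ) W ^ 2 / 8) * (Φ t * Fd (Sa p (Sa p h)) t * (starRingEnd ℂ) (Fd g t)) := by
        funext t
        have e1 : TL w v (p :: L) f = fun n => ((((1 - (‖W‖ ^ 2 : ℝ) / 4 : ℂ) * h n + (I / 2 * W) * Sh p h n) +
            (I / 2 * (starRingEnd ℂ) W) * Sa p h n) + (I / 2 * X - W ^ 2 / 8) * Sh p (Sh p h) n) +
            (I / 2 * (starRingEnd ℂ) X - (starRingEnd ℂ) W ^ 2 / 8) * Sa p (Sa p h) n := by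
          funext n
          show Tp p W X h n = _
          unfold Tp
          ring
        rw [e1, Fd_add (FSadd (FSadd (FSadd (FSsmul hhF _) (FSsmul hS _)) (FSsmul hA _)) (FSsmul hSS _)) (FSsmul hAA _),
          Fd_add (FSadd (FSadd (FSsmul hhF _) (FSsmul hS _)) (FSsmul hA _)) (FSsmul hSS _),
          Fd_add (FSadd (FSsmul hhF _) (FSsmul hS _)) (FSsmul hA _), Fd_add (FSsmul hhF _) (FSsmul hS _),
          Fd_smul, Fd_smul, Fd_smul, Fd_smul, Fd_smul]
        ring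
      rw [eF, eG]
      exact tot2

theorem t_MEA : J_MEA := fun hLIM L w v hnd hL Φ hΦ f g hf hg => mea hLIM w v L hnd hL Φ hΦ f g hf hg

end

end Pool.Agent.Run7.h304.UC
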